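import Pool.Agent.LibMW38.Defs

/-! Block matrices. -/

open Matrix Complex

namespace MW38

open SP38 US38

variable {ι : Type} [Fintype ι] [DecidableEq ι] {wt : ι → ℤ} {k l m : ℤ}

section ring
variable {R : Type*} [CommRing R] {A B : Matrix ι ι R}

theorem blk_mul (A B : Matrix ι ι R) (k l : ℤ) : blk wt k l (A * B) =
    ∑ m ∈ Finset.univ.image wt, blk wt k m A * blk wt m l B := by
  ext i j
  rw [Matrix.sum_apply]
  simp only [blk, Matrix.mul_apply]
  rw [← Finset.sum_fiberwise_of_maps_to (g := wt) (t := Finset.univ.image wt)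
    (fun x _ => Finset.mem_image_of_mem _ (Finset.mem_univ x))]
  refine Finset.sum_congr rfl fun m _ => ?_
  exact Finset.sum_subtype _ (by simp) fun x => A i x * B x j

theorem blk_tri (hA : Tri wt A) (h : l < k) : blk wt k l A = 0 := by
  ext i j
  exact hA _ _ (by rw [i.2, j.2]; exact h)

/-- for triangular matrices only `k ≤ m ≤ l` contributes -/
theorem blk_mul_tri (hA : Tri wt A) (hB : Tri wt B) (k l : ℤ) : blk wt k l (A * B) =
    ∑ m ∈ Finset.Icc k l, blk wt k m A * blk wt m l B := by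
  rw [blk_mul]
  have h1 : ∑ m ∈ Finset.univ.image wt, blk wt k m A * blk wt m l B =
      ∑ m ∈ Finset.univ.image wt ∪ Finset.Icc k l, blk wt k m A * blk wt m l B := by
    refine Finset.sum_subset Finset.subset_union_left fun m _ hm => ?_
    ext i j
    rw [Matrix.mul_apply, Matrix.zero_apply]
    refine Finset.sum_eq_zero fun x _ => ?_
    refine absurd ?_ hm
    exact Finset.mem_image.2 ⟨x.1, Finset.mem_univ _, x.2⟩
  rw [h1]
  symm
  refine Finset.sum_subset Finset.subset_union_right fun m _ hm => ?_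
  rw [Finset.mem_Icc, not_and_or, not_le, not_le] at hm
  rcases hm with hm | hm
  · rw [blk_tri hA hm, Matrix.zero_mul]
  · rw [blk_tri hB hm, Matrix.mul_zero]

theorem blk_mul_diag (hA : Tri wt A) (hB : Tri wt B) (k : ℤ) :
    blk wt k k (A * B) = blk wt k k A * blk wt k k B := by
  rw [blk_mul_tri hA hB, Finset.Icc_self, Finset.sum_singleton]

theorem Tri.mul (hA : Tri wt A) (hB : Tri wt B) : Tri wt (A * B) := by
  intro i j hij
  rw [Matrix.mul_apply]
  refine Finset.sum_eq_zero fun x _ => ?_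
  by_cases hx : wt x < wt i
  · rw [hA i x hx, zero_mul]
  · rw [hB x j (by omega), mul_zero]

theorem Tri.add (hA : Tri wt A) (hB : Tri wt B) : Tri wt (A + B) := by
  intro i j hij
  rw [Matrix.add_apply, hA i j hij, hB i j hij, add_zero]

theorem Tri.one : Tri wt (1 : Matrix ι ι R) := by
  intro i j hij
  rw [Matrix.one_apply_ne]
  rintro rfl
  exact lt_irrefl _ hij

theorem Tri.pow (hA : Tri wt A) (n : ℕ) : Tri wt (A ^ n) := by
  induction n with
  | zero => rw [pow_zero]; exact Tri.one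
  | succ n ih => rw [pow_succ]; exact ih.mul hA

theorem Tri.inv (hA : Tri wt A) (hu : IsUnit A) : Tri wt A⁻¹ := by
  have : Invertible A := hu.invertible
  exact Matrix.blockTriangular_inv_of_blockTriangular (b := wt) (M := A) hA

theorem blk_one' (k : ℤ) : blk wt k k (1 : Matrix ι ι R) = 1 := by
  ext i j
  simp only [blk, Matrix.one_apply, Subtype.ext_iff]

theorem Tri.blk_mul_inv (hA : Tri wt A) (hu : IsUnit A) (k : ℤ) :
    blk wt k k A * blk wt k k A⁻¹ = 1 := by
  rw [← blk_mul_diag hA (hA.inv hu), Matrix.mul_nonsing_inv _ ((Matrix.isUnit_iff_isUnit_det _).1 hu),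
    blk_one']

theorem Tri.isUnit_blk (hA : Tri wt A) (hu : IsUnit A) (k : ℤ) : IsUnit (blk wt k k A) := by
  rw [Matrix.isUnit_iff_isUnit_det]
  exact Matrix.isUnit_det_of_right_inverse (hA.blk_mul_inv hu k)

theorem Tri.blk_inv (hA : Tri wt A) (hu : IsUnit A) (k : ℤ) :
    blk wt k k A⁻¹ = (blk wt k k A)⁻¹ := (Matrix.inv_eq_right_inv (hA.blk_mul_inv hu k)).symm
end ring

theorem Tri.cm {A : Matrix ι ι ℝ} (hA : Tri wt A) : Tri wt (SP38.cm A) := by
  intro i j hij
  show ((A i j : ℝ) : ℂ) = 0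
  rw [hA i j hij, ofReal_zero]

theorem cm_blk (A : Matrix ι ι ℝ) (k l : ℤ) : blk wt k l (cm A) = cm (blk wt k l A) := rfl

variable {g g' : Matrix ι ι ℝ}

theorem Uni.tri (hg : Uni wt g) : Tri wt g := by
  intro i j hij
  rw [hg i j hij.le, if_neg]
  rintro rfl
  exact lt_irrefl _ hij

theorem Uni.blk_self (hg : Uni wt g) (k : ℤ) : blk wt k k g = 1 := by
  ext i j
  have h1 : wt (j : ι) ≤ wt (i : ι) := by rw [i.2, j.2]
  simp only [blk, hg _ _ h1, Matrix.one_apply, Subtype.ext_iff]

theorem Uni.isUnit (hg : Uni wt g) : IsUnit g := by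
  rw [Matrix.isUnit_iff_isUnit_det]
  have h1 : g.det = 1 := by
    rw [Matrix.BlockTriangular.det (b := wt) hg.tri]
    refine Finset.prod_eq_one fun k _ => ?_
    have h2 : g.toSquareBlock wt k = 1 := hg.blk_self k
    rw [h2, Matrix.det_one]
  rw [h1]
  exact isUnit_one

end MW38
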