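import Pool.Agent.LibMW38.Alg
import Pool.Agent.LibMW38.Blk

/-! Splittings in terms of columns. -/

open Matrix Complex

namespace MW38

open SP38 US38

variable {ι : Type} [Fintype ι] [DecidableEq ι] {wt p : ι → ℤ} {k l : ℤ} {g : Matrix ι ι ℝ}
  {Φ : Matrix ι ι ℂ}

theorem Col_dg_mul (hu : IsUnit Φ) (ht : Tri wt Φ) : dg wt Φ * dg wt Φ⁻¹ = 1 := by
  have ht' : Tri wt Φ⁻¹ := ht.inv hu
  have h1 : Φ * Φ⁻¹ = 1 := Matrix.mul_nonsing_inv Φ ((Matrix.isUnit_iff_isUnit_det Φ).mp hu)
  ext i j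
  by_cases hij : wt i = wt j
  · rw [← h1, Matrix.mul_apply, Matrix.mul_apply]
    refine Finset.sum_congr rfl fun m _ => ?_
    unfold dg
    rcases lt_trichotomy (wt m) (wt i) with h | h | h
    · rw [if_neg (by omega), ht i m h]
      simp
    · rw [if_pos (by omega), if_pos (by omega)]
    · rw [if_neg (by omega), ht' m j (by omega)]
      simp
  · rw [Matrix.mul_apply, Matrix.one_apply_ne (by rintro rfl; exact hij rfl)]
    refine Finset.sum_eq_zero fun m _ => ?_
    unfold dg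
    by_cases h : wt i = wt m
    · rw [if_neg (show ¬ wt m = wt j by omega), mul_zero]
    · rw [if_neg h, zero_mul]

theorem dg_isUnit (hu : IsUnit Φ) (ht : Tri wt Φ) : IsUnit (dg wt Φ) := by
  rw [Matrix.isUnit_iff_isUnit_det]
  exact Matrix.isUnit_det_of_right_inverse (Col_dg_mul hu ht)

theorem Col_dg_inv (hu : IsUnit Φ) (ht : Tri wt Φ) : (dg wt Φ)⁻¹ = dg wt Φ⁻¹ :=
  Matrix.inv_eq_right_inv (Col_dg_mul hu ht)

theorem Col_dg_mulVec (A : Matrix ι ι ℂ) (v : ι → ℂ) (k : ℤ) (j : {i // wt i = k}) :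
    (dg wt A *ᵥ v) j = (blk wt k k A *ᵥ fun i : {i // wt i = k} => v i) j := by
  rw [Matrix.mulVec, Matrix.mulVec, dotProduct, dotProduct]
  have h1 : ∀ m : ι, dg wt A j m * v m = if wt m = k then A j m * v m else 0 := by
    intro m
    unfold dg
    by_cases h : wt m = k
    · rw [if_pos (by rw [j.2, h]), if_pos h]
    · rw [if_neg (by rw [j.2]; exact fun h' => h h'.symm), if_neg h, zero_mul]
  simp_rw [h1]
  rw [← Finset.sum_filter, Finset.sum_subtype (p := fun i => wt i = k) _ (by simp)]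
  rfl

/-- members of the direct sum filtration -/
theorem mem_Fl_dg (a : ℤ) (v : ι → ℂ) : v ∈ Fl p (dg wt Φ) a ↔
    ∀ k, (fun i : {i // wt i = k} => v i) ∈
      Fl (fun i : {i // wt i = k} => p i) (blk wt k k Φ) a := by
  constructor
  · intro h k
    obtain ⟨c, hc, hv⟩ := (mem_Fl_iff_exists v).mp h
    rw [mem_Fl_iff_exists]
    refine ⟨fun i => c i, fun j hj => hc j hj, ?_⟩
    funext j
    rw [hv, Col_dg_mulVec]
  · intro h
    have h1 : ∀ k, ∃ c : {i // wt i = k} → ℂ, (∀ j : {i // wt i = k}, p j < a → c j = 0) ∧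
        (fun i : {i // wt i = k} => v i) = blk wt k k Φ *ᵥ c :=
      fun k => (mem_Fl_iff_exists _).mp (h k)
    choose c hc hv using h1
    rw [mem_Fl_iff_exists]
    refine ⟨fun j => c (wt j) ⟨j, rfl⟩, fun j hj => hc (wt j) ⟨j, rfl⟩ hj, ?_⟩
    funext j
    have h2 := congrFun (hv (wt j)) ⟨j, rfl⟩
    have h3 := Col_dg_mulVec (wt := wt) Φ (fun j => c (wt j) ⟨j, rfl⟩) (wt j) ⟨j, rfl⟩
    have h4 : (fun i : {i // wt i = wt j} => c (wt i) ⟨i, rfl⟩) = c (wt j) := by
      funext i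
      obtain ⟨i, hi⟩ := i
      have : ∀ k (hk : wt i = k), c (wt i) ⟨i, rfl⟩ = c k ⟨i, hk⟩ := by
        rintro k rfl
        rfl
      exact this _ hi
    rw [h4] at h3
    exact h2.trans h3.symm

theorem Col_cm_one : cm (1 : Matrix ι ι ℝ) = 1 := by
  ext i j
  by_cases h : i = j
  · subst h
    simp [cm]
  · simp [cm, h]

theorem Col_blk_mul_self (hg : Uni wt g) (ht : Tri wt Φ) (l : ℤ) :
    blk wt l l (cm g * Φ) = blk wt l l Φ := by
  rw [blk_mul_diag hg.tri.cm ht, cm_blk, hg.blk_self]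
  have h : cm (1 : Matrix {i // wt i = l} {i // wt i = l} ℝ) = 1 := Col_cm_one
  rw [h, one_mul]

/-- the splitting condition in terms of columns -/
theorem splitBy_iff (hu : IsUnit Φ) (ht : Tri wt Φ) (hg : Uni wt g) :
    SplitBy wt p g Φ ↔ ∀ k l, k < l → ColF wt p k l (cm g * Φ) Φ := by
  have hcg : IsUnit (cm g) := by
    rw [Matrix.isUnit_iff_isUnit_det]
    have h1 : g * g⁻¹ = 1 :=
      Matrix.mul_nonsing_inv g ((Matrix.isUnit_iff_isUnit_det g).mp hg.isUnit)
    have h2 : cm g * cm g⁻¹ = 1 := by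
      have h3 : cm (g * g⁻¹) = cm g * cm g⁻¹ := by
        unfold cm
        exact Matrix.map_mul (f := Complex.ofRealHom)
      rw [← h3, h1, Col_cm_one]
    exact Matrix.isUnit_det_of_right_inverse h2
  have htri : Tri wt (cm g * Φ) := hg.tri.cm.mul ht
  constructor
  · intro h k l _ b
    have h1 : (fun i => (cm g * Φ) i b) ∈ Fl p (cm g * Φ) (p b) := col_mem_Fl le_rfl
    rw [h (p b), mem_Fl_dg] at h1
    exact h1 k
  · intro h a
    refine Fl_eq_of_le (hcg.mul hu) (dg_isUnit hu ht) ?_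
    unfold Fl
    rw [Submodule.span_le]
    rintro v ⟨j, hj, rfl⟩
    have goal : (fun i => (cm g * Φ) i j) ∈ Fl p (dg wt Φ) a := by
      rw [mem_Fl_dg]
      intro k
      rcases lt_trichotomy k (wt j) with hk | hk | hk
      · exact Fl_anti hj (h k (wt j) hk ⟨j, rfl⟩)
      · subst hk
        have h1 : (fun i : {i // wt i = wt j} => (cm g * Φ) i j) =
            fun i => blk wt (wt j) (wt j) Φ i ⟨j, rfl⟩ := by
          funext i
          rw [← Col_blk_mul_self hg ht]
          rfl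
        rw [h1]
        exact col_mem_Fl (p := fun i : {i // wt i = wt j} => p i) hj
      · have h1 : (fun i : {i // wt i = k} => (cm g * Φ) i j) = 0 := by
          funext i
          exact htri i j (by rw [i.2]; exact hk)
        rw [h1]
        exact Submodule.zero_mem _
    exact goal

end MW38
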