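import Pool.Agent.LibMW38.Kr

/-! `Hom` of two variations: transversality. -/

open Matrix Complex

namespace MW38

open SP38 US38

variable {I J : Type} [Fintype I] [DecidableEq I] [Fintype J] [DecidableEq J]
  {p₁ : I → ℤ} {p₂ : J → ℤ}

theorem homT_det {S : Set ℂ} {A : ℂ → Matrix J J ℂ}
    (hA : ∀ i j, DifferentiableOn ℂ (fun z => A z i j) S) :
    DifferentiableOn ℂ (fun z => (A z).det) S := by
  have h1 : (fun z => (A z).det) = fun z => ∑ τ : Equiv.Perm J,
      ((Equiv.Perm.sign τ : ℤ) : ℂ) * ∏ i, A z (τ i) i := by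
    funext z
    rw [Matrix.det_apply']
  rw [h1]
  refine DifferentiableOn.fun_sum fun τ _ => DifferentiableOn.const_mul ?_ _
  exact DifferentiableOn.fun_finsetProd fun i _ => hA _ _

theorem homT_adj {S : Set ℂ} {A : ℂ → Matrix J J ℂ}
    (hA : ∀ i j, DifferentiableOn ℂ (fun z => A z i j) S) (i j : J) :
    DifferentiableOn ℂ (fun z => (A z).adjugate i j) S := by
  have h1 : (fun z => (A z).adjugate i j) = fun z =>
      ((A z).updateRow j (Pi.single i 1)).det := by
    funext z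
    rw [Matrix.adjugate_apply]
  rw [h1]
  apply homT_det
  intro k l
  by_cases hk : k = j
  · subst hk
    have e : (fun z => (A z).updateRow k (Pi.single i 1) k l) =
        fun _ => (Pi.single i (1 : ℂ) : J → ℂ) l := by
      funext z
      rw [Matrix.updateRow_self]
    rw [e]
    exact differentiableOn_const _
  · have e : (fun z => (A z).updateRow j (Pi.single i 1) k l) = fun z => A z k l := by
      funext z
      rw [Matrix.updateRow_ne hk]
    rw [e]
    exact hA k l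

theorem homT_inv {S : Set ℂ} {A : ℂ → Matrix J J ℂ}
    (hA : ∀ i j, DifferentiableOn ℂ (fun z => A z i j) S) (hu : ∀ z ∈ S, IsUnit (A z)) (i j : J) :
    DifferentiableOn ℂ (fun z => (A z)⁻¹ i j) S := by
  have e : (fun z => (A z)⁻¹ i j) = fun z => ((A z).det)⁻¹ * (A z).adjugate i j := by
    funext z
    rw [Matrix.inv_def, Matrix.smul_apply, Ring.inverse_eq_inv', smul_eq_mul]
  rw [e]
  refine DifferentiableOn.mul (DifferentiableOn.inv (homT_det hA) ?_) (homT_adj hA i j)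
  intro z hz
  exact ((Matrix.isUnit_iff_isUnit_det _).mp (hu z hz)).ne_zero

theorem kr_hol {S : Set ℂ} {G₁ : ℂ → Matrix I I ℂ} {G₂ : ℂ → Matrix J J ℂ}
    (h1 : ∀ i j, DifferentiableOn ℂ (fun z => G₁ z i j) S)
    (h2 : ∀ i j, DifferentiableOn ℂ (fun z => G₂ z i j) S) (hu : ∀ z ∈ S, IsUnit (G₂ z))
    (x y : I × J) : DifferentiableOn ℂ (fun z => kr (G₁ z) (G₂ z) x y) S :=
  DifferentiableOn.mul (h1 _ _) (homT_inv h2 hu _ _)

/-- Griffiths transversality of `Hom` -/
theorem kr_tr {S : Set ℂ} (hS : IsOpen S) {G₁ : ℂ → Matrix I I ℂ} {G₂ : ℂ → Matrix J J ℂ}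
    (h1 : ∀ i j, DifferentiableOn ℂ (fun z => G₁ z i j) S)
    (h2 : ∀ i j, DifferentiableOn ℂ (fun z => G₂ z i j) S)
    (hu1 : ∀ z ∈ S, IsUnit (G₁ z)) (hu2 : ∀ z ∈ S, IsUnit (G₂ z)) {z : ℂ} (hz : z ∈ S)
    (ht1 : ∀ j, (fun i => deriv (fun z => G₁ z i j) z) ∈ Fl p₁ (G₁ z) (p₁ j - 1))
    (ht2 : ∀ j, (fun i => deriv (fun z => G₂ z i j) z) ∈ Fl p₂ (G₂ z) (p₂ j - 1)) (y : I × J) :
    (fun x => deriv (fun z => kr (G₁ z) (G₂ z) x y) z) ∈
      Fl (pE p₁ p₂) (kr (G₁ z) (G₂ z)) (pE p₁ p₂ y - 1) := by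
  obtain ⟨a, b⟩ := y
  set φ' : Matrix I J ℂ := fun i j => deriv (fun z => kr (G₁ z) (G₂ z) (i, j) (a, b)) z with hφ'
  have e0 : (fun x => deriv (fun z => kr (G₁ z) (G₂ z) x (a, b)) z) = vc φ' := rfl
  rw [e0, mem_Fl_hom (hu1 z hz) (hu2 z hz)]
  intro c
  have hd1 : ∀ i j, HasDerivAt (fun z => kr (G₁ z) (G₂ z) (i, j) (a, b)) (φ' i j) z := fun i j =>
    ((kr_hol h1 h2 hu2 (i, j) (a, b)).differentiableAt (hS.mem_nhds hz)).hasDerivAt
  have hd2 : ∀ j, HasDerivAt (fun z => G₂ z j c) (deriv (fun z => G₂ z j c) z) z := fun j =>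
    ((h2 j c).differentiableAt (hS.mem_nhds hz)).hasDerivAt
  have hd3 : ∀ i, HasDerivAt (fun z => G₁ z i a) (deriv (fun z => G₁ z i a) z) z := fun i =>
    ((h1 i a).differentiableAt (hS.mem_nhds hz)).hasDerivAt
  -- the product formula
  have hprod : ∀ i, ∀ y ∈ S, ∑ j, kr (G₁ y) (G₂ y) (i, j) (a, b) * G₂ y j c =
      G₁ y i a * (if b = c then 1 else 0) := by
    intro i y hy
    have hdet := (Matrix.isUnit_iff_isUnit_det _).mp (hu2 y hy)
    have f : ∑ j, kr (G₁ y) (G₂ y) (i, j) (a, b) * G₂ y j c =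
        G₁ y i a * ((G₂ y)⁻¹ * G₂ y) b c := by
      rw [Matrix.mul_apply, Finset.mul_sum]
      exact Finset.sum_congr rfl fun j _ => by simp only [kr]; ring
    rw [f, Matrix.nonsing_inv_mul _ hdet, Matrix.one_apply]
  have hder : ∀ i, ∑ j, (φ' i j * G₂ z j c +
      kr (G₁ z) (G₂ z) (i, j) (a, b) * deriv (fun z => G₂ z j c) z) =
      deriv (fun z => G₁ z i a) z * (if b = c then 1 else 0) := by
    intro i
    have f1 : HasDerivAt (fun z => ∑ j, kr (G₁ z) (G₂ z) (i, j) (a, b) * G₂ z j c)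
        (∑ j, (φ' i j * G₂ z j c +
          kr (G₁ z) (G₂ z) (i, j) (a, b) * deriv (fun z => G₂ z j c) z)) z :=
      HasDerivAt.fun_sum fun j _ => (hd1 i j).mul (hd2 j)
    have f2 : HasDerivAt (fun z => G₁ z i a * (if b = c then 1 else 0))
        (deriv (fun z => G₁ z i a) z * (if b = c then 1 else 0)) z := (hd3 i).mul_const _
    have f3 : (fun z => ∑ j, kr (G₁ z) (G₂ z) (i, j) (a, b) * G₂ z j c) =ᶠ[nhds z]
        fun z => G₁ z i a * (if b = c then 1 else 0) :=
      Filter.eventually_of_mem (hS.mem_nhds hz) fun y hy => hprod i y hy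
    exact f1.unique (f2.congr_of_eventuallyEq f3)
  set t : ℂ := ((G₂ z)⁻¹ *ᵥ fun j => deriv (fun z => G₂ z j c) z) b with ht
  have hmain : (fun i => (φ' * G₂ z) i c) =
      (if b = c then (1 : ℂ) else 0) • (fun i => deriv (fun z => G₁ z i a) z) -
        t • (fun i => G₁ z i a) := by
    funext i
    have f1 : (φ' * G₂ z) i c + ∑ j, kr (G₁ z) (G₂ z) (i, j) (a, b) *
        deriv (fun z => G₂ z j c) z = deriv (fun z => G₁ z i a) z * (if b = c then 1 else 0) := by
      rw [← hder i, Finset.sum_add_distrib, Matrix.mul_apply]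
    have f2 : ∑ j, kr (G₁ z) (G₂ z) (i, j) (a, b) * deriv (fun z => G₂ z j c) z =
        t * G₁ z i a := by
      rw [ht]
      simp only [Matrix.mulVec, dotProduct, Finset.sum_mul]
      exact Finset.sum_congr rfl fun j _ => by simp only [kr]; ring
    rw [f2] at f1
    simp only [Pi.sub_apply, Pi.smul_apply, smul_eq_mul]
    linear_combination f1
  rw [hmain]
  have hpE : pE p₁ p₂ (a, b) = p₁ a - p₂ b := rfl
  refine Submodule.sub_mem _ ?_ ?_
  · by_cases hbc : b = c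
    · subst hbc
      refine Submodule.smul_mem _ _ ?_
      have e : p₂ b + (pE p₁ p₂ (a, b) - 1) = p₁ a - 1 := by rw [hpE]; ring
      rw [e]
      exact ht1 a
    · rw [if_neg hbc, zero_smul]
      exact Submodule.zero_mem _
  · by_cases hb : p₂ b < p₂ c - 1
    · have : t = 0 := (mem_Fl_iff (hu2 z hz) _).mp (ht2 c) b hb
      rw [this, zero_smul]
      exact Submodule.zero_mem _
    · refine Submodule.smul_mem _ _ (col_mem_Fl ?_)
      rw [hpE]
      omega

end MW38
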