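import Pool.Agent.LibMW38.Defs

/-! Filtrations given by period matrices. -/

open Matrix Complex

namespace MW38

open SP38 US38

variable {α : Type} [Fintype α] [DecidableEq α] {p : α → ℤ} {G G' A : Matrix α α ℂ} {a b : ℤ}

theorem mem_Fl_iff_exists (v : α → ℂ) :
    v ∈ Fl p G a ↔ ∃ c : α → ℂ, (∀ j, p j < a → c j = 0) ∧ v = G *ᵥ c := by
  constructor
  · intro hv
    refine Submodule.span_induction (p := fun v _ => ∃ c : α → ℂ,
      (∀ j, p j < a → c j = 0) ∧ v = G *ᵥ c) ?_ ?_ ?_ ?_ hv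
    · rintro x ⟨j, hj, rfl⟩
      refine ⟨Pi.single j 1, ?_, ?_⟩
      · intro i hi
        rw [Pi.single_eq_of_ne]
        rintro rfl
        omega
      · rw [Matrix.mulVec_single_one]
        rfl
    · exact ⟨0, fun _ _ => rfl, by rw [Matrix.mulVec_zero]⟩
    · rintro x y _ _ ⟨c, hc, rfl⟩ ⟨d, hd, rfl⟩
      refine ⟨c + d, ?_, ?_⟩
      · intro j hj
        rw [Pi.add_apply, hc j hj, hd j hj, add_zero]
      · rw [Matrix.mulVec_add]
    · rintro t x _ ⟨c, hc, rfl⟩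
      refine ⟨t • c, ?_, ?_⟩
      · intro j hj
        rw [Pi.smul_apply, hc j hj, smul_zero]
      · rw [Matrix.mulVec_smul]
  · rintro ⟨c, hc, rfl⟩
    rw [Matrix.mulVec_eq_sum]
    apply Submodule.sum_mem
    intro j _
    by_cases hj : p j < a
    · rw [hc j hj]
      simp
    · have : MulOpposite.op (c j) • Gᵀ j = c j • (fun i => G i j) := by
        funext i
        simp [Matrix.transpose_apply, mul_comm]
      rw [this]
      apply Submodule.smul_mem
      exact Submodule.subset_span ⟨j, not_lt.mp hj, rfl⟩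

private theorem Alg_inv (hG : IsUnit G) (v : α → ℂ) :
    G *ᵥ (G⁻¹ *ᵥ v) = v ∧ G⁻¹ *ᵥ (G *ᵥ v) = v := by
  have hdet : IsUnit G.det := (Matrix.isUnit_iff_isUnit_det G).mp hG
  constructor
  · rw [Matrix.mulVec_mulVec, Matrix.mul_nonsing_inv G hdet, Matrix.one_mulVec]
  · rw [Matrix.mulVec_mulVec, Matrix.nonsing_inv_mul G hdet, Matrix.one_mulVec]

theorem mem_Fl_iff (hG : IsUnit G) (v : α → ℂ) :
    v ∈ Fl p G a ↔ ∀ j, p j < a → (G⁻¹ *ᵥ v) j = 0 := by
  rw [mem_Fl_iff_exists]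
  constructor
  · rintro ⟨c, hc, rfl⟩ j hj
    rw [(Alg_inv hG c).2]
    exact hc j hj
  · intro h
    exact ⟨G⁻¹ *ᵥ v, h, ((Alg_inv hG v).1).symm⟩

theorem col_mem_Fl {j : α} (h : a ≤ p j) : (fun i => G i j) ∈ Fl p G a :=
  Submodule.subset_span ⟨j, h, rfl⟩

theorem Fl_anti (h : a ≤ b) : Fl p G b ≤ Fl p G a := by
  apply Submodule.span_mono
  rintro v ⟨j, hj, rfl⟩
  exact ⟨j, h.trans hj, rfl⟩

theorem Fl_mul (A G : Matrix α α ℂ) (a : ℤ) :
    Fl p (A * G) a = (Fl p G a).map (Matrix.mulVecLin A) := by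
  ext v
  rw [mem_Fl_iff_exists, Submodule.mem_map]
  constructor
  · rintro ⟨c, hc, rfl⟩
    refine ⟨G *ᵥ c, (mem_Fl_iff_exists _).2 ⟨c, hc, rfl⟩, ?_⟩
    rw [Matrix.mulVecLin_apply, Matrix.mulVec_mulVec]
  · rintro ⟨u, hu, rfl⟩
    obtain ⟨c, hc, rfl⟩ := (mem_Fl_iff_exists _).1 hu
    refine ⟨c, hc, ?_⟩
    rw [Matrix.mulVecLin_apply, Matrix.mulVec_mulVec]

private theorem Alg_one (hG : IsUnit G) :
    Module.finrank ℂ (Fl p G a) = Module.finrank ℂ (Fl p (1 : Matrix α α ℂ) a) := by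
  have hinj : Function.Injective (Matrix.mulVecLin G) := by
    intro x y hxy
    rw [Matrix.mulVecLin_apply, Matrix.mulVecLin_apply] at hxy
    rw [← (Alg_inv hG x).2, hxy, (Alg_inv hG y).2]
  have h1 : Fl p G a = (Fl p (1 : Matrix α α ℂ) a).map (Matrix.mulVecLin G) := by
    rw [← Fl_mul, Matrix.mul_one]
  rw [h1]
  exact (LinearEquiv.finrank_eq (Submodule.equivMapOfInjective (Matrix.mulVecLin G) hinj
    (Fl p (1 : Matrix α α ℂ) a))).symm

theorem Fl_eq_of_le (hG : IsUnit G) (hG' : IsUnit G') (h : Fl p G a ≤ Fl p G' a) :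
    Fl p G a = Fl p G' a :=
  Submodule.eq_of_le_of_finrank_eq h ((Alg_one hG).trans (Alg_one hG').symm)

/-- two period matrices of the same filtration -/
theorem exists_C (hG : IsUnit G) (hG' : IsUnit G') (h : ∀ a, Fl p G a = Fl p G' a) :
    ∃ C : Matrix α α ℂ, IsUnit C ∧ G = G' * C ∧ ∀ i j, p i < p j → C i j = 0 := by
  have hdet : IsUnit G.det := (Matrix.isUnit_iff_isUnit_det G).mp hG
  have hdet' : IsUnit G'.det := (Matrix.isUnit_iff_isUnit_det G').mp hG'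
  refine ⟨G'⁻¹ * G, ?_, ?_, ?_⟩
  · rw [Matrix.isUnit_iff_isUnit_det, Matrix.det_mul]
    exact (Matrix.isUnit_nonsing_inv_det G' hdet').mul hdet
  · rw [← Matrix.mul_assoc, Matrix.mul_nonsing_inv G' hdet', Matrix.one_mul]
  · intro i j hij
    have h1 : (fun i => G i j) ∈ Fl p G' (p j) := by
      rw [← h]
      exact col_mem_Fl le_rfl
    exact (mem_Fl_iff hG' _).1 h1 i hij

/-- a real vector in `F^0` of a structure of negative weight vanishes -/
theorem PHS.rigid {w : ℤ} {Q : Matrix α α ℝ} (h : PHS w p Q G) (hw : w < 0) {v : α → ℂ}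
    (hr : cc v = v) (hv : v ∈ Fl p G 0) : v = 0 := by
  by_contra hne
  have h1 : cc v ∈ Fl p G (w - 0) := by
    rw [hr]
    exact Fl_anti (by omega) hv
  have h2 := (h.pos 0 v hv h1 hne).1
  have h3 := h.riem 0 0 (by omega) v hv v hv
  rw [hr, h3, mul_zero] at h2
  simp at h2

end MW38
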