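import Pool.Agent.LibMW38.Hom3

/-! Uniqueness of real splittings. -/

open Matrix Complex

namespace MW38

open SP38 US38

variable {ι : Type} [Fintype ι] [DecidableEq ι] {wt p : ι → ℤ} {Q : Matrix ι ι ℝ}

/-- the symmetry of the Hodge numbers of the graded pieces -/
theorem symm_blk (hs : ∃ s : Equiv.Perm ι, ∀ j, wt (s j) = wt j ∧ p (s j) = wt j - p j) (k : ℤ) :
    ∃ s : Equiv.Perm {i // wt i = k}, ∀ j : {i // wt i = k}, p (s j) = k - p j := by
  obtain ⟨s, hs⟩ := hs
  refine ⟨s.subtypePerm (p := fun i => wt i = k) (fun x => by rw [(hs x).1]), fun j => ?_⟩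
  have h1 := (hs j).2
  rw [j.2] at h1
  exact h1

/-- a real matrix in `F^0 Hom (Gr_l, Gr_k)`, `k < l`, vanishes -/
theorem rigid_hom {Φ : Matrix ι ι ℂ} (h : MHS wt p Q Φ)
    (hs : ∃ s : Equiv.Perm ι, ∀ j, wt (s j) = wt j ∧ p (s j) = wt j - p j) {k l : ℤ} (hkl : k < l)
    {X : Matrix {i // wt i = k} {j // wt j = l} ℝ}
    (hX : ∀ b : {j // wt j = l}, (fun i => (cm X * blk wt l l Φ) i b) ∈
      Fl (fun i : {i // wt i = k} => p i) (blk wt k k Φ) (p b)) : X = 0 := by
  have h1 : vc (cm X) ∈ Fl (pE (fun i : {i // wt i = k} => p i) (fun i : {i // wt i = l} => p i))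
      (kr (blk wt k k Φ) (blk wt l l Φ)) 0 := by
    rw [mem_Fl_hom (h.gr k).unit (h.gr l).unit]
    intro b
    rw [add_zero]
    exact hX b
  have h2 := (hom_phs (h.gr k) (h.gr l) (symm_blk hs k) (symm_blk hs l)).rigid (by omega)
    (v := vc (cm X)) (by
      funext x
      simp [cc, vc, cm]) h1
  ext i j
  have h3 := congrFun h2 (i, j)
  simp only [vc, cm, Matrix.map_apply, Pi.zero_apply] at h3
  exact_mod_cast h3

/-- two real splittings of `W_{l-1}` agree -/
theorem uniq {Φ : Matrix ι ι ℂ} (h : MHS wt p Q Φ)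
    (hs : ∃ s : Equiv.Perm ι, ∀ j, wt (s j) = wt j ∧ p (s j) = wt j - p j)
    {g g' : Matrix ι ι ℝ} (hg : Uni wt g) (hg' : Uni wt g') {l : ℤ}
    (h1 : ∀ k m, k < m → m < l → ColF wt p k m (cm g * Φ) Φ)
    (h2 : ∀ k m, k < m → m < l → ColF wt p k m (cm g' * Φ) Φ) {i j : ι} (hj : wt j < l) :
    g i j = g' i j := by
  have htr : IsTrans ι (fun a b => wt a < wt b) := ⟨fun a b c hab hbc => lt_trans hab hbc⟩
  have hir : Std.Irrefl (fun a b : ι => wt a < wt b) := ⟨fun a => lt_irrefl _⟩
  have hwf : WellFounded (fun a b : ι => wt a < wt b) := Finite.wellFounded_of_trans_of_irrefl _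
  induction j using hwf.induction generalizing i with
  | _ j ih =>
    rcases le_or_gt (wt j) (wt i) with hij | hij
    · rw [hg i j hij, hg' i j hij]
    · have hX : blk wt (wt i) (wt j) (g - g') = 0 := by
        apply rigid_hom h hs hij
        intro b
        have e1 : (fun x : {x // wt x = wt i} =>
            (cm (blk wt (wt i) (wt j) (g - g')) * blk wt (wt j) (wt j) Φ) x b) =
            (fun x => blk wt (wt i) (wt j) (cm g * Φ) x b) -
              (fun x => blk wt (wt i) (wt j) (cm g' * Φ) x b) := by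
          funext x
          rw [Pi.sub_apply]
          have e2 : blk wt (wt i) (wt j) (cm g * Φ) x b - blk wt (wt i) (wt j) (cm g' * Φ) x b =
              ∑ y, (if wt y = wt j then ((g x y - g' x y : ℝ) : ℂ) * Φ y b else 0) := by
            unfold blk
            rw [Matrix.mul_apply, Matrix.mul_apply, ← Finset.sum_sub_distrib]
            refine Finset.sum_congr rfl fun y _ => ?_
            have e3 : cm g x y * Φ y b - cm g' x y * Φ y b = ((g x y - g' x y : ℝ) : ℂ) * Φ y b := by
              simp only [cm, Matrix.map_apply]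
              push_cast
              ring
            rw [e3]
            rcases lt_trichotomy (wt y) (wt j) with hy | hy | hy
            · rw [if_neg hy.ne, ih y hy (hy.trans hj), sub_self]
              simp
            · rw [if_pos hy]
            · rw [if_neg hy.ne', h.tri y b (by rw [b.2]; exact hy), mul_zero]
          rw [e2, ← Finset.sum_filter,
            Finset.sum_subtype (p := fun y => wt y = wt j) _ (by simp), Matrix.mul_apply]
          rfl
        rw [e1]
        exact Submodule.sub_mem _ (h1 (wt i) (wt j) hij hj b) (h2 (wt i) (wt j) hij hj b)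
      have h3 := congrFun (congrFun hX ⟨i, rfl⟩) ⟨j, rfl⟩
      simp only [blk, Matrix.sub_apply, Matrix.zero_apply] at h3
      exact sub_eq_zero.mp h3

end MW38
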