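import Pool.Agent.LibMW38.Alg

/-! The matrix of `φ ↦ A φ B⁻¹`. -/

open Matrix Complex

namespace MW38

open SP38 US38

variable {I J : Type} [Fintype I] [DecidableEq I] [Fintype J] [DecidableEq J]

section ring
variable {R : Type*} [CommRing R] (A A' : Matrix I I R) (B B' : Matrix J J R)

theorem kr_mulVec (φ : Matrix I J R) : kr A B *ᵥ vc φ = vc (A * φ * B⁻¹) := by
  ext x
  simp only [mulVec, dotProduct, kr, vc, Fintype.sum_prod_type, Matrix.mul_apply, Finset.sum_mul]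
  rw [Finset.sum_comm]
  refine Finset.sum_congr rfl fun j _ => Finset.sum_congr rfl fun i _ => ?_
  ring

theorem kr_mul : kr A B * kr A' B' = kr (A * A') (B * B') := by
  ext x z
  simp only [kr, Matrix.mul_apply, Fintype.sum_prod_type, Matrix.mul_inv_rev]
  rw [Finset.sum_mul_sum]
  refine Finset.sum_congr rfl fun j _ => Finset.sum_congr rfl fun i _ => ?_
  ring

theorem kr_transpose : (kr A B)ᵀ = kr Aᵀ Bᵀ := by
  ext x y
  simp only [kr, transpose_apply, ← transpose_nonsing_inv]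

theorem kr_one : kr (1 : Matrix I I R) (1 : Matrix J J R) = 1 := by
  ext x y
  obtain ⟨i, j⟩ := x
  obtain ⟨i', j'⟩ := y
  simp only [kr, inv_one, one_apply, Prod.mk.injEq]
  by_cases h1 : i = i'
  · by_cases h2 : j = j'
    · simp [h1, h2]
    · have h3 : ¬ j' = j := fun h => h2 h.symm
      simp [h2, h3]
  · simp [h1]

theorem kr_mul_inv {A : Matrix I I R} {B : Matrix J J R} (hA : IsUnit A) (hB : IsUnit B) :
    kr A B * kr A⁻¹ B⁻¹ = 1 := by
  rw [kr_mul, Matrix.mul_nonsing_inv _ ((Matrix.isUnit_iff_isUnit_det _).1 hA),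
    Matrix.mul_nonsing_inv _ ((Matrix.isUnit_iff_isUnit_det _).1 hB), kr_one]

theorem isUnit_kr {A : Matrix I I R} {B : Matrix J J R} (hA : IsUnit A) (hB : IsUnit B) :
    IsUnit (kr A B) := by
  rw [Matrix.isUnit_iff_isUnit_det]
  exact Matrix.isUnit_det_of_right_inverse (kr_mul_inv hA hB)

theorem kr_inv {A : Matrix I I R} {B : Matrix J J R} (hA : IsUnit A) (hB : IsUnit B) :
    (kr A B)⁻¹ = kr A⁻¹ B⁻¹ := Matrix.inv_eq_right_inv (kr_mul_inv hA hB)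
end ring

theorem kr_cm_inv (B : Matrix J J ℝ) : (cm B)⁻¹ = cm B⁻¹ := by
  have h1 : cm B = (ofRealHom.mapMatrix B : Matrix J J ℂ) := rfl
  have h2 : cm B⁻¹ = (ofRealHom.mapMatrix B⁻¹ : Matrix J J ℂ) := rfl
  rw [h1, h2, Matrix.inv_def, Matrix.inv_def, ← RingHom.map_det, ← RingHom.map_adjugate,
    Ring.inverse_eq_inv', Ring.inverse_eq_inv', ← map_inv₀]
  ext i j
  simp

theorem cm_kr (A : Matrix I I ℝ) (B : Matrix J J ℝ) : cm (kr A B) = kr (cm A) (cm B) := by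
  ext x y
  simp only [kr, kr_cm_inv]
  simp [cm, kr]

variable {p₁ : I → ℤ} {p₂ : J → ℤ} {G₁ G₁' A : Matrix I I ℂ} {G₂ G₂' B : Matrix J J ℂ}

/-- the Hodge filtration of `Hom` -/
theorem mem_Fl_hom (h1 : IsUnit G₁) (h2 : IsUnit G₂) (φ : Matrix I J ℂ) (c : ℤ) :
    vc φ ∈ Fl (pE p₁ p₂) (kr G₁ G₂) c ↔
      ∀ b, (fun i => (φ * G₂) i b) ∈ Fl p₁ G₁ (p₂ b + c) := by
  rw [mem_Fl_iff (isUnit_kr h1 h2), kr_inv h1 h2, kr_mulVec,
    Matrix.nonsing_inv_nonsing_inv _ ((Matrix.isUnit_iff_isUnit_det _).1 h2)]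
  have h3 : ∀ i b, (G₁⁻¹ *ᵥ fun i => (φ * G₂) i b) i = (G₁⁻¹ * φ * G₂) i b := by
    intro i b
    rw [Matrix.mul_assoc, Matrix.mul_apply]
    rfl
  constructor
  · intro h b
    rw [mem_Fl_iff h1]
    intro i hi
    rw [h3]
    exact h (i, b) (by show p₁ i - p₂ b < c; linarith)
  · rintro h ⟨i, b⟩ hi
    have hi' : p₁ i - p₂ b < c := hi
    have h4 := (mem_Fl_iff h1 _).1 (h b) i (by linarith)
    rw [h3] at h4
    exact h4

/-- it maps `F^a` to `F^(a+c)` -/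
theorem mem_Fl_hom' (h1 : IsUnit G₁) (h2 : IsUnit G₂) (φ : Matrix I J ℂ) (c : ℤ) :
    vc φ ∈ Fl (pE p₁ p₂) (kr G₁ G₂) c ↔
      ∀ a, ∀ v ∈ Fl p₂ G₂ a, φ *ᵥ v ∈ Fl p₁ G₁ (a + c) := by
  rw [mem_Fl_hom h1 h2]
  constructor
  · intro h a v hv
    obtain ⟨d, hd, rfl⟩ := (mem_Fl_iff_exists v).1 hv
    have h3 : φ *ᵥ (G₂ *ᵥ d) = ∑ b, d b • fun i => (φ * G₂) i b := by
      ext i
      rw [Matrix.mulVec_mulVec, Finset.sum_apply]
      simp only [mulVec, dotProduct, Pi.smul_apply, smul_eq_mul]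
      exact Finset.sum_congr rfl fun b _ => mul_comm _ _
    rw [h3]
    refine Submodule.sum_mem _ fun b _ => ?_
    by_cases hb : p₂ b < a
    · rw [hd b hb, zero_smul]
      exact Submodule.zero_mem _
    · exact Submodule.smul_mem _ _ (Fl_anti (by omega) (h b))
  · intro h b
    have h3 : (fun i => (φ * G₂) i b) = φ *ᵥ fun j => G₂ j b := by
      ext i
      rw [Matrix.mul_apply]
      rfl
    rw [h3]
    exact h _ _ (col_mem_Fl le_rfl)

theorem Fl_kr_map (h1 : IsUnit G₁) (h2 : IsUnit G₂) (h1' : IsUnit G₁') (h2' : IsUnit G₂')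
    (hA : IsUnit A) (hB : IsUnit B)
    (h3 : ∀ a, Fl p₁ G₁' a = (Fl p₁ G₁ a).map (Matrix.mulVecLin A))
    (h4 : ∀ a, Fl p₂ G₂' a = (Fl p₂ G₂ a).map (Matrix.mulVecLin B)) (c : ℤ) :
    Fl (pE p₁ p₂) (kr G₁' G₂') c =
      (Fl (pE p₁ p₂) (kr G₁ G₂) c).map (Matrix.mulVecLin (kr A B)) := by
  have hA' := (Matrix.isUnit_iff_isUnit_det _).1 hA
  have hB' := (Matrix.isUnit_iff_isUnit_det _).1 hB
  ext x
  have hx : ∀ x : I × J → ℂ, x = vc (Matrix.of fun i j => x (i, j)) := fun x => by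
    ext ⟨i, j⟩
    rfl
  constructor
  · intro h
    rw [hx x] at h
    set ψ : Matrix I J ℂ := Matrix.of fun i j => x (i, j) with hψ
    rw [mem_Fl_hom' h1' h2'] at h
    refine ⟨vc (A⁻¹ * ψ * B), ?_, ?_⟩
    · rw [SetLike.mem_coe, mem_Fl_hom' h1 h2]
      intro a v hv
      have h5 : B *ᵥ v ∈ Fl p₂ G₂' a := by
        rw [h4]
        exact ⟨v, hv, rfl⟩
      have h6 := h a _ h5
      rw [h3] at h6
      obtain ⟨u, hu, hu'⟩ := h6
      have h7 : (A⁻¹ * ψ * B) *ᵥ v = u := by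
        rw [← Matrix.mulVec_mulVec, ← Matrix.mulVec_mulVec, ← hu', Matrix.mulVecLin_apply,
          Matrix.mulVec_mulVec, Matrix.nonsing_inv_mul _ hA', Matrix.one_mulVec]
      rw [h7]
      exact hu
    · rw [Matrix.mulVecLin_apply, kr_mulVec, ← Matrix.mul_assoc, ← Matrix.mul_assoc,
        Matrix.mul_nonsing_inv _ hA', Matrix.one_mul, Matrix.mul_assoc,
        Matrix.mul_nonsing_inv _ hB', Matrix.mul_one, ← hx]
  · rintro ⟨y, hy, rfl⟩
    rw [hx y] at hy ⊢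
    set φ : Matrix I J ℂ := Matrix.of fun i j => y (i, j) with hφ
    rw [SetLike.mem_coe, mem_Fl_hom' h1 h2] at hy
    rw [Matrix.mulVecLin_apply, kr_mulVec, mem_Fl_hom' h1' h2']
    intro a v hv
    rw [h4] at hv
    obtain ⟨u, hu, rfl⟩ := hv
    have h5 : (A * φ * B⁻¹) *ᵥ (B *ᵥ u) = A *ᵥ (φ *ᵥ u) := by
      rw [Matrix.mulVec_mulVec, Matrix.mul_assoc, Matrix.nonsing_inv_mul _ hB', Matrix.mul_one,
        Matrix.mulVec_mulVec]
    rw [Matrix.mulVecLin_apply, h5, h3]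
    exact ⟨_, hy a u hu, rfl⟩

end MW38
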