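import Pool.Agent.LibMW38.Blk
import Pool.Agent.LibMW38.Kr

/-! Transformation of the extension class. -/

open Matrix Complex

namespace MW38

open SP38 US38

variable {ι : Type} [Fintype ι] [DecidableEq ι] {wt p : ι → ℤ}

/-- multiplication with a matrix which respects the filtration -/
theorem trf_mul_C {α : Type} [Fintype α] [DecidableEq α] {q : α → ℤ} {G C : Matrix α α ℂ}
    (hG : IsUnit G) (hC : IsUnit C) (h : ∀ i j, q i < q j → C i j = 0) (a : ℤ) :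
    Fl q (G * C) a = Fl q G a := by
  apply Fl_eq_of_le (hG.mul hC) hG
  intro v hv
  rw [mem_Fl_iff_exists] at hv ⊢
  obtain ⟨c, hc, rfl⟩ := hv
  refine ⟨C *ᵥ c, fun i hi => ?_, by rw [Matrix.mulVec_mulVec]⟩
  rw [Matrix.mulVec, dotProduct]
  apply Finset.sum_eq_zero
  intro j _
  by_cases hj : q j < a
  · rw [hc j hj, mul_zero]
  · rw [h i j (by omega), zero_mul]

theorem trf_exists_C {Φ₁ Φ₂ : Matrix ι ι ℂ} (hu1 : IsUnit Φ₁) (ht1 : Tri wt Φ₁)
    (hu2 : IsUnit Φ₂) (ht2 : Tri wt Φ₂) {γ : Matrix ι ι ℂ} (hu : IsUnit γ) (ht : Tri wt γ)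
    (hF : ∀ a, Fl p Φ₂ a = (Fl p Φ₁ a).map (Matrix.mulVecLin γ)) :
    ∃ C : Matrix ι ι ℂ, IsUnit C ∧ Tri wt C ∧ γ * Φ₁ = Φ₂ * C ∧
      ∀ i j, p i < p j → C i j = 0 := by
  obtain ⟨C, hC, h1, h2⟩ := exists_C (p := p) (G := γ * Φ₁) (G' := Φ₂) (hu.mul hu1) hu2
    (fun a => by rw [Fl_mul, hF])
  refine ⟨C, hC, ?_, h1, h2⟩
  have h3 : C = Φ₂⁻¹ * (γ * Φ₁) := by
    rw [h1, ← Matrix.mul_assoc, Matrix.nonsing_inv_mul _ ((Matrix.isUnit_iff_isUnit_det _).1 hu2),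
      Matrix.one_mul]
  rw [h3]
  exact (ht2.inv hu2).mul (ht.mul ht1)

theorem Fl_blk_map {Φ₁ Φ₂ : Matrix ι ι ℂ} (hu1 : IsUnit Φ₁) (ht1 : Tri wt Φ₁) (hu2 : IsUnit Φ₂)
    (ht2 : Tri wt Φ₂) {γ : Matrix ι ι ℂ} (hu : IsUnit γ) (ht : Tri wt γ)
    (hF : ∀ a, Fl p Φ₂ a = (Fl p Φ₁ a).map (Matrix.mulVecLin γ)) (k a : ℤ) :
    Fl (fun i : {i // wt i = k} => p i) (blk wt k k Φ₂) a =
      (Fl (fun i : {i // wt i = k} => p i) (blk wt k k Φ₁) a).map
        (Matrix.mulVecLin (blk wt k k γ)) := by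
  obtain ⟨C, hC, htC, h1, h2⟩ := trf_exists_C hu1 ht1 hu2 ht2 hu ht hF
  rw [← Fl_mul, ← blk_mul_diag ht ht1, h1, blk_mul_diag ht2 htC]
  exact (trf_mul_C (ht2.isUnit_blk hu2 k) (htC.isUnit_blk hC k) (fun i j hij => h2 i j hij) a).symm

theorem trf_psi_mul {Φ : Matrix ι ι ℂ} (hu : IsUnit Φ) (ht : Tri wt Φ) (g : Matrix ι ι ℝ)
    (k l : ℤ) : psi wt k l g Φ * blk wt l l Φ = blk wt k l (cm g * Φ) := by
  rw [psi, Matrix.mul_assoc, Matrix.nonsing_inv_mul _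
    ((Matrix.isUnit_iff_isUnit_det _).1 (ht.isUnit_blk hu l)), Matrix.mul_one]

theorem trf_blk_uni {g : Matrix ι ι ℝ} (hg : Uni wt g) (k : ℤ) : blk wt k k (cm g) = 1 := by
  rw [cm_blk, hg.blk_self]
  ext i j
  by_cases hij : i = j
  · subst hij
    simp [cm]
  · simp [cm, hij]

theorem trf_blk_one {R : Type*} [CommRing R] (k : ℤ) : blk wt k k (1 : Matrix ι ι R) = 1 := by
  ext i j
  by_cases hij : i = j
  · subst hij
    simp [blk]
  · have h1 : (i : ι) ≠ j := fun h => hij (Subtype.ext h)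
    simp [blk, hij, h1]

theorem transfer {Φ₁ Φ₂ : Matrix ι ι ℂ} (hu1 : IsUnit Φ₁) (ht1 : Tri wt Φ₁) (hu2 : IsUnit Φ₂)
    (ht2 : Tri wt Φ₂) {γ : Matrix ι ι ℂ} (hu : IsUnit γ) (ht : Tri wt γ)
    (hF : ∀ a, Fl p Φ₂ a = (Fl p Φ₁ a).map (Matrix.mulVecLin γ))
    {g : Matrix ι ι ℝ} (hg : Uni wt g) {k l : ℤ} (hkl : k < l)
    (hc : ∀ m, k < m → m < l → ColF wt p k m (cm g * Φ₂) Φ₂)
    (hγ : ∀ m, k ≤ m → m < l → blk wt k m (cm g * γ) = blk wt k k γ * blk wt k m (cm g)) :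
    vc (psi wt k l g Φ₂ - (blk wt k k γ * psi wt k l g Φ₁ +
        (blk wt k l (cm g * γ) - blk wt k k γ * blk wt k l (cm g))) * (blk wt l l γ)⁻¹) ∈
      Fl (pE (fun i : {i // wt i = k} => p i) (fun i : {i // wt i = l} => p i))
        (kr (blk wt k k Φ₂) (blk wt l l Φ₂)) 0 := by
  obtain ⟨C, hC, htC, h1, h2⟩ := trf_exists_C hu1 ht1 hu2 ht2 hu ht hF
  have hgt : Tri wt (cm g) := hg.tri.cm
  have hγl : IsUnit (blk wt l l γ) := ht.isUnit_blk hu l
  have hdet : IsUnit (blk wt l l γ).det := (Matrix.isUnit_iff_isUnit_det _).1 hγl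
  have hIcc : Finset.Icc k l = insert l (Finset.Ico k l) := by
    ext m
    simp only [Finset.mem_Icc, Finset.mem_insert, Finset.mem_Ico]
    omega
  have hnot : l ∉ Finset.Ico k l := by simp
  -- the block of `g γ Φ₁`
  have e1 : blk wt k l (cm g * γ * Φ₁) = blk wt k k γ * blk wt k l (cm g * Φ₁) +
      (blk wt k l (cm g * γ) - blk wt k k γ * blk wt k l (cm g)) * blk wt l l Φ₁ := by
    rw [blk_mul_tri (hgt.mul ht) ht1, blk_mul_tri hgt ht1, hIcc, Finset.sum_insert hnot,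
      Finset.sum_insert hnot, Matrix.mul_add, Matrix.mul_sum, Matrix.sub_mul]
    have h3 : ∑ m ∈ Finset.Ico k l, blk wt k m (cm g * γ) * blk wt m l Φ₁ =
        ∑ m ∈ Finset.Ico k l, blk wt k k γ * (blk wt k m (cm g) * blk wt m l Φ₁) := by
      apply Finset.sum_congr rfl
      intro m hm
      rw [Finset.mem_Ico] at hm
      rw [hγ m hm.1 hm.2, Matrix.mul_assoc]
    rw [h3, Matrix.mul_assoc]
    abel
  have e2 : blk wt k l (cm g * γ * Φ₁) = blk wt k l (cm g * Φ₂) * blk wt l l C +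
      ∑ m ∈ Finset.Ico k l, blk wt k m (cm g * Φ₂) * blk wt m l C := by
    rw [Matrix.mul_assoc, h1, ← Matrix.mul_assoc, blk_mul_tri (hgt.mul ht2) htC, hIcc,
      Finset.sum_insert hnot]
  set X := psi wt k l g Φ₂ - (blk wt k k γ * psi wt k l g Φ₁ +
        (blk wt k l (cm g * γ) - blk wt k k γ * blk wt k l (cm g))) * (blk wt l l γ)⁻¹ with hX
  have e3 : X * blk wt l l γ * blk wt l l Φ₁ =
      -∑ m ∈ Finset.Ico k l, blk wt k m (cm g * Φ₂) * blk wt m l C := by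
    have h3 : X * blk wt l l γ = psi wt k l g Φ₂ * blk wt l l γ -
        (blk wt k k γ * psi wt k l g Φ₁ +
        (blk wt k l (cm g * γ) - blk wt k k γ * blk wt k l (cm g))) := by
      rw [hX, Matrix.sub_mul, Matrix.mul_assoc _ _ (blk wt l l γ),
        Matrix.nonsing_inv_mul _ hdet, Matrix.mul_one]
    have h4 : blk wt l l γ * blk wt l l Φ₁ = blk wt l l Φ₂ * blk wt l l C := by
      rw [← blk_mul_diag ht ht1, h1, blk_mul_diag ht2 htC]
    rw [h3, Matrix.sub_mul, Matrix.mul_assoc, h4, ← Matrix.mul_assoc, trf_psi_mul hu2 ht2,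
      Matrix.add_mul, Matrix.mul_assoc (blk wt k k γ), trf_psi_mul hu1 ht1]
    have h5 : blk wt k k γ * blk wt k l (cm g * Φ₁) +
      (blk wt k l (cm g * γ) - blk wt k k γ * blk wt k l (cm g)) * blk wt l l Φ₁ =
      blk wt k l (cm g * Φ₂) * blk wt l l C +
      ∑ m ∈ Finset.Ico k l, blk wt k m (cm g * Φ₂) * blk wt m l C := by
      rw [← e1, e2]
    rw [h5]
    abel
  rw [mem_Fl_hom' (ht2.isUnit_blk hu2 k) (ht2.isUnit_blk hu2 l)]
  intro a v hv
  rw [Fl_blk_map hu1 ht1 hu2 ht2 hu ht hF] at hv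
  obtain ⟨u, hu', rfl⟩ := hv
  rw [SetLike.mem_coe, mem_Fl_iff_exists] at hu'
  obtain ⟨c, hc0, rfl⟩ := hu'
  rw [Matrix.mulVecLin_apply, Matrix.mulVec_mulVec, Matrix.mulVec_mulVec, e3]
  have hcol : ∀ b : {j // wt j = l}, (fun i => (-∑ m ∈ Finset.Ico k l,
      blk wt k m (cm g * Φ₂) * blk wt m l C) i b) ∈
      Fl (fun i : {i // wt i = k} => p i) (blk wt k k Φ₂) (p b) := by
    intro b
    have h3 : (fun i => (-∑ m ∈ Finset.Ico k l,
        blk wt k m (cm g * Φ₂) * blk wt m l C) i b) =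
        -∑ m ∈ Finset.Ico k l, ∑ b' : {j // wt j = m}, C b' b •
          fun i => blk wt k m (cm g * Φ₂) i b' := by
      funext i
      simp only [Matrix.neg_apply, Pi.neg_apply, Matrix.sum_apply, Finset.sum_apply,
        Pi.smul_apply, smul_eq_mul, Matrix.mul_apply]
      congr 1
      apply Finset.sum_congr rfl
      intro m _
      apply Finset.sum_congr rfl
      intro b' _
      rw [mul_comm]
      rfl
    rw [h3]
    apply Submodule.neg_mem
    apply Submodule.sum_mem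
    intro m hm
    rw [Finset.mem_Ico] at hm
    apply Submodule.sum_mem
    intro b' _
    by_cases hp : p b' < p b
    · rw [h2 b' b hp, zero_smul]
      exact Submodule.zero_mem _
    · apply Submodule.smul_mem
      apply Fl_anti (not_lt.1 hp)
      rcases hm.1.lt_or_eq with hkm | hkm
      · exact hc m hkm hm.2 b'
      · subst hkm
        rw [blk_mul_diag hgt ht2, trf_blk_uni hg, Matrix.one_mul]
        exact col_mem_Fl (p := fun i : {i // wt i = k} => p i) le_rfl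
  have h4 : (-∑ m ∈ Finset.Ico k l, blk wt k m (cm g * Φ₂) * blk wt m l C) *ᵥ c =
      ∑ b, c b • fun i => (-∑ m ∈ Finset.Ico k l,
        blk wt k m (cm g * Φ₂) * blk wt m l C) i b := by
    funext i
    rw [Matrix.mulVec, dotProduct, Finset.sum_apply]
    apply Finset.sum_congr rfl
    intro b _
    rw [Pi.smul_apply, smul_eq_mul, mul_comm]
  rw [h4]
  apply Submodule.sum_mem
  intro b _
  by_cases hb : p b < a
  · rw [hc0 b hb, zero_smul]
    exact Submodule.zero_mem _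
  · apply Submodule.smul_mem
    apply Fl_anti _ (hcol b)
    omega

/-- the class does not depend on the period matrix -/
theorem psi_congr {Φ₁ Φ₂ : Matrix ι ι ℂ} (hu1 : IsUnit Φ₁) (ht1 : Tri wt Φ₁) (hu2 : IsUnit Φ₂)
    (ht2 : Tri wt Φ₂) (hF : ∀ a, Fl p Φ₂ a = Fl p Φ₁ a)
    {g : Matrix ι ι ℝ} (hg : Uni wt g) {k l : ℤ} (hkl : k < l)
    (hc : ∀ m, k < m → m < l → ColF wt p k m (cm g * Φ₂) Φ₂) :
    vc (psi wt k l g Φ₂ - psi wt k l g Φ₁) ∈
      Fl (pE (fun i : {i // wt i = k} => p i) (fun i : {i // wt i = l} => p i))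
        (kr (blk wt k k Φ₂) (blk wt l l Φ₂)) 0 := by
  have h1 := transfer (γ := 1) hu1 ht1 hu2 ht2 isUnit_one Tri.one
    (fun a => by rw [hF a, Matrix.mulVecLin_one, Submodule.map_id]) hg hkl hc
    (fun m _ _ => by rw [trf_blk_one, Matrix.one_mul, Matrix.mul_one])
  rw [trf_blk_one, trf_blk_one, Matrix.one_mul, Matrix.one_mul, Matrix.mul_one, sub_self,
    add_zero, inv_one, Matrix.mul_one] at h1
  exact h1

end MW38
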