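import Pool.Agent.LibMW38.Col
import Pool.Agent.LibMW38.Rig
import Pool.Agent.LibMW38.Trf

/-! The monodromy on the split part is block diagonal. -/

open Matrix Complex

namespace MW38

open SP38 US38

variable {ι : Type} [Fintype ι] [DecidableEq ι] {wt p : ι → ℤ} {Q : Matrix ι ι ℝ}

/-- the block diagonal part -/
def gam_dg {R : Type*} [Zero R] (wt : ι → ℤ) (γ : Matrix ι ι R) : Matrix ι ι R :=
  fun i j => if wt i = wt j then γ i j else 0

omit [Fintype ι] [DecidableEq ι] in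
theorem gam_blk_dg {R : Type*} [Zero R] (γ : Matrix ι ι R) (k : ℤ) :
    blk wt k k (gam_dg wt γ) = blk wt k k γ := by
  ext i j
  show (if wt (i : ι) = wt (j : ι) then γ i j else 0) = γ i j
  rw [if_pos (i.2.trans j.2.symm)]

omit [Fintype ι] [DecidableEq ι] in
theorem gam_blk_ne {R : Type*} [Zero R] (γ : Matrix ι ι R) {k m : ℤ} (h : k ≠ m) :
    blk wt k m (gam_dg wt γ) = 0 := by
  ext i j
  show (if wt (i : ι) = wt (j : ι) then γ i j else 0) = 0
  rw [if_neg]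
  rw [i.2, j.2]
  exact h

theorem gam_mul {R : Type*} [CommRing R] (γ A : Matrix ι ι R) (k m : ℤ) :
    blk wt k m (gam_dg wt γ * A) = blk wt k k γ * blk wt k m A := by
  rw [blk_mul]
  by_cases hk : k ∈ Finset.univ.image wt
  · rw [Finset.sum_eq_single_of_mem k hk]
    · rw [gam_blk_dg]
    · intro b _ hb
      rw [gam_blk_ne _ hb.symm, Matrix.zero_mul]
  · ext i j
    exact absurd (Finset.mem_image.2 ⟨(i : ι), Finset.mem_univ _, i.2⟩) hk

omit [DecidableEq ι] in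
theorem gam_cm_mul (A B : Matrix ι ι ℝ) : cm (A * B) = cm A * cm B :=
  Matrix.map_mul (f := Complex.ofRealHom)

theorem gam_cm_unit {A : Matrix ι ι ℝ} (h : IsUnit A) : IsUnit (cm A) :=
  h.map (Complex.ofRealHom.mapMatrix : Matrix ι ι ℝ →+* Matrix ι ι ℂ)

theorem gam_unit_of_cm {A : Matrix ι ι ℝ} (h : IsUnit (cm A)) : IsUnit A := by
  rw [Matrix.isUnit_iff_isUnit_det, isUnit_iff_ne_zero] at h ⊢
  intro h1
  apply h
  have h2 := (Complex.ofRealHom).map_det A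
  rw [h1, map_zero] at h2
  exact h2.symm

omit [Fintype ι] [DecidableEq ι] in
theorem gam_cm_dg (γ : Matrix ι ι ℝ) : cm (gam_dg wt γ) = gam_dg wt (cm γ) := by
  ext i j
  show ((if wt i = wt j then γ i j else 0 : ℝ) : ℂ) = if wt i = wt j then (γ i j : ℂ) else 0
  split_ifs <;> simp

theorem gam_cm_one {β : Type} [DecidableEq β] : cm (1 : Matrix β β ℝ) = 1 := by
  ext i j
  show (((1 : Matrix β β ℝ) i j : ℝ) : ℂ) = (1 : Matrix β β ℂ) i j
  rw [Matrix.one_apply, Matrix.one_apply]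
  split_ifs <;> simp

theorem gam_col {Φ₁ Φ₂ : Matrix ι ι ℂ} (h1 : MHS wt p Q Φ₁) (h2 : MHS wt p Q Φ₂)
    {γ : Matrix ι ι ℝ} (hu : IsUnit γ) (ht : Tri wt γ)
    (hF : ∀ a, Fl p Φ₂ a = (Fl p Φ₁ a).map (Matrix.mulVecLin (cm γ)))
    {g g₂ : Matrix ι ι ℝ} (hg : Uni wt g) (hD : gam_dg wt γ * g₂ = g * γ) {k m : ℤ}
    (hc2 : ∀ k', k < k' → k' ≤ m → ColF wt p k k' (cm g * Φ₂) Φ₂) :
    ColF wt p k m (cm g₂ * Φ₁) Φ₁ := by
  obtain ⟨C, hC, hCe, hC0⟩ := exists_C (p := p) (G := cm γ * Φ₁) (G' := Φ₂)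
    ((gam_cm_unit hu).mul h1.unit) h2.unit (fun a => by rw [Fl_mul, hF])
  have hCt : Tri wt C := by
    have h3 : C = Φ₂⁻¹ * (cm γ * Φ₁) := by
      rw [hCe, ← mul_assoc, Matrix.nonsing_inv_mul _ ((Matrix.isUnit_iff_isUnit_det _).1 h2.unit),
        one_mul]
    rw [h3]
    exact (Tri.inv h2.tri h2.unit).mul ((Tri.cm ht).mul h1.tri)
  intro b
  have e1 : gam_dg wt (cm γ) * (cm g₂ * Φ₁) = (cm g * Φ₂) * C := by
    rw [← gam_cm_dg, ← mul_assoc, ← gam_cm_mul, hD, gam_cm_mul, mul_assoc, hCe, mul_assoc]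
  have e2 : blk wt k k (cm γ) * blk wt k m (cm g₂ * Φ₁) =
      ∑ k' ∈ Finset.Icc k m, blk wt k k' (cm g * Φ₂) * blk wt k' m C := by
    rw [← gam_mul, e1, blk_mul_tri ((Tri.cm hg.tri).mul h2.tri) hCt]
  have hmem : (fun i => (blk wt k k (cm γ) * blk wt k m (cm g₂ * Φ₁)) i b) ∈
      Fl (fun i : {i // wt i = k} => p i) (blk wt k k Φ₂) (p b) := by
    rw [e2]
    have e3 : (fun i => (∑ k' ∈ Finset.Icc k m, blk wt k k' (cm g * Φ₂) * blk wt k' m C) i b) =
        ∑ k' ∈ Finset.Icc k m, ∑ b' : {j // wt j = k'},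
          C b' b • fun i => blk wt k k' (cm g * Φ₂) i b' := by
      funext i
      rw [Matrix.sum_apply, Finset.sum_apply]
      refine Finset.sum_congr rfl fun k' _ => ?_
      rw [Finset.sum_apply, Matrix.mul_apply]
      refine Finset.sum_congr rfl fun b' _ => ?_
      rw [Pi.smul_apply, smul_eq_mul, mul_comm]
      rfl
    rw [e3]
    refine Submodule.sum_mem _ fun k' hk' => Submodule.sum_mem _ fun b' _ => ?_
    rcases lt_or_ge (p b') (p b) with hlt | hge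
    · rw [hC0 _ _ hlt, zero_smul]
      exact Submodule.zero_mem _
    · refine Submodule.smul_mem _ _ (Fl_anti hge ?_)
      rw [Finset.mem_Icc] at hk'
      rcases eq_or_lt_of_le hk'.1 with hkk | hkk
      · subst hkk
        have e4 : blk wt k k (cm g * Φ₂) = blk wt k k Φ₂ := by
          rw [blk_mul_diag (Tri.cm hg.tri) h2.tri, cm_blk, hg.blk_self, gam_cm_one, one_mul]
        rw [e4]
        exact col_mem_Fl le_rfl
      · exact hc2 k' hkk hk'.2 b'
  have hmap := Fl_blk_map h1.unit h1.tri h2.unit h2.tri (gam_cm_unit hu) (Tri.cm ht) hF k (p b)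
  rw [hmap, Submodule.mem_map] at hmem
  obtain ⟨w, hw, hwe⟩ := hmem
  have hinj : Function.Injective (blk wt k k (cm γ)).mulVec :=
    Matrix.mulVec_injective_iff_isUnit.2 ((Tri.cm ht).isUnit_blk (gam_cm_unit hu) k)
  have hwx : w = fun i => blk wt k m (cm g₂ * Φ₁) i b := by
    apply hinj
    rw [Matrix.mulVecLin_apply] at hwe
    rw [hwe]
    rfl
  rw [← hwx]
  exact hw

theorem gam_low {Φ₁ Φ₂ : Matrix ι ι ℂ} (h1 : MHS wt p Q Φ₁) (h2 : MHS wt p Q Φ₂)
    (hs : ∃ s : Equiv.Perm ι, ∀ j, wt (s j) = wt j ∧ p (s j) = wt j - p j)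
    {γ : Matrix ι ι ℝ} (hu : IsUnit γ) (ht : Tri wt γ)
    (hF : ∀ a, Fl p Φ₂ a = (Fl p Φ₁ a).map (Matrix.mulVecLin (cm γ)))
    {g : Matrix ι ι ℝ} (hg : Uni wt g) {l : ℤ}
    (hc1 : ∀ k m, k < m → m < l → ColF wt p k m (cm g * Φ₁) Φ₁)
    (hc2 : ∀ k m, k < m → m < l → ColF wt p k m (cm g * Φ₂) Φ₂) {k m : ℤ} (hkm : k ≤ m)
    (hm : m < l) : blk wt k m (g * γ) = blk wt k k γ * blk wt k m g := by
  have hDu : IsUnit (gam_dg wt γ) := by
    apply gam_unit_of_cm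
    rw [gam_cm_dg]
    exact dg_isUnit (gam_cm_unit hu) (Tri.cm ht)
  have hDt : Tri wt (gam_dg wt γ) := by
    intro i j hij
    show (if wt i = wt j then γ i j else 0) = 0
    rw [if_neg (by omega)]
  set g₂ : Matrix ι ι ℝ := (gam_dg wt γ)⁻¹ * (g * γ) with hg₂
  have hD : gam_dg wt γ * g₂ = g * γ := by
    rw [hg₂, ← mul_assoc, Matrix.mul_nonsing_inv _ ((Matrix.isUnit_iff_isUnit_det _).1 hDu),
      one_mul]
  have hblk : ∀ k m, blk wt k k γ * blk wt k m g₂ = blk wt k m (g * γ) := by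
    intro k m
    rw [← gam_mul, hD]
  have hg₂t : Tri wt g₂ := (hDt.inv hDu).mul (hg.tri.mul ht)
  have hg₂u : Uni wt g₂ := by
    intro i j hij
    rcases eq_or_lt_of_le hij with he | hlt
    · have h3 : blk wt (wt i) (wt i) g₂ = 1 := by
        have h4 := hblk (wt i) (wt i)
        rw [blk_mul_diag hg.tri ht, hg.blk_self, one_mul] at h4
        have h5 := ht.isUnit_blk hu (wt i)
        exact h5.mul_left_cancel (by rw [h4, mul_one])
      have h4 := congrFun (congrFun h3 ⟨i, rfl⟩) ⟨j, he⟩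
      have h5 : g₂ i j = (1 : Matrix {x // wt x = wt i} {x // wt x = wt i} ℝ) ⟨i, rfl⟩ ⟨j, he⟩ := h4
      rw [h5, Matrix.one_apply]
      simp only [Subtype.mk.injEq]
    · rw [hg₂t i j hlt, if_neg]
      rintro rfl
      exact lt_irrefl _ hlt
  have hc3 : ∀ k m, k < m → m < l → ColF wt p k m (cm g₂ * Φ₁) Φ₁ := by
    intro k m _ hml
    exact gam_col h1 h2 hu ht hF hg hD fun k' hk' hk'm => hc2 k k' hk' (by omega)
  have huniq : blk wt k m g = blk wt k m g₂ := by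
    ext i j
    exact uniq h1 hs hg hg₂u hc1 hc3 (by rw [j.2]; exact hm)
  rw [huniq, hblk]

end MW38
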