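import Pool.Agent.LibMW38.Blk
import Pool.Agent.LibSP38.Cus2

/-! The logarithm of the monodromy on the split part. -/

open Matrix Complex

namespace MW38

open SP38 US38

variable {ι : Type} [Fintype ι] [DecidableEq ι] {wt : ι → ℤ} {N g : Matrix ι ι ℝ} {k l : ℤ}

/-! ### auxiliary lemmas -/

section ring
variable {R : Type*} [CommRing R]

omit [Fintype ι] [DecidableEq ι] in
theorem nlow_add (A B : Matrix ι ι R) (k l : ℤ) :
    blk wt k l (A + B) = blk wt k l A + blk wt k l B := rfl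

omit [Fintype ι] [DecidableEq ι] in
theorem nlow_smul (c : R) (A : Matrix ι ι R) (k l : ℤ) :
    blk wt k l (c • A) = c • blk wt k l A := rfl

omit [Fintype ι] [DecidableEq ι] in
theorem nlow_sum {α : Type*} (s : Finset α) (f : α → Matrix ι ι R) (k l : ℤ) :
    blk wt k l (∑ a ∈ s, f a) = ∑ a ∈ s, blk wt k l (f a) := by
  classical
  induction s using Finset.induction_on with
  | empty => simp only [Finset.sum_empty]; rfl
  | insert a s ha ih => rw [Finset.sum_insert ha, Finset.sum_insert ha, nlow_add, ih]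

omit [Fintype ι] in
theorem nlow_one (k : ℤ) : blk wt k k (1 : Matrix ι ι R) = 1 := by
  ext i j
  change (1 : Matrix ι ι R) i j = _
  rw [Matrix.one_apply, Matrix.one_apply]
  simp only [Subtype.coe_inj]

theorem nlow_pow_diag {N : Matrix ι ι R} (ht : Tri wt N) (k : ℤ) (r : ℕ) :
    blk wt k k (N ^ r) = blk wt k k N ^ r := by
  induction r with
  | zero => rw [pow_zero, pow_zero, nlow_one]
  | succ r ih => rw [pow_succ, pow_succ, blk_mul_diag (ht.pow r) ht, ih]

/-- `blk k m (g N^r) = N_k^r g_km` below the weight `l` -/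
theorem nlow_pow {N g : Matrix ι ι R} (ht : Tri wt N) (hg : Tri wt g)
    (h : ∀ m, k ≤ m → m < l → blk wt k m (g * N) = blk wt k k N * blk wt k m g) (r : ℕ) (m : ℤ)
    (hkm : k ≤ m) (hml : m < l) : blk wt k m (g * N ^ r) = blk wt k k N ^ r * blk wt k m g := by
  induction r generalizing m with
  | zero => rw [pow_zero, pow_zero, mul_one, Matrix.one_mul]
  | succ r ih =>
    have h1 : blk wt k m (g * N ^ r * N) = blk wt k k N ^ r * blk wt k m (g * N) := by
      rw [blk_mul_tri (hg.mul (ht.pow r)) ht, blk_mul_tri hg ht, Matrix.mul_sum]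
      refine Finset.sum_congr rfl fun j hj => ?_
      rw [Finset.mem_Icc] at hj
      rw [ih j hj.1 (lt_of_le_of_lt hj.2 hml), Matrix.mul_assoc]
    rw [pow_succ, ← mul_assoc, h1, h m hkm hml, ← Matrix.mul_assoc, pow_succ]

theorem nlow_fromBlocks {I J : Type*} [Fintype I] [DecidableEq I] [Fintype J] [DecidableEq J]
    (A : Matrix I I R) (B : Matrix I J R) (D : Matrix J J R) (r : ℕ) :
    ∃ X : Matrix I J R, Matrix.fromBlocks A B 0 D ^ r = Matrix.fromBlocks (A ^ r) X 0 (D ^ r) := by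
  induction r with
  | zero => exact ⟨0, by rw [pow_zero, pow_zero, pow_zero, Matrix.fromBlocks_one]⟩
  | succ r ih =>
    obtain ⟨X, hX⟩ := ih
    refine ⟨A ^ r * B + X * D, ?_⟩
    rw [pow_succ, hX, Matrix.fromBlocks_multiply, pow_succ, pow_succ]
    simp

theorem nlow_fromBlocks_nil {I J : Type*} [Fintype I] [DecidableEq I] [Fintype J] [DecidableEq J]
    (A : Matrix I I R) (B : Matrix I J R) (D : Matrix J J R) {K : ℕ} (hA : A ^ K = 0)
    (hD : D ^ K = 0) : Matrix.fromBlocks A B 0 D ^ (K + K) = 0 := by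
  obtain ⟨X, hX⟩ := nlow_fromBlocks A B D K
  rw [pow_add, hX, hA, hD, Matrix.fromBlocks_multiply]
  simp

/-- the block of weight `l` -/
theorem nlow_pow_top {N g : Matrix ι ι R} (ht : Tri wt N) (hg : Tri wt g) (hkl : k < l)
    (h : ∀ m, k ≤ m → m < l → blk wt k m (g * N) = blk wt k k N * blk wt k m g) (r : ℕ) :
    blk wt k l (g * N ^ r) = blk wt k k N ^ r * blk wt k l g +
      ((Matrix.fromBlocks (blk wt k k N) (blk wt k l (g * N) - blk wt k k N * blk wt k l g) 0
        (blk wt l l N)) ^ r).toBlocks₁₂ := by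
  set M := Matrix.fromBlocks (blk wt k k N) (blk wt k l (g * N) - blk wt k k N * blk wt k l g) 0
    (blk wt l l N) with hM
  have hM11 : ∀ r : ℕ, (M ^ r).toBlocks₁₁ = blk wt k k N ^ r ∧ (M ^ r).toBlocks₂₁ = 0 := by
    intro r
    induction r with
    | zero =>
      constructor
      · ext i j
        simp [Matrix.toBlocks₁₁, Matrix.one_apply]
      · ext i j
        simp [Matrix.toBlocks₂₁]
    | succ r ih =>
      obtain ⟨ih1, ih2⟩ := ih
      have h2 : M ^ (r + 1) = Matrix.fromBlocks ((M ^ r).toBlocks₁₁) ((M ^ r).toBlocks₁₂)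
          ((M ^ r).toBlocks₂₁) ((M ^ r).toBlocks₂₂) * M := by
        rw [Matrix.fromBlocks_toBlocks, pow_succ]
      rw [h2, hM, Matrix.fromBlocks_multiply, Matrix.toBlocks_fromBlocks₁₁,
        Matrix.toBlocks_fromBlocks₂₁, ← hM, ih1, ih2]
      simp [pow_succ]
  induction r with
  | zero =>
    rw [pow_zero, pow_zero, mul_one, Matrix.one_mul, pow_zero]
    have : ((1 : Matrix ({i // wt i = k} ⊕ {i // wt i = l}) ({i // wt i = k} ⊕ {i // wt i = l}) R)).toBlocks₁₂ = 0 := by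
      ext i j
      simp [Matrix.toBlocks₁₂]
    rw [this, add_zero]
  | succ r ih =>
    have hmem : l ∈ Finset.Icc k l := Finset.mem_Icc.2 ⟨hkl.le, le_rfl⟩
    have h1 : blk wt k l (g * N ^ r * N) = blk wt k k N ^ r * blk wt k l (g * N) +
        (M ^ r).toBlocks₁₂ * blk wt l l N := by
      rw [blk_mul_tri (hg.mul (ht.pow r)) ht, blk_mul_tri hg ht, Matrix.mul_sum,
        ← Finset.add_sum_erase _ _ hmem, ← Finset.add_sum_erase _ _ hmem, ih, Matrix.add_mul,
        Matrix.mul_assoc, add_assoc, add_assoc]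
      congr 1
      rw [add_comm]
      congr 1
      refine Finset.sum_congr rfl fun j hj => ?_
      rw [Finset.mem_erase, Finset.mem_Icc] at hj
      rw [nlow_pow ht hg h r j hj.2.1 (lt_of_le_of_ne hj.2.2 hj.1), Matrix.mul_assoc]
    have h2 : M ^ (r + 1) = Matrix.fromBlocks ((M ^ r).toBlocks₁₁) ((M ^ r).toBlocks₁₂)
        ((M ^ r).toBlocks₂₁) ((M ^ r).toBlocks₂₂) * M := by
      rw [Matrix.fromBlocks_toBlocks, pow_succ]
    have h3 : (M ^ (r + 1)).toBlocks₁₂ = blk wt k k N ^ r *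
        (blk wt k l (g * N) - blk wt k k N * blk wt k l g) + (M ^ r).toBlocks₁₂ * blk wt l l N := by
      rw [h2]
      nth_rewrite 5 [hM]
      rw [Matrix.fromBlocks_multiply, Matrix.toBlocks_fromBlocks₁₂, (hM11 r).1]
    rw [pow_succ, ← mul_assoc, h1, h3, Matrix.mul_sub, pow_succ, Matrix.mul_assoc]
    abel

end ring

/-- from the powers of `exp N` to `N` -/
theorem N_low (hN : IsNilpotent N) (ht : Tri wt N) {m : ℤ}
    (h : ∀ a : ℕ, blk wt k m (g * IsNilpotent.exp ((a : ℝ) • N)) =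
      blk wt k k (IsNilpotent.exp ((a : ℝ) • N)) * blk wt k m g) :
    blk wt k m (g * N) = blk wt k k N * blk wt k m g := by
  obtain ⟨K, hK⟩ := hN
  obtain ⟨c, hc⟩ := cus2_lagrange (K + 2)
  have hK2 : N ^ (K + 2) = 0 := by rw [pow_add, hK, zero_mul]
  have hexp : ∀ a : ℕ, IsNilpotent.exp ((a : ℝ) • N) =
      ∑ i ∈ Finset.range (K + 2), ((a : ℝ) ^ i / (i.factorial : ℝ)) • N ^ i := by
    intro a
    have h1 : ((a : ℝ) • N) ^ (K + 2) = 0 := by rw [smul_pow, hK2, smul_zero]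
    rw [IsNilpotent.exp_eq_sum h1]
    refine Finset.sum_congr rfl fun i _ => ?_
    rw [smul_pow, div_eq_inv_mul, mul_smul, ← Rat.cast_smul_eq_qsmul ℝ]
    push_cast
    rfl
  have hS : ∑ a ∈ Finset.Icc 1 (K + 2), c a • IsNilpotent.exp ((a : ℝ) • N) =
      (∑ a ∈ Finset.Icc 1 (K + 2), c a) • (1 : Matrix ι ι ℝ) + N := by
    have h1 : ∀ a ∈ Finset.Icc 1 (K + 2), c a • IsNilpotent.exp ((a : ℝ) • N) =
        ∑ i ∈ Finset.range (K + 2), (c a * (a : ℝ) ^ i) • ((i.factorial : ℝ)⁻¹ • N ^ i) := by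
      intro a _
      rw [hexp, Finset.smul_sum]
      refine Finset.sum_congr rfl fun i _ => ?_
      rw [smul_smul, smul_smul]
      congr 1
      ring
    rw [Finset.sum_congr rfl h1, Finset.sum_comm]
    have h2 : ∀ i ∈ Finset.range (K + 2), ∑ a ∈ Finset.Icc 1 (K + 2),
        (c a * (a : ℝ) ^ i) • ((i.factorial : ℝ)⁻¹ • N ^ i) =
        (if i = 0 then (∑ a ∈ Finset.Icc 1 (K + 2), c a) • (1 : Matrix ι ι ℝ) else 0) +
          (if i = 1 then N else 0) := by
      intro i hi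
      rw [← Finset.sum_smul]
      rcases Nat.eq_zero_or_pos i with rfl | hi0
      · simp
      · rw [hc i hi0 (Finset.mem_range.1 hi).le]
        by_cases h1 : i = 1
        · subst h1; simp
        · simp [h1, hi0.ne']
    rw [Finset.sum_congr rfl h2, Finset.sum_add_distrib]
    simp
  have hlin : ∀ X : Matrix ι ι ℝ, X = ∑ a ∈ Finset.Icc 1 (K + 2), c a • IsNilpotent.exp ((a : ℝ) • N) →
      blk wt k m (g * X) = blk wt k k X * blk wt k m g := by
    rintro X rfl
    rw [Finset.mul_sum, nlow_sum, nlow_sum, Matrix.sum_mul]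
    refine Finset.sum_congr rfl fun a _ => ?_
    rw [Matrix.mul_smul, nlow_smul, nlow_smul, Matrix.smul_mul, h a]
  have h3 := hlin _ hS.symm
  rw [mul_add, Matrix.mul_smul, mul_one, nlow_add, nlow_add, nlow_smul, nlow_smul, nlow_one,
    Matrix.add_mul, Matrix.smul_mul, Matrix.one_mul] at h3
  exact add_left_cancel h3

/-- the exponential series -/
theorem nlow_exp {N : Matrix ι ι ℝ} (hN : IsNilpotent N) : ∃ K : ℕ, N ^ K = 0 ∧ ∀ ζ : ℂ,
    IsNilpotent.exp (ζ • cm N) = ∑ i ∈ Finset.range K, (ζ ^ i / (i.factorial : ℂ)) • cm N ^ i := by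
  obtain ⟨K, hK⟩ := hN
  refine ⟨K, hK, fun ζ => cus1_exp_eq (cm N) ?_ ζ⟩
  rw [← cus1_cm_pow, hK]
  ext i j
  simp [cm]

theorem nlow_cm (h : ∀ m, k ≤ m → m < l → blk wt k m (g * N) = blk wt k k N * blk wt k m g) :
    ∀ m, k ≤ m → m < l → blk wt k m (cm g * cm N) = blk wt k k (cm N) * blk wt k m (cm g) := by
  intro m h1 h2
  have h3 := congrArg cm (h m h1 h2)
  have h4 : cm (g * N) = cm g * cm N := by
    unfold cm; exact Matrix.map_mul (f := Complex.ofRealHom)
  have h5 : cm (blk wt k k N * blk wt k m g) = cm (blk wt k k N) * cm (blk wt k m g) := by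
    unfold cm; exact Matrix.map_mul (f := Complex.ofRealHom)
  rw [h5, ← cm_blk, ← cm_blk, ← cm_blk, h4] at h3
  exact h3

/-- from `N` to `exp (ζ N)` -/
theorem exp_low (hN : IsNilpotent N) (ht : Tri wt N) (hg : Uni wt g)
    (h : ∀ m, k ≤ m → m < l → blk wt k m (g * N) = blk wt k k N * blk wt k m g) (ζ : ℂ) {m : ℤ}
    (hkm : k ≤ m) (hml : m < l) : blk wt k m (cm g * IsNilpotent.exp (ζ • cm N)) =
      blk wt k k (IsNilpotent.exp (ζ • cm N)) * blk wt k m (cm g) := by
  obtain ⟨K, hK, hexp⟩ := nlow_exp hN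
  rw [hexp, Finset.mul_sum, nlow_sum, nlow_sum, Matrix.sum_mul]
  refine Finset.sum_congr rfl fun r _ => ?_
  rw [Matrix.mul_smul, nlow_smul, nlow_smul, Matrix.smul_mul,
    nlow_pow ht.cm hg.tri.cm (nlow_cm h) r m hkm hml, nlow_pow_diag ht.cm]

theorem exp_top (hN : IsNilpotent N) (ht : Tri wt N) (hg : Uni wt g) (hkl : k < l)
    (h : ∀ m, k ≤ m → m < l → blk wt k m (g * N) = blk wt k k N * blk wt k m g) (ζ : ℂ) :
    blk wt k l (cm g * IsNilpotent.exp (ζ • cm N)) -
      blk wt k k (IsNilpotent.exp (ζ • cm N)) * blk wt k l (cm g) =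
    (IsNilpotent.exp (ζ • cm (Matrix.fromBlocks (blk wt k k N)
      (blk wt k l (g * N) - blk wt k k N * blk wt k l g) 0 (blk wt l l N)))).toBlocks₁₂ := by
  obtain ⟨K, hK, hexp⟩ := nlow_exp hN
  have hM : cm (Matrix.fromBlocks (blk wt k k N)
      (blk wt k l (g * N) - blk wt k k N * blk wt k l g) 0 (blk wt l l N)) =
      Matrix.fromBlocks (blk wt k k (cm N))
      (blk wt k l (cm g * cm N) - blk wt k k (cm N) * blk wt k l (cm g)) 0 (blk wt l l (cm N)) := by
    have h4 : cm (g * N) = cm g * cm N := by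
      unfold cm; exact Matrix.map_mul (f := Complex.ofRealHom)
    have h5 : cm (blk wt k k N * blk wt k l g) = cm (blk wt k k N) * cm (blk wt k l g) := by
      unfold cm; exact Matrix.map_mul (f := Complex.ofRealHom)
    have h6 : cm (blk wt k l (g * N) - blk wt k k N * blk wt k l g) =
        cm (blk wt k l (g * N)) - cm (blk wt k k N * blk wt k l g) := by
      ext i j; simp [cm]
    have h7 : ∀ (A : Matrix {i // wt i = k} {i // wt i = k} ℝ) B
        (D : Matrix {i // wt i = l} {i // wt i = l} ℝ),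
        cm (Matrix.fromBlocks A B 0 D) = Matrix.fromBlocks (cm A) (cm B) 0 (cm D) := by
      intro A B D
      ext (i | i) (j | j) <;> simp [cm]
    rw [h7, h6, h5, ← cm_blk, ← cm_blk, ← cm_blk, ← cm_blk, h4]
  set M := Matrix.fromBlocks (blk wt k k (cm N))
      (blk wt k l (cm g * cm N) - blk wt k k (cm N) * blk wt k l (cm g)) 0 (blk wt l l (cm N))
    with hMdef
  have hcN : cm N ^ K = 0 := by
    rw [← cus1_cm_pow, hK]
    ext i j
    simp [cm]
  have htop := nlow_pow_top (g := cm g) ht.cm hg.tri.cm hkl (nlow_cm h)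
  rw [← hMdef] at htop
  -- `M` is nilpotent
  have hMnil : ∃ K', K ≤ K' ∧ M ^ K' = 0 := by
    refine ⟨K + K, Nat.le_add_left _ _, ?_⟩
    have h1 : blk wt k k (cm N) ^ K = 0 := by rw [← nlow_pow_diag ht.cm, hcN]; rfl
    have h2 : blk wt l l (cm N) ^ K = 0 := by rw [← nlow_pow_diag ht.cm, hcN]; rfl
    exact nlow_fromBlocks_nil _ _ _ h1 h2
  obtain ⟨K', hKK', hMK'⟩ := hMnil
  have hexp' : IsNilpotent.exp (ζ • cm N) =
      ∑ i ∈ Finset.range K', (ζ ^ i / (i.factorial : ℂ)) • cm N ^ i :=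
    cus1_exp_eq (cm N) (by rw [← Nat.add_sub_cancel' hKK', pow_add, hcN, zero_mul]) ζ
  rw [hM, cus1_exp_eq M hMK' ζ, hexp', Finset.mul_sum, nlow_sum, nlow_sum, Matrix.sum_mul,
    ← Finset.sum_sub_distrib]
  have h8 : ∀ (s : Finset ℕ) (f : ℕ → Matrix ({i // wt i = k} ⊕ {i // wt i = l})
      ({i // wt i = k} ⊕ {i // wt i = l}) ℂ), (∑ r ∈ s, f r).toBlocks₁₂ = ∑ r ∈ s, (f r).toBlocks₁₂ := by
    intro s f
    ext i j
    simp [Matrix.toBlocks₁₂, Matrix.sum_apply]
  rw [h8]
  refine Finset.sum_congr rfl fun r _ => ?_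
  rw [Matrix.mul_smul, nlow_smul, nlow_smul, Matrix.smul_mul, htop r, nlow_pow_diag ht.cm,
    smul_add, add_sub_cancel_left]
  rfl

end MW38
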