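import Pool.Agent.LibMW38.BlkE
import Pool.Agent.LibMW38.Gam
import Pool.Agent.LibMW38.NLow
import Pool.Agent.LibSP38.Glo2

/-! The monodromy logarithm at a cusp. -/

open Matrix Complex
open UpperHalfPlane hiding I

namespace MW38

open SP38 US38

variable {ι : Type} [Fintype ι] [DecidableEq ι] {wt p : ι → ℤ} {Q : Matrix ι ι ℝ}
  {Φ : ℂ → Matrix ι ι ℂ} {g : Matrix ι ι ℝ} {k l : ℤ}
  {Δ : Subgroup (Matrix.SpecialLinearGroup (Fin 2) ℝ)}
  {σ : Matrix.SpecialLinearGroup (Fin 2) ℝ}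

theorem adml_cm_exp {α : Type} [Fintype α] [DecidableEq α] {X : Matrix α α ℝ}
    (hX : IsNilpotent X) : cm (IsNilpotent.exp X) = IsNilpotent.exp (cm X) :=
  IsNilpotent.map_exp hX (Complex.ofRealHom.mapMatrix : Matrix α α ℝ →+* Matrix α α ℂ)

theorem adml_cm_nil {α : Type} [Fintype α] [DecidableEq α] {X : Matrix α α ℝ}
    (hX : IsNilpotent X) : IsNilpotent (cm X) :=
  hX.map (Complex.ofRealHom.mapMatrix : Matrix α α ℝ →+* Matrix α α ℂ)

theorem adml_smul_nil {α : Type} [Fintype α] [DecidableEq α] {X : Matrix α α ℝ}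
    (hX : IsNilpotent X) (a : ℝ) : IsNilpotent (a • X) := by
  obtain ⟨k, hk⟩ := hX
  exact ⟨k, by rw [smul_pow, hk, smul_zero]⟩

theorem adml_csmul_nil {α : Type} [Fintype α] [DecidableEq α] {X : Matrix α α ℂ}
    (hX : IsNilpotent X) (a : ℂ) : IsNilpotent (a • X) := by
  obtain ⟨k, hk⟩ := hX
  exact ⟨k, by rw [smul_pow, hk, smul_zero]⟩

theorem adml_height {r ε : ℝ} (hr : 0 < r) (hε : 0 < ε) :
    ∃ τ : ℍ, ‖Complex.exp (2 * Real.pi * I * ((τ : ℂ) / r))‖ < ε := by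
  have h1 : Filter.Tendsto (fun y : ℝ => Real.exp (-(2 * Real.pi / r * y))) Filter.atTop
      (nhds 0) := by
    apply Real.tendsto_exp_neg_atTop_nhds_zero.comp
    exact Filter.Tendsto.const_mul_atTop (by positivity) Filter.tendsto_id
  obtain ⟨y, hy1, hy2⟩ := ((h1.eventually (gt_mem_nhds hε)).and
    (Filter.eventually_gt_atTop 0)).exists
  refine ⟨⟨y * I, by simpa using hy2⟩, ?_⟩
  rw [Complex.norm_exp]
  have h3 : (2 * Real.pi * I * (((⟨y * I, by simpa using hy2⟩ : ℍ) : ℂ) / r)).re =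
      -(2 * Real.pi / r * y) := by
    have h4 : (2 * Real.pi * I * ((y * I : ℂ) / r)) = ((-(2 * Real.pi / r * y) : ℝ) : ℂ) := by
      push_cast
      field_simp
      rw [Complex.I_sq]
      ring
    change (2 * Real.pi * I * ((y * I : ℂ) / r)).re = _
    rw [h4, Complex.ofReal_re]
  rw [h3]
  exact hy1

/-- the logarithm `N` of the monodromy of a cusp is block diagonal on the split part -/
theorem adm_low (h : VMHS wt p Q Φ)
    (hs : ∃ s : Equiv.Perm ι, ∀ j, wt (s j) = wt j ∧ p (s j) = wt j - p j)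
    (hg : Uni wt g)
    (hc : ∀ z : ℂ, 0 < z.im → ∀ k m, k < m → m < l → ColF wt p k m (cm g * Φ z) (Φ z))
    {r : ℝ} {N : Matrix ι ι ℝ} {Ψ : ℂ → Matrix ι ι ℂ} {ε : ℝ} (hr : 0 < r) (hε : 0 < ε)
    (hN : IsNilpotent N) (ht : Tri wt N)
    (hF : ∀ τ : ℍ, ‖Complex.exp (2 * Real.pi * I * ((τ : ℂ) / r))‖ < ε → ∀ a,
      Fl p (Φ ((σ • τ : ℍ) : ℂ)) a = Fl p (IsNilpotent.exp (((τ : ℂ) / r) • cm N) *
        Ψ (Complex.exp (2 * Real.pi * I * ((τ : ℂ) / r)))) a) {k m : ℤ} (hkm : k ≤ m)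
    (hm : m < l) : blk wt k m (g * N) = blk wt k k N * blk wt k m g := by
  apply N_low hN ht
  intro a
  obtain ⟨τ₀, hq⟩ := adml_height hr hε
  set τ₁ : ℍ := trans (a * r) • τ₀ with hτ₁
  have hcoe : (τ₁ : ℂ) / r = a + (τ₀ : ℂ) / r := by
    have h1 : (τ₁ : ℂ) = (τ₀ : ℂ) + ((a * r : ℝ) : ℂ) := by
      rw [hτ₁]
      exact glo2_coe_trans _ _
    have hr' : (r : ℂ) ≠ 0 := by exact_mod_cast hr.ne'
    rw [h1]
    push_cast
    field_simp
    ring
  have hqq : Complex.exp (2 * Real.pi * I * ((τ₁ : ℂ) / r)) =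
      Complex.exp (2 * Real.pi * I * ((τ₀ : ℂ) / r)) := by
    rw [hcoe]
    have h1 : 2 * (Real.pi : ℂ) * I * ((a : ℂ) + (τ₀ : ℂ) / r) =
        (a : ℂ) * (2 * Real.pi * I) + 2 * Real.pi * I * ((τ₀ : ℂ) / r) := by ring
    rw [h1, Complex.exp_add, Complex.exp_nat_mul_two_pi_mul_I, one_mul]
  have haN : IsNilpotent ((a : ℝ) • N) := adml_smul_nil hN a
  have haT : Tri wt ((a : ℝ) • N) := by
    intro i j hij
    rw [Matrix.smul_apply, ht i j hij, smul_zero]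
  have hcmN := adml_cm_nil hN
  have hexp : IsNilpotent.exp (((τ₁ : ℂ) / r) • cm N) =
      cm (IsNilpotent.exp ((a : ℝ) • N)) * IsNilpotent.exp (((τ₀ : ℂ) / r) • cm N) := by
    have h1 : cm ((a : ℝ) • N) = (a : ℂ) • cm N := by
      ext i j
      simp [cm]
    rw [adml_cm_exp haN, h1, hcoe, add_smul]
    exact IsNilpotent.exp_add_of_commute
      (((Commute.refl (cm N)).smul_left _).smul_right _)
      (adml_csmul_nil hcmN _) (adml_csmul_nil hcmN _)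
  have hmap : ∀ b, Fl p (Φ ((σ • τ₁ : ℍ) : ℂ)) b =
      (Fl p (Φ ((σ • τ₀ : ℍ) : ℂ)) b).map
        (Matrix.mulVecLin (cm (IsNilpotent.exp ((a : ℝ) • N)))) := by
    intro b
    rw [hF τ₁ (by rw [hqq]; exact hq) b, hF τ₀ hq b, ← Fl_mul, hqq, hexp, Matrix.mul_assoc]
  exact gam_low (h.mhs _ (σ • τ₀).im_pos) (h.mhs _ (σ • τ₁).im_pos) hs
    (IsNilpotent.isUnit_exp haN) (Tri.exp_real haN haT) hmap hg
    (fun k m h1 h2 => hc _ (σ • τ₀).im_pos k m h1 h2)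
    (fun k m h1 h2 => hc _ (σ • τ₁).im_pos k m h1 h2) hkm hm

end MW38
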