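import Pool.Agent.LibMW38.Blk

/-! Block matrices: exponentials. -/

open Matrix Complex

namespace MW38

open SP38 US38

variable {ι : Type} [Fintype ι] [DecidableEq ι] {wt : ι → ℤ} {k l m : ℤ}

theorem blkE_pow {R : Type*} [CommRing R] {N : Matrix ι ι R} (ht : Tri wt N) (k : ℤ) (n : ℕ) :
    (blk wt k k N) ^ n = blk wt k k (N ^ n) := by
  induction n with
  | zero => rw [pow_zero, pow_zero, blk_one']
  | succ n ih => rw [pow_succ, pow_succ, ih, blk_mul_diag (ht.pow n) ht]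

/-- nilpotent matrices -/
theorem blk_nil {R : Type*} [CommRing R] {N : Matrix ι ι R} (hN : IsNilpotent N)
    (ht : Tri wt N) (k : ℤ) : IsNilpotent (blk wt k k N) := by
  obtain ⟨n, hn⟩ := hN
  refine ⟨n, ?_⟩
  rw [blkE_pow ht, hn]
  rfl

theorem blkE_tri {R : Type*} [CommRing R] [Module ℚ R] {N : Matrix ι ι R} (hN : IsNilpotent N)
    (ht : Tri wt N) : Tri wt (IsNilpotent.exp N) := by
  obtain ⟨n, hn⟩ := hN
  rw [IsNilpotent.exp_eq_sum hn]
  intro i j hij
  rw [Matrix.sum_apply]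
  refine Finset.sum_eq_zero fun r _ => ?_
  rw [Matrix.smul_apply, ht.pow r i j hij, smul_zero]

theorem blkE_exp {R : Type*} [CommRing R] [Module ℚ R] {N : Matrix ι ι R} (hN : IsNilpotent N)
    (ht : Tri wt N) (k : ℤ) :
    blk wt k k (IsNilpotent.exp N) = IsNilpotent.exp (blk wt k k N) := by
  obtain ⟨n, hn⟩ := hN
  have h1 : (blk wt k k N) ^ n = 0 := by
    rw [blkE_pow ht, hn]
    rfl
  rw [IsNilpotent.exp_eq_sum hn, IsNilpotent.exp_eq_sum h1]
  ext i j
  simp only [blk, Matrix.sum_apply, Matrix.smul_apply]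
  refine Finset.sum_congr rfl fun r _ => ?_
  have h2 := congrFun (congrFun (blkE_pow ht k r) i) j
  simp only [blk] at h2
  rw [← h2]

theorem Tri.exp {N : Matrix ι ι ℂ} (hN : IsNilpotent N) (ht : Tri wt N) :
    Tri wt (IsNilpotent.exp N) := blkE_tri hN ht

theorem blk_exp {N : Matrix ι ι ℂ} (hN : IsNilpotent N) (ht : Tri wt N) (k : ℤ) :
    blk wt k k (IsNilpotent.exp N) = IsNilpotent.exp (blk wt k k N) := blkE_exp hN ht k

theorem Tri.exp_real {N : Matrix ι ι ℝ} (hN : IsNilpotent N) (ht : Tri wt N) :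
    Tri wt (IsNilpotent.exp N) := blkE_tri hN ht

theorem blk_exp_real {N : Matrix ι ι ℝ} (hN : IsNilpotent N) (ht : Tri wt N) (k : ℤ) :
    blk wt k k (IsNilpotent.exp N) = IsNilpotent.exp (blk wt k k N) := blkE_exp hN ht k

end MW38
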