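import Pool.Agent.LibUS38.Defs

/-!
# Admissible variations of mixed Hodge structure on a curve `Δ \ ℍ` (MP_eeb1a4_ag)

Definitions used in the statement of `ReductivePoints`.
-/

open Matrix Complex
open UpperHalfPlane hiding I

namespace MW38

open SP38 US38

variable {α : Type} [Fintype α] [DecidableEq α] {ι : Type} [Fintype ι] [DecidableEq ι]

/-- The Hodge filtration with period matrix `G`: `F^a` is spanned by the columns of `G` of
index at least `a`. -/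
def Fl (p : α → ℤ) (G : Matrix α α ℂ) (a : ℤ) : Submodule ℂ (α → ℂ) :=
  Submodule.span ℂ {v | ∃ j, a ≤ p j ∧ v = fun i => G i j}

/-- the complex bilinear form with real matrix `Q` -/
noncomputable def bl (Q : Matrix α α ℝ) (u v : α → ℂ) : ℂ :=
  ∑ i, ∑ j, u i * (Q i j : ℂ) * v j

/-- complex conjugation -/
noncomputable def cc (v : α → ℂ) : α → ℂ := fun i => (starRingEnd ℂ) (v i)

/-- `G` is the period matrix of a pure Hodge structure of weight `w` on `ℝ^α`, with Hodge numbers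
`h^{a,w-a} = #{j | p j = a}`, polarized by `Q`. -/
structure PHS (w : ℤ) (p : α → ℤ) (Q : Matrix α α ℝ) (G : Matrix α α ℂ) : Prop where
  unit : IsUnit G
  riem : ∀ a b : ℤ, w < a + b → ∀ u ∈ Fl p G a, ∀ v ∈ Fl p G b, bl Q u v = 0
  pos : ∀ a : ℤ, ∀ v ∈ Fl p G a, cc v ∈ Fl p G (w - a) → v ≠ 0 →
    0 < (I ^ (2 * a - w) * bl Q v (cc v)).re ∧ (I ^ (2 * a - w) * bl Q v (cc v)).im = 0

/-- the block of rows of weight `k` and columns of weight `l` -/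
def blk {R : Type*} (wt : ι → ℤ) (k l : ℤ) (A : Matrix ι ι R) :
    Matrix {i // wt i = k} {j // wt j = l} R := fun i j => A i j

/-- block upper triangular: the weight filtration `W_k`, spanned by the basis vectors of weight
at most `k`, is preserved -/
def Tri {R : Type*} [Zero R] (wt : ι → ℤ) (A : Matrix ι ι R) : Prop :=
  ∀ i j, wt j < wt i → A i j = 0

/-- A graded-polarized mixed Hodge structure on `ℝ^ι`. `W_k` is spanned by the basis vectors of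
weight at most `k`; `F^a` by the columns `j` of `Φ` with `a ≤ p j`, column `j` lies in
`W_{wt j}`; the diagonal blocks of `Φ` are the period matrices of `Gr^W`. -/
structure MHS (wt p : ι → ℤ) (Q : Matrix ι ι ℝ) (Φ : Matrix ι ι ℂ) : Prop where
  unit : IsUnit Φ
  tri : Tri wt Φ
  gr : ∀ k, PHS k (fun i : {i // wt i = k} => p i) (blk wt k k Q) (blk wt k k Φ)

/-- a variation over the upper half plane: holomorphic, Griffiths transversality -/
structure VMHS (wt p : ι → ℤ) (Q : Matrix ι ι ℝ) (Φ : ℂ → Matrix ι ι ℂ) : Prop where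
  mhs : ∀ z : ℂ, 0 < z.im → MHS wt p Q (Φ z)
  hol : ∀ i j, DifferentiableOn ℂ (fun z => Φ z i j) {z : ℂ | 0 < z.im}
  tr : ∀ z : ℂ, 0 < z.im → ∀ j, (fun i => deriv (fun z => Φ z i j) z) ∈ Fl p (Φ z) (p j - 1)

/-- `γ` preserves the weight filtration and the polarizations of the graded pieces -/
def Isom (wt : ι → ℤ) (Q γ : Matrix ι ι ℝ) : Prop :=
  IsUnit γ ∧ Tri wt γ ∧ ∀ k, (blk wt k k γ)ᵀ * blk wt k k Q * blk wt k k γ = blk wt k k Q

/-- the variation descends to `Δ \ ℍ` (with real monodromy; integral monodromy for a variation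
with integral structure) -/
def Desc (wt p : ι → ℤ) (Q : Matrix ι ι ℝ) (Φ : ℂ → Matrix ι ι ℂ)
    (Δ : Subgroup (Matrix.SpecialLinearGroup (Fin 2) ℝ)) : Prop :=
  ∀ δ ∈ Δ, ∃ γ : Matrix ι ι ℝ, Isom wt Q γ ∧ ∀ (τ : ℍ) (a : ℤ),
    Fl p (Φ ((δ • τ : ℍ) : ℂ)) a = (Fl p (Φ (τ : ℂ)) a).map (Matrix.mulVecLin (cm γ))

/-- Admissibility at the cusp `σ ∞`: after a finite cover (absorbed in `h`) the monodromy is
unipotent, equal to `exp N` in the coordinate `ζ = τ / h`, `τ ↦ σ τ`, and the Hodge filtration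
is `exp (ζ N)` times a filtration which is holomorphic in `q = exp (2 π i ζ)` on a full disc, with
a frame adapted to the weight filtration. -/
def Adm (wt p : ι → ℤ) (Q : Matrix ι ι ℝ) (Φ : ℂ → Matrix ι ι ℂ)
    (Δ : Subgroup (Matrix.SpecialLinearGroup (Fin 2) ℝ))
    (σ : Matrix.SpecialLinearGroup (Fin 2) ℝ) : Prop :=
  ∃ (h : ℝ) (N : Matrix ι ι ℝ) (Ψ : ℂ → Matrix ι ι ℂ) (ε : ℝ),
    0 < h ∧ σ * trans h * σ⁻¹ ∈ Δ ∧ 0 < ε ∧ IsNilpotent N ∧ Tri wt N ∧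
    Isom wt Q (IsNilpotent.exp N) ∧
    (∀ i j, DifferentiableOn ℂ (fun q => Ψ q i j) (Metric.ball 0 ε)) ∧
    (∀ q ∈ Metric.ball (0 : ℂ) ε, IsUnit (Ψ q) ∧ Tri wt (Ψ q)) ∧
    ∀ τ : ℍ, ‖Complex.exp (2 * Real.pi * I * ((τ : ℂ) / h))‖ < ε → ∀ a,
      Fl p (Φ ((σ • τ : ℍ) : ℂ)) a = Fl p (IsNilpotent.exp (((τ : ℂ) / h) • cm N) *
        Ψ (Complex.exp (2 * Real.pi * I * ((τ : ℂ) / h)))) a

/-- unipotent: `g` acts trivially on the graded pieces -/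
def Uni (wt : ι → ℤ) (g : Matrix ι ι ℝ) : Prop :=
  ∀ i j, wt j ≤ wt i → g i j = if i = j then 1 else 0

/-- the block diagonal part: the direct sum of the graded pieces -/
def dg (wt : ι → ℤ) (A : Matrix ι ι ℂ) : Matrix ι ι ℂ := fun i j => if wt i = wt j then A i j else 0

/-- `g` carries the Hodge filtration to the direct sum of the Hodge filtrations of the graded
pieces -/
def SplitBy (wt p : ι → ℤ) (g : Matrix ι ι ℝ) (Φ : Matrix ι ι ℂ) : Prop :=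
  ∀ a, Fl p (cm g * Φ) a = Fl p (dg wt Φ) a

/-- the mixed Hodge structure is, over `K`, the direct sum of its graded pieces -/
def IsSplit (K : Subfield ℝ) (wt p : ι → ℤ) (Φ : Matrix ι ι ℂ) : Prop :=
  ∃ g : Matrix ι ι ℝ, (∀ i j, g i j ∈ K) ∧ Uni wt g ∧ SplitBy wt p g Φ

/-! ### auxiliary definitions (not used in the statement) -/

/-- extension of the constant structure by a pure variation, over the upper half plane -/
structure VarA (w : ℤ) (p : α → ℤ) (Q : Matrix α α ℝ) (G : ℂ → Matrix α α ℂ)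
    (ν : ℂ → α → ℂ) : Prop where
  phs : ∀ z : ℂ, 0 < z.im → PHS w p Q (G z)
  holG : ∀ i j, DifferentiableOn ℂ (fun z => G z i j) {z : ℂ | 0 < z.im}
  holn : ∀ i, DifferentiableOn ℂ (fun z => ν z i) {z : ℂ | 0 < z.im}
  trG : ∀ z : ℂ, 0 < z.im → ∀ j, (fun i => deriv (fun z => G z i j) z) ∈ Fl p (G z) (p j - 1)
  trn : ∀ z : ℂ, 0 < z.im → (fun i => deriv (fun z => ν z i) z) ∈ Fl p (G z) (-1)

def DescA (p : α → ℤ) (Q : Matrix α α ℝ) (G : ℂ → Matrix α α ℂ) (ν : ℂ → α → ℂ)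
    (Δ : Subgroup (Matrix.SpecialLinearGroup (Fin 2) ℝ)) : Prop :=
  ∀ δ ∈ Δ, ∃ (γ : Matrix α α ℝ) (b : α → ℝ), IsUnit γ ∧ γᵀ * Q * γ = Q ∧ ∀ τ : ℍ,
    (∀ a, Fl p (G ((δ • τ : ℍ) : ℂ)) a = (Fl p (G (τ : ℂ)) a).map (Matrix.mulVecLin (cm γ))) ∧
    ν ((δ • τ : ℍ) : ℂ) - (cm γ *ᵥ ν (τ : ℂ) + fun i => (b i : ℂ)) ∈
      Fl p (G ((δ • τ : ℍ) : ℂ)) 0

def AdmA (p : α → ℤ) (Q : Matrix α α ℝ) (G : ℂ → Matrix α α ℂ) (ν : ℂ → α → ℂ)
    (Δ : Subgroup (Matrix.SpecialLinearGroup (Fin 2) ℝ))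
    (σ : Matrix.SpecialLinearGroup (Fin 2) ℝ) : Prop :=
  ∃ (h : ℝ) (N : Matrix (α ⊕ Unit) (α ⊕ Unit) ℝ) (Ψ : ℂ → Matrix α α ℂ) (β : ℂ → α → ℂ) (ε : ℝ),
    0 < h ∧ σ * trans h * σ⁻¹ ∈ Δ ∧ 0 < ε ∧ IsNilpotent N ∧ (∀ j, N (Sum.inr ()) j = 0) ∧
    (IsNilpotent.exp N.toBlocks₁₁)ᵀ * Q * IsNilpotent.exp N.toBlocks₁₁ = Q ∧
    (∀ i j, DifferentiableOn ℂ (fun q => Ψ q i j) (Metric.ball 0 ε)) ∧
    (∀ i, DifferentiableOn ℂ (fun q => β q i) (Metric.ball 0 ε)) ∧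
    (∀ q ∈ Metric.ball (0 : ℂ) ε, IsUnit (Ψ q)) ∧
    ∀ τ : ℍ, ‖Complex.exp (2 * Real.pi * I * ((τ : ℂ) / h))‖ < ε →
      (∀ a, Fl p (G ((σ • τ : ℍ) : ℂ)) a =
        Fl p (IsNilpotent.exp (((τ : ℂ) / h) • cm N.toBlocks₁₁) *
          Ψ (Complex.exp (2 * Real.pi * I * ((τ : ℂ) / h)))) a) ∧
      (ν ((σ • τ : ℍ) : ℂ) - fun i => (IsNilpotent.exp (((τ : ℂ) / h) • cm N) *ᵥ
        Sum.elim (β (Complex.exp (2 * Real.pi * I * ((τ : ℂ) / h)))) 1) (Sum.inl i)) ∈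
        Fl p (G ((σ • τ : ℍ) : ℂ)) 0

/-- the columns of the block `(k, l)` of `A` respect the Hodge filtration -/
def ColF (wt p : ι → ℤ) (k l : ℤ) (A Φ : Matrix ι ι ℂ) : Prop :=
  ∀ b : {j // wt j = l}, (fun i => blk wt k l A i b) ∈
    Fl (fun i : {i // wt i = k} => p i) (blk wt k k Φ) (p b)

/-- the extension class of `Gr_l` by `Gr_k` -/
noncomputable def psi (wt : ι → ℤ) (k l : ℤ) (g : Matrix ι ι ℝ) (Φ : Matrix ι ι ℂ) :
    Matrix {i // wt i = k} {j // wt j = l} ℂ := blk wt k l (cm g * Φ) * (blk wt l l Φ)⁻¹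

/-- a matrix as a vector -/
def vc {I J R : Type*} (φ : Matrix I J R) : I × J → R := fun x => φ x.1 x.2

/-- the Hodge types of `Hom` -/
def pE {I J : Type*} (p₁ : I → ℤ) (p₂ : J → ℤ) : I × J → ℤ := fun x => p₁ x.1 - p₂ x.2

/-- the matrix of `φ ↦ A φ B⁻¹` -/
noncomputable def kr {I J R : Type*} [Fintype J] [DecidableEq J] [CommRing R] (A : Matrix I I R)
    (B : Matrix J J R) : Matrix (I × J) (I × J) R := fun x y => A x.1 y.1 * B⁻¹ y.2 x.2

/-- the matrix of `φ ↦ A φ - φ B` -/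
def krn {I J R : Type*} [DecidableEq I] [DecidableEq J] [CommRing R] (A : Matrix I I R)
    (B : Matrix J J R) : Matrix (I × J) (I × J) R := fun x y =>
  A x.1 y.1 * (if y.2 = x.2 then 1 else 0) - (if x.1 = y.1 then 1 else 0) * B y.2 x.2

/-- the matrix of `(φ, t) ↦ (A φ - φ B + t c, 0)` -/
def NE {I J R : Type*} [DecidableEq I] [DecidableEq J] [CommRing R] (A : Matrix I I R)
    (B : Matrix J J R) (c : Matrix I J R) : Matrix ((I × J) ⊕ Unit) ((I × J) ⊕ Unit) R :=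
  Matrix.fromBlocks (krn A B) (fun x _ => c x.1 x.2) 0 0

end MW38
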