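import Pool.Agent.LibMW38.ExpE
import Pool.Agent.LibMW38.Kr
import Pool.Agent.LibMW38.NLow

/-! Exponential of the nilpotent operator on the extension. -/

open Matrix Complex

namespace MW38

open SP38 US38

variable {I J : Type} [Fintype I] [DecidableEq I] [Fintype J] [DecidableEq J]
  {A : Matrix I I ℝ} {B : Matrix J J ℝ} {c : Matrix I J ℝ}

/-- the stacked matrix -/
def expF_row (v : (I × J) ⊕ Unit → ℂ) : Matrix (I ⊕ J) J ℂ :=
  fun x j => Sum.elim (fun i => v (Sum.inl (i, j))) (fun j' => v (Sum.inr ()) *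
    (1 : Matrix J J ℂ) j' j) x

/-- the upper part -/
def expF_top (v : (I × J) ⊕ Unit → ℂ) : Matrix I J ℂ := fun i j => v (Sum.inl (i, j))

theorem expF_row_add (v w : (I × J) ⊕ Unit → ℂ) :
    expF_row (v + w) = expF_row v + expF_row w := by
  ext x j
  rcases x with i | j'
  · rfl
  · show (v + w) (Sum.inr ()) * _ = v (Sum.inr ()) * _ + w (Sum.inr ()) * _
    rw [Pi.add_apply, add_mul]

theorem expF_row_zero : expF_row (0 : (I × J) ⊕ Unit → ℂ) = 0 := by
  ext x j
  rcases x with i | j'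
  · rfl
  · show (0 : ℂ) * _ = 0
    rw [zero_mul]

theorem expF_row_smul (q : ℚ) (v : (I × J) ⊕ Unit → ℂ) :
    expF_row (q • v) = q • expF_row v := by
  ext x j
  rcases x with i | j'
  · rfl
  · show (q • v (Sum.inr ())) * _ = q • (v (Sum.inr ()) * _)
    rw [smul_mul_assoc]

theorem expF_row_sum {K : Type*} (s : Finset K) (f : K → (I × J) ⊕ Unit → ℂ) :
    expF_row (∑ k ∈ s, f k) = ∑ k ∈ s, expF_row (f k) := by
  classical
  induction s using Finset.induction_on with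
  | empty => rw [Finset.sum_empty, Finset.sum_empty, expF_row_zero]
  | insert a s ha ih => rw [Finset.sum_insert ha, Finset.sum_insert ha, expF_row_add, ih]

theorem expF_step (A : Matrix I I ℂ) (B : Matrix J J ℂ) (c : Matrix I J ℂ)
    (v : (I × J) ⊕ Unit → ℂ) :
    vc (expF_row (NE A B c *ᵥ v)) = krn (Matrix.fromBlocks A c 0 B) B *ᵥ vc (expF_row v) := by
  rw [krn_mulVec]
  have h1 : ∀ i j, (NE A B c *ᵥ v) (Sum.inl (i, j)) =
      (A * expF_top v - expF_top v * B) i j + c i j * v (Sum.inr ()) := by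
    intro i j
    have h2 : (krn A B *ᵥ vc (expF_top v)) (i, j) = (A * expF_top v - expF_top v * B) i j :=
      congrFun (krn_mulVec A B (expF_top v)) (i, j)
    rw [← h2]
    show ∑ x, NE A B c (Sum.inl (i, j)) x * v x = _
    rw [Fintype.sum_sum_type]
    have h4 : ∑ x : Unit, NE A B c (Sum.inl (i, j)) (Sum.inr x) * v (Sum.inr x) =
        c i j * v (Sum.inr ()) := by
      rw [Finset.univ_unique, Finset.sum_singleton]
      rfl
    rw [h4]
    rfl
  have h3 : (NE A B c *ᵥ v) (Sum.inr ()) = 0 := by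
    show ∑ x, NE A B c (Sum.inr ()) x * v x = 0
    refine Finset.sum_eq_zero fun x _ => ?_
    rcases x with x | x
    · exact zero_mul _
    · exact zero_mul _
  ext ⟨x, j⟩
  rcases x with i | j'
  · show (NE A B c *ᵥ v) (Sum.inl (i, j)) = _
    rw [h1]
    simp only [vc, Matrix.sub_apply, Matrix.mul_apply, Fintype.sum_sum_type,
      Matrix.fromBlocks_apply₁₁, Matrix.fromBlocks_apply₁₂, expF_row, Sum.elim_inl, Sum.elim_inr]
    have h4 : ∑ x, c i x * (v (Sum.inr ()) * (1 : Matrix J J ℂ) x j) = c i j * v (Sum.inr ()) := by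
      rw [Finset.sum_eq_single j]
      · rw [Matrix.one_apply_eq, mul_one]
      · intro x _ hx
        rw [Matrix.one_apply_ne hx, mul_zero, mul_zero]
      · intro h
        exact absurd (Finset.mem_univ _) h
    rw [h4]
    simp only [expF_top]
    ring
  · show (NE A B c *ᵥ v) (Sum.inr ()) * _ = _
    rw [h3, zero_mul]
    simp only [vc, Matrix.sub_apply, Matrix.mul_apply, Fintype.sum_sum_type,
      Matrix.fromBlocks_apply₂₁, Matrix.fromBlocks_apply₂₂, expF_row, Sum.elim_inl, Sum.elim_inr,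
      Matrix.zero_apply, zero_mul, Finset.sum_const_zero, zero_add]
    have h4 : ∑ x, B j' x * (v (Sum.inr ()) * (1 : Matrix J J ℂ) x j) = B j' j * v (Sum.inr ()) := by
      rw [Finset.sum_eq_single j]
      · rw [Matrix.one_apply_eq, mul_one]
      · intro x _ hx
        rw [Matrix.one_apply_ne hx, mul_zero, mul_zero]
      · intro h
        exact absurd (Finset.mem_univ _) h
    have h5 : ∑ x, v (Sum.inr ()) * (1 : Matrix J J ℂ) j' x * B x j = B j' j * v (Sum.inr ()) := by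
      rw [Finset.sum_eq_single j']
      · rw [Matrix.one_apply_eq]
        ring
      · intro x _ hx
        rw [Matrix.one_apply_ne (Ne.symm hx), mul_zero, zero_mul]
      · intro h
        exact absurd (Finset.mem_univ _) h
    rw [h4, h5, sub_self]

theorem expF_pow (A : Matrix I I ℂ) (B : Matrix J J ℂ) (c : Matrix I J ℂ)
    (v : (I × J) ⊕ Unit → ℂ) (n : ℕ) :
    vc (expF_row ((NE A B c) ^ n *ᵥ v)) =
      (krn (Matrix.fromBlocks A c 0 B) B) ^ n *ᵥ vc (expF_row v) := by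
  induction n with
  | zero => rw [pow_zero, pow_zero, Matrix.one_mulVec, Matrix.one_mulVec]
  | succ n ih =>
    rw [pow_succ', pow_succ', ← Matrix.mulVec_mulVec, ← Matrix.mulVec_mulVec, expF_step, ih]

theorem expF_blocks (A : Matrix I I ℂ) (B : Matrix J J ℂ) (c : Matrix I J ℂ) (n : ℕ) :
    ∃ X, (Matrix.fromBlocks A c 0 B) ^ n = Matrix.fromBlocks (A ^ n) X 0 (B ^ n) := by
  induction n with
  | zero => exact ⟨0, by rw [pow_zero, pow_zero, pow_zero, Matrix.fromBlocks_one]⟩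
  | succ n ih =>
    obtain ⟨X, hX⟩ := ih
    refine ⟨A ^ n * c + X * B, ?_⟩
    rw [pow_succ, hX, Matrix.fromBlocks_multiply]
    simp only [Matrix.mul_zero, Matrix.zero_mul, add_zero, zero_add, ← pow_succ]

theorem expF_nil {A : Matrix I I ℂ} {B : Matrix J J ℂ} (hA : IsNilpotent A)
    (hB : IsNilpotent B) (c : Matrix I J ℂ) : IsNilpotent (Matrix.fromBlocks A c 0 B) := by
  obtain ⟨n, hn⟩ := hA
  obtain ⟨m, hm⟩ := hB
  obtain ⟨X, hX⟩ := expF_blocks A B c (n + m)
  have h1 : A ^ (n + m) = 0 := by rw [pow_add, hn, zero_mul]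
  have h2 : B ^ (n + m) = 0 := by rw [pow_add, hm, mul_zero]
  rw [h1, h2] at hX
  refine ⟨(n + m) + (n + m), ?_⟩
  rw [pow_add, hX, Matrix.fromBlocks_multiply]
  simp

theorem expF_exp {A : Matrix I I ℂ} {B : Matrix J J ℂ} (hA : IsNilpotent A)
    (hB : IsNilpotent B) (c : Matrix I J ℂ) (v : (I × J) ⊕ Unit → ℂ) :
    vc (expF_row (IsNilpotent.exp (NE A B c) *ᵥ v)) =
      IsNilpotent.exp (krn (Matrix.fromBlocks A c 0 B) B) *ᵥ vc (expF_row v) := by
  obtain ⟨n, hn⟩ := expE_NE_nil hA hB c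
  obtain ⟨m, hm⟩ := expE_nil (expF_nil hA hB c) hB
  have h1 : (NE A B c) ^ (n + m) = 0 := by rw [pow_add, hn, zero_mul]
  have h2 : (krn (Matrix.fromBlocks A c 0 B) B) ^ (n + m) = 0 := by rw [pow_add, hm, mul_zero]
  rw [IsNilpotent.exp_eq_sum h1, IsNilpotent.exp_eq_sum h2, Matrix.sum_mulVec,
    Matrix.sum_mulVec, expF_row_sum]
  have h3 : ∀ (f : ℕ → Matrix (I ⊕ J) J ℂ) (s : Finset ℕ),
      vc (∑ i ∈ s, f i) = ∑ i ∈ s, vc (f i) := by
    intro f s
    ext x
    rw [Finset.sum_apply]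
    simp only [vc, Matrix.sum_apply]
  rw [h3]
  refine Finset.sum_congr rfl fun i _ => ?_
  rw [Matrix.smul_mulVec, Matrix.smul_mulVec, expF_row_smul, ← expF_pow]
  rfl

theorem expF_toBlocks {A : Matrix I I ℂ} {B : Matrix J J ℂ} (hA : IsNilpotent A)
    (hB : IsNilpotent B) (c : Matrix I J ℂ) :
    (IsNilpotent.exp (Matrix.fromBlocks A c 0 B)).toBlocks₁₁ = IsNilpotent.exp A := by
  obtain ⟨n, hn⟩ := hA
  obtain ⟨m, hm⟩ := expF_nil ⟨n, hn⟩ hB c
  have h1 : A ^ (n + m) = 0 := by rw [pow_add, hn, zero_mul]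
  have h2 : (Matrix.fromBlocks A c 0 B) ^ (n + m) = 0 := by rw [pow_add, hm, mul_zero]
  rw [IsNilpotent.exp_eq_sum h1, IsNilpotent.exp_eq_sum h2]
  ext i j
  rw [Matrix.toBlocks₁₁, Matrix.of_apply, Matrix.sum_apply, Matrix.sum_apply]
  refine Finset.sum_congr rfl fun k _ => ?_
  obtain ⟨X, hX⟩ := expF_blocks A B c k
  rw [hX]
  rfl

theorem exp_NE (hA : IsNilpotent A) (hB : IsNilpotent B) (ζ : ℂ) (φ : Matrix I J ℂ) (x : I × J) :
    (IsNilpotent.exp (ζ • cm (NE A B c)) *ᵥ Sum.elim (vc φ) 1) (Sum.inl x) =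
      ((IsNilpotent.exp (ζ • cm A) * φ +
        (IsNilpotent.exp (ζ • cm (Matrix.fromBlocks A c 0 B))).toBlocks₁₂) *
        (IsNilpotent.exp (ζ • cm B))⁻¹) x.1 x.2 := by
  have hA' := expE_cm_nil hA ζ
  have hB' := expE_cm_nil hB ζ
  have e1 : ζ • cm (NE A B c) = NE (ζ • cm A) (ζ • cm B) (ζ • cm c) := by
    ext a b
    rcases a with a | a
    · rcases b with b | b
      · exact congrFun (congrFun (expE_cm_krn A B ζ) a) b
      · rfl
    · rcases b with b | b
      · show ζ * ((0 : ℝ) : ℂ) = 0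
        simp
      · show ζ * ((0 : ℝ) : ℂ) = 0
        simp
  have e2 : ζ • cm (Matrix.fromBlocks A c 0 B) =
      Matrix.fromBlocks (ζ • cm A) (ζ • cm c) 0 (ζ • cm B) := by
    ext a b
    rcases a with a | a
    · rcases b with b | b <;> rfl
    · rcases b with b | b
      · show ζ * ((0 : ℝ) : ℂ) = 0
        simp
      · rfl
  rw [e1, e2]
  obtain ⟨i, j⟩ := x
  have h1 := congrFun (expF_exp hA' hB' (ζ • cm c) (Sum.elim (vc φ) 1)) (Sum.inl i, j)
  rw [expE_exp (expF_nil hA' hB' _) hB', kr_mulVec] at h1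
  have h2 : (IsNilpotent.exp (NE (ζ • cm A) (ζ • cm B) (ζ • cm c)) *ᵥ
      Sum.elim (vc φ) 1) (Sum.inl (i, j)) =
      vc (expF_row (IsNilpotent.exp (NE (ζ • cm A) (ζ • cm B) (ζ • cm c)) *ᵥ
      Sum.elim (vc φ) 1)) (Sum.inl i, j) := rfl
  rw [h2, h1]
  show ((IsNilpotent.exp (Matrix.fromBlocks (ζ • cm A) (ζ • cm c) 0 (ζ • cm B)) *
    expF_row (Sum.elim (vc φ) 1)) * (IsNilpotent.exp (ζ • cm B))⁻¹) (Sum.inl i) j = _
  rw [Matrix.mul_apply, Matrix.mul_apply]
  refine Finset.sum_congr rfl fun j' _ => ?_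
  congr 1
  rw [Matrix.mul_apply, Fintype.sum_sum_type, Matrix.add_apply, Matrix.mul_apply,
    ← expF_toBlocks hA' hB' (ζ • cm c)]
  congr 1
  show ∑ x, (IsNilpotent.exp (Matrix.fromBlocks (ζ • cm A) (ζ • cm c) 0 (ζ • cm B)))
    (Sum.inl i) (Sum.inr x) * (1 * (1 : Matrix J J ℂ) x j') = _
  rw [Finset.sum_eq_single j']
  · rw [Matrix.one_apply_eq, mul_one, mul_one]
    rfl
  · intro x _ hx
    rw [Matrix.one_apply_ne hx, mul_zero, mul_zero]
  · intro h
    exact absurd (Finset.mem_univ _) h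

end MW38
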