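import Pool.Agent.LibMW38.AdmL
import Pool.Agent.LibMW38.ExpF
import Pool.Agent.LibMW38.HomT

/-! Admissibility of the extension class. -/

open Matrix Complex
open UpperHalfPlane hiding I

namespace MW38

open SP38 US38

variable {ι : Type} [Fintype ι] [DecidableEq ι] {wt p : ι → ℤ} {Q : Matrix ι ι ℝ}
  {Φ : ℂ → Matrix ι ι ℂ} {g : Matrix ι ι ℝ} {k l : ℤ}
  {Δ : Subgroup (Matrix.SpecialLinearGroup (Fin 2) ℝ)}
  {σ : Matrix.SpecialLinearGroup (Fin 2) ℝ}

theorem eAdm_inv_hol {J : Type} [Fintype J] [DecidableEq J] {S : Set ℂ} {B : ℂ → Matrix J J ℂ}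
    (h : ∀ i j, DifferentiableOn ℂ (fun z => B z i j) S) (hu : ∀ z ∈ S, IsUnit (B z)) (i j : J) :
    DifferentiableOn ℂ (fun z => (B z)⁻¹ i j) S := by
  have h1 := kr_hol (I := Unit) (S := S) (G₁ := fun _ => (1 : Matrix Unit Unit ℂ)) (G₂ := B)
    (fun _ _ => differentiableOn_const _) h hu ((), j) ((), i)
  refine h1.congr ?_
  intro z _
  simp [kr]

theorem eAdm_psi_hol {S : Set ℂ} {Ψ : ℂ → Matrix ι ι ℂ}
    (h : ∀ i j, DifferentiableOn ℂ (fun z => Ψ z i j) S)
    (hu : ∀ z ∈ S, IsUnit (Ψ z) ∧ Tri wt (Ψ z)) (g : Matrix ι ι ℝ) (k l : ℤ) (x) :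
    DifferentiableOn ℂ (fun z => vc (psi wt k l g (Ψ z)) x) S := by
  have h1 : ∀ b a, DifferentiableOn ℂ (fun z => (blk wt l l (Ψ z))⁻¹ b a) S :=
    eAdm_inv_hol (fun i j => h _ _) (fun z hz => (hu z hz).2.isUnit_blk (hu z hz).1 l)
  have h2 : ∀ (i : {i // wt i = k}) (b : {j // wt j = l}),
      DifferentiableOn ℂ (fun z => blk wt k l (cm g * Ψ z) i b) S := by
    intro i b
    have h3 : DifferentiableOn ℂ (fun z => ∑ j, cm g i j * Ψ z j b) S := by
      apply DifferentiableOn.fun_sum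
      intro j _
      exact (differentiableOn_const _).mul (h _ _)
    refine h3.congr ?_
    intro z _
    simp [blk, Matrix.mul_apply]
  have h4 : DifferentiableOn ℂ (fun z => ∑ b, blk wt k l (cm g * Ψ z) x.1 b *
      (blk wt l l (Ψ z))⁻¹ b x.2) S := by
    apply DifferentiableOn.fun_sum
    intro j _
    exact (h2 _ _).mul (h1 _ _)
  refine h4.congr ?_
  intro z _
  simp [vc, psi, Matrix.mul_apply]

theorem eAdm_smul_nil {J : Type} [Fintype J] [DecidableEq J] {N : Matrix J J ℝ}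
    (hN : IsNilpotent N) (ζ : ℂ) : IsNilpotent (ζ • cm N) := by
  obtain ⟨n, hn⟩ := hN
  refine ⟨n, ?_⟩
  have h1 : cm N ^ n = 0 := by
    have h2 : cm N = (Complex.ofRealHom : ℝ →+* ℂ).mapMatrix N := rfl
    rw [h2, ← map_pow, hn, map_zero]
  rw [smul_pow, h1, smul_zero]

theorem eAdm_smul_tri {N : Matrix ι ι ℝ} (ht : Tri wt N) (ζ : ℂ) : Tri wt (ζ • cm N) := by
  intro i j hij
  have := ht.cm i j hij
  rw [Matrix.smul_apply, this, smul_zero]

theorem EAdm (h : VMHS wt p Q Φ) (ha : Adm wt p Q Φ Δ σ)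
    (hs : ∃ s : Equiv.Perm ι, ∀ j, wt (s j) = wt j ∧ p (s j) = wt j - p j)
    (hg : Uni wt g) (hkl : k < l)
    (hc : ∀ z : ℂ, 0 < z.im → ∀ k m, k < m → m < l → ColF wt p k m (cm g * Φ z) (Φ z)) :
    AdmA (pE (fun i : {i // wt i = k} => p i) (fun i : {i // wt i = l} => p i))
      (kr (blk wt k k Q) (blk wt l l Q)) (fun z => kr (blk wt k k (Φ z)) (blk wt l l (Φ z)))
      (fun z => vc (psi wt k l g (Φ z))) Δ σ := by
  obtain ⟨r, N, Ψ, ε, hr, hΔ, hε, hN, ht, hI, hΨ, hΨu, hF⟩ := ha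
  have hNk := blk_nil hN ht k
  have hNl := blk_nil hN ht l
  have hlow : ∀ m, k ≤ m → m < l → blk wt k m (g * N) = blk wt k k N * blk wt k m g :=
    fun m hkm hml => adm_low h hs hg hc hr hε hN ht hF hkm hml
  refine ⟨r, NE (blk wt k k N) (blk wt l l N) (blk wt k l (g * N) - blk wt k k N * blk wt k l g),
    fun q => kr (blk wt k k (Ψ q)) (blk wt l l (Ψ q)), fun q => vc (psi wt k l g (Ψ q)), ε, hr,
    hΔ, hε, NE_nil hNk hNl _, ?_, ?_, ?_, ?_, ?_, ?_⟩
  · rintro (j | j) <;> simp [NE]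
  · have h1 : (NE (blk wt k k N) (blk wt l l N)
        (blk wt k l (g * N) - blk wt k k N * blk wt k l g)).toBlocks₁₁ =
        krn (blk wt k k N) (blk wt l l N) := by
      simp [NE]
    rw [h1, exp_krn_real hNk hNl, kr_transpose, kr_mul, kr_mul, ← blk_exp_real hN ht k,
      ← blk_exp_real hN ht l, hI.2.2 k, hI.2.2 l]
  · intro x y
    exact kr_hol (fun i j => hΨ _ _) (fun i j => hΨ _ _)
      (fun q hq => (hΨu q hq).2.isUnit_blk (hΨu q hq).1 l) x y
  · intro x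
    exact eAdm_psi_hol hΨ hΨu g k l x
  · intro q hq
    exact isUnit_kr ((hΨu q hq).2.isUnit_blk (hΨu q hq).1 k)
      ((hΨu q hq).2.isUnit_blk (hΨu q hq).1 l)
  · intro τ hτ
    have hq : Complex.exp (2 * Real.pi * I * ((τ : ℂ) / r)) ∈ Metric.ball (0 : ℂ) ε := by
      rw [mem_ball_zero_iff]
      exact hτ
    have hFτ := hF τ hτ
    generalize hqq : Complex.exp (2 * Real.pi * I * ((τ : ℂ) / r)) = q at hτ hq hFτ ⊢
    generalize hζ : (τ : ℂ) / r = ζ at hFτ ⊢
    have him : 0 < ((σ • τ : ℍ) : ℂ).im := UpperHalfPlane.im_pos _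
    generalize hz : ((σ • τ : ℍ) : ℂ) = z at him hFτ ⊢
    have hM := h.mhs z him
    have hEn : IsNilpotent (ζ • cm N) := eAdm_smul_nil hN ζ
    have hEt : Tri wt (ζ • cm N) := eAdm_smul_tri ht ζ
    have hEu : IsUnit (IsNilpotent.exp (ζ • cm N)) := IsNilpotent.isUnit_exp hEn
    have hEt' : Tri wt (IsNilpotent.exp (ζ • cm N)) := Tri.exp hEn hEt
    have hF' : ∀ a, Fl p (Φ z) a =
        (Fl p (Ψ q) a).map (Matrix.mulVecLin (IsNilpotent.exp (ζ • cm N))) := by
      intro a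
      rw [hFτ a, Fl_mul]
    have hbk : ∀ k, blk wt k k (IsNilpotent.exp (ζ • cm N)) =
        IsNilpotent.exp (ζ • cm (blk wt k k N)) := by
      intro k
      rw [blk_exp hEn hEt k]
      rfl
    have hΨ1 := (hΨu q hq).1
    have hΨ2 := (hΨu q hq).2
    constructor
    · intro a
      have h1 : (NE (blk wt k k N) (blk wt l l N)
          (blk wt k l (g * N) - blk wt k k N * blk wt k l g)).toBlocks₁₁ =
          krn (blk wt k k N) (blk wt l l N) := by
        simp [NE]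
      rw [h1, exp_krn hNk hNl, Fl_mul]
      have h2 := Fl_kr_map (p₁ := fun i : {i // wt i = k} => p i)
        (p₂ := fun i : {i // wt i = l} => p i)
        (hΨ2.isUnit_blk hΨ1 k) (hΨ2.isUnit_blk hΨ1 l)
        (hM.tri.isUnit_blk hM.unit k) (hM.tri.isUnit_blk hM.unit l)
        (hEt'.isUnit_blk hEu k) (hEt'.isUnit_blk hEu l)
        (fun a => Fl_blk_map hΨ1 hΨ2 hM.unit hM.tri hEu hEt' hF' k a)
        (fun a => Fl_blk_map hΨ1 hΨ2 hM.unit hM.tri hEu hEt' hF' l a) a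
      rw [h2, hbk k, hbk l]
    · have h1 := transfer hΨ1 hΨ2 hM.unit hM.tri hEu hEt' hF' hg hkl
        (fun m hkm hml => hc z him k m hkm hml)
        (fun m hkm hml => exp_low hN ht hg hlow ζ hkm hml)
      have h2 : (vc (psi wt k l g (Φ z)) - fun i => (IsNilpotent.exp (ζ • cm
          (NE (blk wt k k N) (blk wt l l N)
          (blk wt k l (g * N) - blk wt k k N * blk wt k l g))) *ᵥ
          Sum.elim (vc (psi wt k l g (Ψ q))) 1) (Sum.inl i)) =
          vc (psi wt k l g (Φ z) - (blk wt k k (IsNilpotent.exp (ζ • cm N)) *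
            psi wt k l g (Ψ q) + (blk wt k l (cm g * IsNilpotent.exp (ζ • cm N)) -
            blk wt k k (IsNilpotent.exp (ζ • cm N)) * blk wt k l (cm g))) *
            (blk wt l l (IsNilpotent.exp (ζ • cm N)))⁻¹) := by
        funext x
        rw [Pi.sub_apply, exp_NE hNk hNl ζ, exp_top hN ht hg hkl hlow ζ, hbk k, hbk l]
        rfl
      rw [h2]
      exact h1

end MW38
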