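import Pool.Agent.LibMW38.Gam

/-! Descent of the extension class. -/

open Matrix Complex
open UpperHalfPlane hiding I

namespace MW38

open SP38 US38

variable {ι : Type} [Fintype ι] [DecidableEq ι] {wt p : ι → ℤ} {Q : Matrix ι ι ℝ}
  {Φ : ℂ → Matrix ι ι ℂ} {g : Matrix ι ι ℝ} {k l : ℤ}
  {Δ : Subgroup (Matrix.SpecialLinearGroup (Fin 2) ℝ)}

theorem eDesc_cm_mul {I J L : Type*} [Fintype J] (A : Matrix I J ℝ) (B : Matrix J L ℝ) :
    cm (A * B) = cm A * cm B :=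
  Matrix.map_mul (f := Complex.ofRealHom)

theorem eDesc_cm_sub {I J : Type*} (A B : Matrix I J ℝ) : cm (A - B) = cm A - cm B := by
  ext i j; simp [cm]

theorem eDesc_cm_isUnit {I : Type*} [Fintype I] [DecidableEq I] {A : Matrix I I ℝ}
    (h : IsUnit A) : IsUnit (cm A) := by
  have := h.map (Complex.ofRealHom.mapMatrix : Matrix I I ℝ →+* Matrix I I ℂ)
  exact this

theorem eDesc_cm_inv {I : Type*} [Fintype I] [DecidableEq I] {A : Matrix I I ℝ}
    (h : IsUnit A) : cm A⁻¹ = (cm A)⁻¹ := by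
  symm
  apply Matrix.inv_eq_left_inv
  rw [← eDesc_cm_mul, Matrix.nonsing_inv_mul _ ((Matrix.isUnit_iff_isUnit_det _).1 h)]
  ext i j
  simp only [cm, Matrix.map_apply, Matrix.one_apply]
  split_ifs <;> simp

theorem EDesc (h : VMHS wt p Q Φ) (hd : Desc wt p Q Φ Δ)
    (hs : ∃ s : Equiv.Perm ι, ∀ j, wt (s j) = wt j ∧ p (s j) = wt j - p j)
    (hg : Uni wt g) (hkl : k < l)
    (hc : ∀ z : ℂ, 0 < z.im → ∀ k m, k < m → m < l → ColF wt p k m (cm g * Φ z) (Φ z)) :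
    DescA (pE (fun i : {i // wt i = k} => p i) (fun i : {i // wt i = l} => p i))
      (kr (blk wt k k Q) (blk wt l l Q)) (fun z => kr (blk wt k k (Φ z)) (blk wt l l (Φ z)))
      (fun z => vc (psi wt k l g (Φ z))) Δ := by
  intro δ hδ
  obtain ⟨γ, ⟨hu, ht, hQ⟩, hF⟩ := hd δ hδ
  have huk := ht.isUnit_blk hu k
  have hul := ht.isUnit_blk hu l
  refine ⟨kr (blk wt k k γ) (blk wt l l γ),
    vc ((blk wt k l (g * γ) - blk wt k k γ * blk wt k l g) * (blk wt l l γ)⁻¹),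
    isUnit_kr huk hul, ?_, fun τ => ⟨fun a => ?_, ?_⟩⟩
  · rw [kr_transpose, kr_mul, kr_mul, hQ, hQ]
  · have h1 := h.mhs (τ : ℂ) τ.im_pos
    have h2 := h.mhs ((δ • τ : ℍ) : ℂ) (δ • τ).im_pos
    rw [cm_kr, ← cm_blk, ← cm_blk]
    exact Fl_kr_map (h1.gr k).unit (h1.gr l).unit (h2.gr k).unit (h2.gr l).unit
      (by rw [cm_blk]; exact eDesc_cm_isUnit huk) (by rw [cm_blk]; exact eDesc_cm_isUnit hul)
      (fun a => Fl_blk_map h1.unit h1.tri h2.unit h2.tri (eDesc_cm_isUnit hu) ht.cm (hF τ) k a)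
      (fun a => Fl_blk_map h1.unit h1.tri h2.unit h2.tri (eDesc_cm_isUnit hu) ht.cm (hF τ) l a) a
  · have h1 := h.mhs (τ : ℂ) τ.im_pos
    have h2 := h.mhs ((δ • τ : ℍ) : ℂ) (δ • τ).im_pos
    have h3 := transfer h1.unit h1.tri h2.unit h2.tri (eDesc_cm_isUnit hu) ht.cm (hF τ) hg hkl
      (fun m h3 h4 => hc _ (δ • τ).im_pos k m h3 h4) (fun m h3 h4 => by
        have h5 := gam_low h1 h2 hs hu ht (hF τ) hg (hc _ τ.im_pos) (hc _ (δ • τ).im_pos) h3 h4
        rw [← eDesc_cm_mul, cm_blk, h5, eDesc_cm_mul, cm_blk, cm_blk])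
    convert h3 using 1
    rw [cm_kr, kr_mulVec]
    funext x
    have h6 : ((vc ((blk wt k l (g * γ) - blk wt k k γ * blk wt k l g) *
        (blk wt l l γ)⁻¹) x : ℝ) : ℂ) = ((blk wt k l (cm g * cm γ) - blk wt k k (cm γ) *
          blk wt k l (cm g)) * (blk wt l l (cm γ))⁻¹) x.1 x.2 := by
      have h7 : cm ((blk wt k l (g * γ) - blk wt k k γ * blk wt k l g) * (blk wt l l γ)⁻¹) =
          (blk wt k l (cm g * cm γ) - blk wt k k (cm γ) *
          blk wt k l (cm g)) * (blk wt l l (cm γ))⁻¹ := by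
        rw [eDesc_cm_mul, eDesc_cm_sub, eDesc_cm_inv hul, eDesc_cm_mul (blk wt k k γ), ← cm_blk,
          ← cm_blk, ← cm_blk, ← cm_blk, eDesc_cm_mul g γ]
      exact congrFun (congrFun h7 x.1) x.2
    rw [Pi.sub_apply, Pi.add_apply, h6]
    simp only [vc, Matrix.sub_apply, Matrix.add_mul, Matrix.add_apply, cm_blk]

end MW38
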