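import Pool.Agent.LibMW38.Blk
import Pool.Agent.LibMW38.Kr

/-! The extension class: holomorphy, transversality. -/

open Matrix Complex
open UpperHalfPlane hiding I

namespace MW38

open SP38 US38

variable {ι : Type} [Fintype ι] [DecidableEq ι] {wt p : ι → ℤ} {Q : Matrix ι ι ℝ}
  {Φ : ℂ → Matrix ι ι ℂ} {g : Matrix ι ι ℝ} {k l : ℤ}

theorem psiT_det {β : Type} [Fintype β] [DecidableEq β] {U : Set ℂ} {A : ℂ → Matrix β β ℂ}
    (hA : ∀ i j, DifferentiableOn ℂ (fun z => A z i j) U) :
    DifferentiableOn ℂ (fun z => (A z).det) U := by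
  have h1 : (fun z => (A z).det) = fun z => ∑ τ : Equiv.Perm β,
      ((Equiv.Perm.sign τ : ℤ) : ℂ) * ∏ i, A z (τ i) i := by
    funext z
    rw [Matrix.det_apply']
  rw [h1]
  refine DifferentiableOn.fun_sum fun τ _ => ?_
  refine DifferentiableOn.const_mul ?_ _
  exact DifferentiableOn.fun_finsetProd fun i _ => hA _ _

theorem psiT_inv {β : Type} [Fintype β] [DecidableEq β] {S : Set ℂ} {M : ℂ → Matrix β β ℂ}
    (h : ∀ i j, DifferentiableOn ℂ (fun q => M q i j) S) (hu : ∀ q ∈ S, IsUnit (M q))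
    (i j : β) : DifferentiableOn ℂ (fun q => (M q)⁻¹ i j) S := by
  have e : ∀ q, (M q)⁻¹ i j = ((M q).det)⁻¹ * ((M q).updateRow j (Pi.single i 1)).det := by
    intro q
    rw [Matrix.inv_def, Ring.inverse_eq_inv', Matrix.smul_apply, smul_eq_mul,
      Matrix.adjugate_apply]
  simp only [e]
  refine DifferentiableOn.mul ((psiT_det h).inv fun q hq => ?_) (psiT_det fun a b => ?_)
  · exact ((Matrix.isUnit_iff_isUnit_det _).1 (hu q hq)).ne_zero
  · by_cases hab : a = j
    · subst hab
      simp only [Matrix.updateRow_self]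
      exact differentiableOn_const _
    · simp only [Matrix.updateRow_ne hab]
      exact h a b

theorem psi_hol (h : VMHS wt p Q Φ) (g : Matrix ι ι ℝ) (k l : ℤ) (i j) :
    DifferentiableOn ℂ (fun z => psi wt k l g (Φ z) i j) {z : ℂ | 0 < z.im} := by
  unfold psi
  simp only [Matrix.mul_apply, blk]
  refine DifferentiableOn.fun_sum fun b _ => DifferentiableOn.mul
    (DifferentiableOn.fun_sum fun a _ => (h.hol a b).const_mul _) ?_
  exact psiT_inv (M := fun z => blk wt l l (Φ z)) (fun a b => h.hol a b)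
    (fun z hz => ((h.mhs z hz).gr l).unit) b j

/-- the coordinates of the derivative of a column -/
theorem psiT_c (h : VMHS wt p Q Φ) {z : ℂ} (hz : 0 < z.im) (b : ι) :
    ∃ c : ι → ℂ, (∀ j, p j < p b - 1 → c j = 0) ∧ (∀ j, wt b < wt j → c j = 0) ∧
      ∀ i, deriv (fun z => Φ z i b) z = (Φ z *ᵥ c) i := by
  have hm := h.mhs z hz
  refine ⟨(Φ z)⁻¹ *ᵥ fun i => deriv (fun z => Φ z i b) z, ?_, ?_, ?_⟩
  · exact (mem_Fl_iff hm.unit _).1 (h.tr z hz b)
  · intro j hj
    have hi : Tri wt (Φ z)⁻¹ := hm.tri.inv hm.unit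
    simp only [Matrix.mulVec, dotProduct]
    refine Finset.sum_eq_zero fun i _ => ?_
    by_cases hij : wt i < wt j
    · rw [hi j i hij, zero_mul]
    · have h0 : deriv (fun z => Φ z i b) z = 0 := by
        have h1 : (fun z => Φ z i b) =ᶠ[nhds z] fun _ => 0 := by
          filter_upwards [(isOpen_lt continuous_const Complex.continuous_im).mem_nhds hz] with w hw
          exact (h.mhs w hw).tri i b (by omega)
        rw [h1.deriv_eq]; simp
      rw [h0, mul_zero]
  · intro i
    have h2 := (Matrix.isUnit_iff_isUnit_det _).1 hm.unit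
    rw [Matrix.mulVec_mulVec, Matrix.mul_nonsing_inv _ h2, Matrix.one_mulVec]

omit [DecidableEq ι] in
theorem psiT_sum (wt : ι → ℤ) (l : ℤ) (f : ι → ℂ) (hf : ∀ j, wt j ≠ l → f j = 0) :
    ∑ j, f j = ∑ j : {j // wt j = l}, f j := by
  rw [← Finset.sum_subtype (Finset.univ.filter fun j => wt j = l) (by simp) f]
  refine (Finset.sum_filter_of_ne fun j _ hj => ?_).symm
  by_contra h
  exact hj (hf j h)

/-- the product with a vector supported in weights at most `l`, in the block of weight `l` -/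
theorem psiT_blk {A : Matrix ι ι ℂ} (hA : Tri wt A) {c : ι → ℂ} (hc : ∀ j, l < wt j → c j = 0)
    (i : {i // wt i = l}) :
    (A *ᵥ c) i = (blk wt l l A *ᵥ fun j : {j // wt j = l} => c j) i := by
  simp only [Matrix.mulVec, dotProduct]
  refine psiT_sum wt l (fun j => A i j * c j) fun j hj => ?_
  rcases lt_or_gt_of_ne hj with h1 | h1
  · rw [hA i j (by rw [i.2]; exact h1), zero_mul]
  · rw [hc j h1, mul_zero]

theorem psi_tr (h : VMHS wt p Q Φ) (hg : Uni wt g) (hkl : k < l)
    (hc : ∀ z : ℂ, 0 < z.im → ∀ m, k < m → m < l → ColF wt p k m (cm g * Φ z) (Φ z)) {z : ℂ}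
    (hz : 0 < z.im) :
    (fun x : {i // wt i = k} × {j // wt j = l} =>
      deriv (fun z => vc (psi wt k l g (Φ z)) x) z) ∈
      Fl (pE (fun i : {i // wt i = k} => p i) (fun i : {i // wt i = l} => p i))
        (kr (blk wt k k (Φ z)) (blk wt l l (Φ z))) (-1) := by
  have hm := h.mhs z hz
  have hopen : IsOpen {z : ℂ | 0 < z.im} := isOpen_lt continuous_const Complex.continuous_im
  set P' : Matrix {i // wt i = k} {j // wt j = l} ℂ :=
    fun i j => deriv (fun z => psi wt k l g (Φ z) i j) z with hP'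
  change vc P' ∈ _
  rw [mem_Fl_hom (hm.gr k).unit (hm.gr l).unit]
  intro b
  obtain ⟨c, hc1, hc2, hc3⟩ := psiT_c h hz (b : ι)
  -- the derivative of `psi Φ_ll = (g Φ)_kl`
  have hpsi : ∀ w : ℂ, 0 < w.im → psi wt k l g (Φ w) * blk wt l l (Φ w) =
      blk wt k l (cm g * Φ w) := by
    intro w hw
    unfold psi
    rw [Matrix.mul_assoc, Matrix.nonsing_inv_mul _
      ((Matrix.isUnit_iff_isUnit_det _).1 ((h.mhs w hw).gr l).unit), Matrix.mul_one]
  have hder : ∀ i : {i // wt i = k}, (P' * blk wt l l (Φ z)) i b +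
      ∑ j : {j // wt j = l}, psi wt k l g (Φ z) i j * deriv (fun z => Φ z j b) z =
      ∑ a, cm g i a * deriv (fun z => Φ z a b) z := by
    intro i
    have hd1 : ∀ a c : ι, HasDerivAt (fun z => Φ z a c) (deriv (fun z => Φ z a c) z) z :=
      fun a c => ((h.hol a c).differentiableAt (hopen.mem_nhds hz)).hasDerivAt
    have hd2 : ∀ j : {j // wt j = l}, HasDerivAt (fun z => psi wt k l g (Φ z) i j) (P' i j) z :=
      fun j => ((psi_hol h g k l i j).differentiableAt (hopen.mem_nhds hz)).hasDerivAt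
    have h1 : HasDerivAt (fun w => ∑ j : {j // wt j = l}, psi wt k l g (Φ w) i j * Φ w j b)
        (∑ j : {j // wt j = l}, (P' i j * Φ z j b +
          psi wt k l g (Φ z) i j * deriv (fun z => Φ z j b) z)) z :=
      HasDerivAt.fun_sum fun j _ => (hd2 j).mul (hd1 j b)
    have h2 : HasDerivAt (fun w => ∑ a, cm g i a * Φ w a b)
        (∑ a, cm g i a * deriv (fun z => Φ z a b) z) z :=
      HasDerivAt.fun_sum fun a _ => (hd1 a b).const_mul _
    have h3 : (fun w => ∑ j : {j // wt j = l}, psi wt k l g (Φ w) i j * Φ w j b) =ᶠ[nhds z]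
        fun w => ∑ a, cm g i a * Φ w a b := by
      filter_upwards [hopen.mem_nhds hz] with w hw
      have := congrFun (congrFun (hpsi w hw) i) b
      simpa only [Matrix.mul_apply, blk] using this
    have h4 := (h1.congr_of_eventuallyEq h3.symm).unique h2
    rw [← h4, Finset.sum_add_distrib]
    simp only [Matrix.mul_apply, blk]
  -- the terms of weight `l` cancel
  have hl : ∀ j : {j // wt j = l}, deriv (fun z => Φ z j b) z =
      (blk wt l l (Φ z) *ᵥ fun j : {j // wt j = l} => c j) j := by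
    intro j
    rw [hc3]
    exact psiT_blk hm.tri (fun j hj => hc2 j (by rw [b.2]; exact hj)) j
  have hterm : ∀ i : {i // wt i = k}, ∑ j : {j // wt j = l},
      psi wt k l g (Φ z) i j * deriv (fun z => Φ z j b) z =
      ∑ j : {j // wt j = l}, (cm g * Φ z) i j * c j := by
    intro i
    have h1 : ∑ j : {j // wt j = l}, psi wt k l g (Φ z) i j * deriv (fun z => Φ z j b) z =
        (psi wt k l g (Φ z) *ᵥ (blk wt l l (Φ z) *ᵥ fun j : {j // wt j = l} => c j)) i := by
      simp only [Matrix.mulVec, dotProduct] at hl ⊢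
      exact Finset.sum_congr rfl fun j _ => by rw [hl j]
    rw [h1, Matrix.mulVec_mulVec, hpsi z hz]
    rfl
  have hall : ∀ i : {i // wt i = k}, ∑ a, cm g i a * deriv (fun z => Φ z a b) z =
      ∑ j, (cm g * Φ z) i j * c j := by
    intro i
    have h1 : ∑ a, cm g i a * deriv (fun z => Φ z a b) z = (cm g *ᵥ (Φ z *ᵥ c)) i := by
      simp only [Matrix.mulVec, dotProduct] at hc3 ⊢
      exact Finset.sum_congr rfl fun j _ => by rw [hc3 j]
    rw [h1, Matrix.mulVec_mulVec]
    rfl
  have hfin : (fun i => (P' * blk wt l l (Φ z)) i b) = ∑ j : ι,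
      (if wt j < l then c j else 0) • fun i : {i // wt i = k} => (cm g * Φ z) i j := by
    funext i
    rw [Finset.sum_apply]
    have h1 := hder i
    rw [hterm, hall] at h1
    have h2 : ∑ j : {j // wt j = l}, (cm g * Φ z) i j * c j =
        ∑ j, (if wt j = l then (cm g * Φ z) i j * c j else 0) := by
      rw [psiT_sum wt l (fun j => if wt j = l then (cm g * Φ z) i j * c j else 0)
        (fun j hj => by simp [hj])]
      exact Finset.sum_congr rfl fun j _ => by rw [if_pos j.2]
    rw [h2] at h1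
    rw [eq_sub_of_add_eq h1, ← Finset.sum_sub_distrib]
    refine Finset.sum_congr rfl fun j _ => ?_
    simp only [Pi.smul_apply, smul_eq_mul]
    rcases lt_trichotomy (wt j) l with h3 | h3 | h3
    · rw [if_neg h3.ne, if_pos h3]; ring
    · rw [if_pos h3, if_neg (by omega)]; ring
    · rw [if_neg h3.ne', if_neg (by omega), hc2 j (by rw [b.2]; exact h3)]; ring
  rw [hfin]
  refine Submodule.sum_mem _ fun j _ => ?_
  by_cases hjl : wt j < l
  · rw [if_pos hjl]
    by_cases hpj : p j < p b - 1
    · rw [hc1 j hpj, zero_smul]; exact Submodule.zero_mem _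
    refine Submodule.smul_mem _ _ ?_
    have hgt : Tri wt (cm g * Φ z) := (hg.tri.cm).mul hm.tri
    rcases lt_trichotomy (wt j) k with h3 | h3 | h3
    · have : (fun i : {i // wt i = k} => (cm g * Φ z) i j) = 0 := by
        funext i
        exact hgt i j (by rw [i.2]; exact h3)
      rw [this]; exact Submodule.zero_mem _
    · have h4 : blk wt k k (cm g * Φ z) = blk wt k k (Φ z) := by
        rw [blk_mul_diag hg.tri.cm hm.tri, cm_blk, hg.blk_self]
        simp [cm]
      have : (fun i : {i // wt i = k} => (cm g * Φ z) i j) =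
          fun i => blk wt k k (Φ z) i ⟨j, h3⟩ := by
        funext i
        exact congrFun (congrFun h4 i) ⟨j, h3⟩
      rw [this]
      exact col_mem_Fl (p := fun i : {i // wt i = k} => p i) (j := ⟨j, h3⟩)
        (show p (b : ι) + -1 ≤ p j by omega)
    · have h4 := hc z hz (wt j) h3 hjl ⟨j, rfl⟩
      exact Fl_anti (show p (b : ι) + -1 ≤ p j by omega) h4
  · rw [if_neg hjl, zero_smul]; exact Submodule.zero_mem _

end MW38
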