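import Pool.Agent.LibMW38.HomT
import Pool.Agent.LibMW38.PsiT
import Pool.Agent.LibMW38.Rig

/-! The variation `Hom (Gr_l, Gr_k)` with the extension class. -/

open Matrix Complex
open UpperHalfPlane hiding I

namespace MW38

open SP38 US38

variable {ι : Type} [Fintype ι] [DecidableEq ι] {wt p : ι → ℤ} {Q : Matrix ι ι ℝ}
  {Φ : ℂ → Matrix ι ι ℂ} {g : Matrix ι ι ℝ} {k l : ℤ}

theorem eVar_tr (h : VMHS wt p Q Φ) {z : ℂ} (hz : 0 < z.im) (k : ℤ) (b : {i // wt i = k}) :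
    (fun i : {i // wt i = k} => deriv (fun z => blk wt k k (Φ z) i b) z) ∈
      Fl (fun i : {i // wt i = k} => p i) (blk wt k k (Φ z)) (p b - 1) := by
  obtain ⟨c, hc1, hc2, hc3⟩ := psiT_c h hz (b : ι)
  rw [mem_Fl_iff_exists]
  refine ⟨fun j => c j, fun j hj => hc1 j hj, ?_⟩
  funext i
  rw [← psiT_blk (h.mhs z hz).tri (fun j hj => hc2 j (by rw [b.2]; exact hj)) i, ← hc3]
  rfl

theorem EVar (h : VMHS wt p Q Φ)
    (hs : ∃ s : Equiv.Perm ι, ∀ j, wt (s j) = wt j ∧ p (s j) = wt j - p j)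
    (hg : Uni wt g) (hkl : k < l)
    (hc : ∀ z : ℂ, 0 < z.im → ∀ m, k < m → m < l → ColF wt p k m (cm g * Φ z) (Φ z)) :
    VarA (k - l) (pE (fun i : {i // wt i = k} => p i) (fun i : {i // wt i = l} => p i))
      (kr (blk wt k k Q) (blk wt l l Q)) (fun z => kr (blk wt k k (Φ z)) (blk wt l l (Φ z)))
      (fun z => vc (psi wt k l g (Φ z))) where
  phs z hz := hom_phs ((h.mhs z hz).gr k) ((h.mhs z hz).gr l) (symm_blk hs k) (symm_blk hs l)
  holG := kr_hol (G₁ := fun z => blk wt k k (Φ z)) (G₂ := fun z => blk wt l l (Φ z))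
    (fun i j => h.hol i j) (fun i j => h.hol i j)
    (fun z hz => ((h.mhs z hz).gr l).unit)
  holn x := psi_hol h g k l x.1 x.2
  trG z hz y := kr_tr (S := {z : ℂ | 0 < z.im}) (G₁ := fun z => blk wt k k (Φ z))
    (G₂ := fun z => blk wt l l (Φ z))
    (isOpen_lt continuous_const Complex.continuous_im) (fun i j => h.hol i j)
    (fun i j => h.hol i j) (fun z hz => ((h.mhs z hz).gr k).unit)
    (fun z hz => ((h.mhs z hz).gr l).unit) hz (eVar_tr h hz k) (eVar_tr h hz l) y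
  trn z hz := psi_tr h hg hkl hc hz

end MW38
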