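import Pool.Agent.LibMW38.Defs

/-! Exponentials of the nilpotent operators on `Hom`. -/

open Matrix Complex

namespace MW38

open SP38 US38

variable {I J : Type} [Fintype I] [DecidableEq I] [Fintype J] [DecidableEq J]
  {A : Matrix I I ℝ} {B : Matrix J J ℝ} {c : Matrix I J ℝ}

theorem krn_mulVec {R : Type*} [CommRing R] (A : Matrix I I R) (B : Matrix J J R)
    (φ : Matrix I J R) : krn A B *ᵥ vc φ = vc (A * φ - φ * B) := by
  ext ⟨i, j⟩
  simp only [mulVec, dotProduct, krn, vc, Fintype.sum_prod_type, sub_mul, Finset.sum_sub_distrib,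
    Matrix.sub_apply, Matrix.mul_apply]
  congr 1
  · refine Finset.sum_congr rfl fun i' _ => ?_
    simp
  · rw [Finset.sum_comm]
    refine Finset.sum_congr rfl fun j' _ => ?_
    simp [mul_comm]

section gen

variable {R : Type*} [CommRing R]

/-- left multiplication -/
def expE_L (I J : Type) [Fintype I] [DecidableEq I] [Fintype J] [DecidableEq J]
    (R : Type*) [CommRing R] : Matrix I I R →+* Matrix (I × J) (I × J) R where
  toFun A := kroneckerMap (· * ·) A (1 : Matrix J J R)
  map_one' := Matrix.one_kronecker_one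
  map_mul' A A' := by
    have := Matrix.mul_kronecker_mul A A' (1 : Matrix J J R) (1 : Matrix J J R)
    rw [Matrix.one_mul] at this
    exact this
  map_zero' := Matrix.zero_kronecker _
  map_add' A A' := Matrix.add_kronecker _ _ _

/-- right multiplication by the transpose -/
def expE_R (I J : Type) [Fintype I] [DecidableEq I] [Fintype J] [DecidableEq J]
    (R : Type*) [CommRing R] : Matrix J J R →+* Matrix (I × J) (I × J) R where
  toFun C := kroneckerMap (· * ·) (1 : Matrix I I R) C
  map_one' := Matrix.one_kronecker_one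
  map_mul' A A' := by
    have := Matrix.mul_kronecker_mul (1 : Matrix I I R) (1 : Matrix I I R) A A'
    rw [Matrix.one_mul] at this
    exact this
  map_zero' := Matrix.kronecker_zero _
  map_add' A A' := Matrix.kronecker_add _ _ _

theorem expE_mul (P : Matrix I I R) (C : Matrix J J R) :
    expE_L I J R P * expE_R I J R C = kroneckerMap (· * ·) P C := by
  have := Matrix.mul_kronecker_mul P (1 : Matrix I I R) (1 : Matrix J J R) C
  rw [Matrix.mul_one, Matrix.one_mul] at this
  exact this.symm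

theorem expE_comm (P : Matrix I I R) (C : Matrix J J R) :
    Commute (expE_L I J R P) (expE_R I J R C) := by
  have := Matrix.mul_kronecker_mul (1 : Matrix I I R) P C (1 : Matrix J J R)
  rw [Matrix.mul_one, Matrix.one_mul] at this
  exact (expE_mul P C).trans this

theorem expE_krn (A : Matrix I I R) (B : Matrix J J R) :
    krn A B = expE_L I J R A + expE_R I J R (-Bᵀ) := by
  ext ⟨i, j⟩ ⟨i', j'⟩
  simp only [krn, expE_L, expE_R, RingHom.coe_mk, MonoidHom.coe_mk, OneHom.coe_mk,
    Matrix.add_apply, kroneckerMap_apply, Matrix.one_apply, Matrix.neg_apply, transpose_apply]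
  by_cases h : j = j'
  · simp [h, sub_eq_add_neg]
  · have h' : ¬ j' = j := fun e => h e.symm
    simp [h, h', sub_eq_add_neg]

theorem expE_nilT {C : Matrix J J R} (hC : IsNilpotent C) : IsNilpotent (-Cᵀ) := by
  obtain ⟨n, hn⟩ := hC
  refine IsNilpotent.neg ⟨n, ?_⟩
  rw [← Matrix.transpose_pow, hn, Matrix.transpose_zero]

theorem expE_nil {A : Matrix I I R} {B : Matrix J J R} (hA : IsNilpotent A)
    (hB : IsNilpotent B) : IsNilpotent (krn A B) := by
  rw [expE_krn]
  exact (expE_comm A (-Bᵀ)).isNilpotent_add (hA.map _) ((expE_nilT hB).map _)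

theorem expE_expT [Module ℚ R] {C : Matrix J J R} (hC : IsNilpotent C) :
    IsNilpotent.exp (-Cᵀ) = (IsNilpotent.exp (-C))ᵀ := by
  obtain ⟨n, hn⟩ := hC.neg
  have h1 : (-Cᵀ) ^ n = 0 := by
    rw [← Matrix.transpose_neg, ← Matrix.transpose_pow, hn, Matrix.transpose_zero]
  rw [IsNilpotent.exp_eq_sum hn, IsNilpotent.exp_eq_sum h1, Matrix.transpose_sum]
  refine Finset.sum_congr rfl fun i _ => ?_
  rw [← Matrix.transpose_neg, ← Matrix.transpose_pow]
  ext a b
  rfl

theorem expE_exp [Module ℚ R] {A : Matrix I I R} {B : Matrix J J R} (hA : IsNilpotent A)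
    (hB : IsNilpotent B) :
    IsNilpotent.exp (krn A B) = kr (IsNilpotent.exp A) (IsNilpotent.exp B) := by
  rw [expE_krn, IsNilpotent.exp_add_of_commute (expE_comm A (-Bᵀ)) (hA.map _)
    ((expE_nilT hB).map _), ← IsNilpotent.map_exp hA, ← IsNilpotent.map_exp (expE_nilT hB),
    expE_mul, expE_expT hB]
  ext x y
  have h1 : (IsNilpotent.exp B)⁻¹ = IsNilpotent.exp (-B) :=
    Matrix.inv_eq_right_inv (IsNilpotent.exp_mul_exp_neg_self hB)
  simp only [kr, kroneckerMap_apply, transpose_apply, h1]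

/-- the column of the extension -/
def expE_col (c : Matrix I J R) : Matrix (I × J) Unit R := fun x _ => c x.1 x.2

theorem expE_NE_pow (A : Matrix I I R) (B : Matrix J J R) (c : Matrix I J R) (n : ℕ) :
    (NE A B c) ^ (n + 1) = Matrix.fromBlocks ((krn A B) ^ (n + 1))
      ((krn A B) ^ n * expE_col c) 0 0 := by
  induction n with
  | zero =>
    rw [zero_add, pow_one, pow_one, pow_zero, Matrix.one_mul]
    rfl
  | succ n ih =>
    have h1 : NE A B c = Matrix.fromBlocks (krn A B) (expE_col c) 0 0 := rfl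
    rw [pow_succ' (NE A B c), ih, h1, Matrix.fromBlocks_multiply]
    simp only [Matrix.zero_mul, Matrix.mul_zero, add_zero]
    rw [← pow_succ' (krn A B), ← Matrix.mul_assoc, ← pow_succ' (krn A B)]

theorem expE_NE_nil {A : Matrix I I R} {B : Matrix J J R} (hA : IsNilpotent A)
    (hB : IsNilpotent B) (c : Matrix I J R) : IsNilpotent (NE A B c) := by
  obtain ⟨n, hn⟩ := expE_nil hA hB
  refine ⟨n + 1, ?_⟩
  rw [expE_NE_pow, hn, pow_succ, hn, Matrix.zero_mul, Matrix.zero_mul, Matrix.fromBlocks_zero]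

end gen

theorem krn_nil (hA : IsNilpotent A) (hB : IsNilpotent B) : IsNilpotent (krn A B) :=
  expE_nil hA hB

theorem NE_nil (hA : IsNilpotent A) (hB : IsNilpotent B) (c : Matrix I J ℝ) :
    IsNilpotent (NE A B c) := expE_NE_nil hA hB c

theorem exp_krn_real (hA : IsNilpotent A) (hB : IsNilpotent B) :
    IsNilpotent.exp (krn A B) = kr (IsNilpotent.exp A) (IsNilpotent.exp B) := expE_exp hA hB

theorem expE_cm_nil {K : Type} [Fintype K] [DecidableEq K] {A : Matrix K K ℝ}
    (hA : IsNilpotent A) (ζ : ℂ) : IsNilpotent (ζ • cm A) := by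
  obtain ⟨n, hn⟩ := hA
  refine ⟨n, ?_⟩
  have h1 : (cm A) ^ n = 0 := by
    have h2 : cm A = (ofRealHom.mapMatrix A : Matrix K K ℂ) := rfl
    rw [h2, ← map_pow, hn, map_zero]
  rw [smul_pow, h1, smul_zero]

theorem expE_cm_krn (A : Matrix I I ℝ) (B : Matrix J J ℝ) (ζ : ℂ) :
    ζ • cm (krn A B) = krn (ζ • cm A) (ζ • cm B) := by
  ext x y
  simp only [cm, krn, Matrix.smul_apply, Matrix.map_apply, smul_eq_mul]
  split_ifs <;> push_cast <;> ring

theorem exp_krn (hA : IsNilpotent A) (hB : IsNilpotent B) (ζ : ℂ) :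
    IsNilpotent.exp (ζ • cm (krn A B)) =
      kr (IsNilpotent.exp (ζ • cm A)) (IsNilpotent.exp (ζ • cm B)) := by
  rw [expE_cm_krn]
  exact expE_exp (expE_cm_nil hA ζ) (expE_cm_nil hB ζ)

end MW38
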