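import Pool.Agent.LibMW38.Alg
import Pool.Agent.LibSP38.Proj2

/-! Reindexing by `Fin m`. -/

open Matrix Complex
open UpperHalfPlane hiding I
open scoped ComplexOrder

namespace MW38

open SP38 US38

variable {α : Type} [Fintype α] [DecidableEq α] {p : α → ℤ} {G : Matrix α α ℂ} {a w : ℤ} {m : ℕ}
  {Q : Matrix α α ℝ}

theorem gen1_mulVec (e : α ≃ Fin m) (A : Matrix α α ℂ) (u : α → ℂ) :
    Matrix.reindex e e A *ᵥ (fun i => u (e.symm i)) = fun i => (A *ᵥ u) (e.symm i) := by
  rw [Matrix.reindex_apply, Matrix.submatrix_mulVec_equiv]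
  funext i
  simp [Function.comp_def]

theorem mem_Fl_reindex (e : α ≃ Fin m) (v : α → ℂ) :
    v ∈ Fl p G a ↔ (fun i => v (e.symm i)) ∈ Fil (fun i => p (e.symm i)) (Matrix.reindex e e G) a := by
  rw [mem_Fl_iff_exists, proj1_mem_Fil]
  constructor
  · rintro ⟨c, hc, rfl⟩
    exact ⟨fun i => c (e.symm i), fun j hj => hc _ hj, (gen1_mulVec e G c).symm⟩
  · rintro ⟨c, hc, hv⟩
    refine ⟨fun j => c (e j), fun j hj => hc _ (by simpa using hj), ?_⟩
    have h1 := gen1_mulVec e G (fun j => c (e j))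
    have h2 : (fun i => (fun j => c (e j)) (e.symm i)) = c := by funext i; simp
    rw [h2, ← hv] at h1
    funext j
    have := congrFun h1 (e j)
    simpa using this

theorem gen1_bil (e : α ≃ Fin m) (Q : Matrix α α ℝ) (u v : Fin m → ℂ) :
    bil (Matrix.reindex e e Q) u v = bl Q (fun j => u (e j)) (fun j => v (e j)) := by
  unfold bil bl
  rw [← Equiv.sum_comp e]
  refine Finset.sum_congr rfl fun i _ => ?_
  rw [← Equiv.sum_comp e]
  refine Finset.sum_congr rfl fun j _ => ?_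
  simp

theorem gen1_mem (e : α ≃ Fin m) {v : Fin m → ℂ}
    (hv : v ∈ Fil (fun i => p (e.symm i)) (Matrix.reindex e e G) a) :
    (fun j => v (e j)) ∈ Fl p G a := by
  rw [mem_Fl_reindex e]
  have : (fun i => (fun j => v (e j)) (e.symm i)) = v := by funext i; simp
  rw [this]
  exact hv

theorem PHS.reindex (h : PHS w p Q G) (e : α ≃ Fin m) :
    IsPHS w (fun i => p (e.symm i)) (Matrix.reindex e e Q) (Matrix.reindex e e G) where
  unit := by
    rw [Matrix.isUnit_iff_isUnit_det, Matrix.det_reindex_self, ← Matrix.isUnit_iff_isUnit_det]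
    exact h.unit
  riem a b hab u hu v hv := by
    rw [gen1_bil]
    exact h.riem a b hab _ (gen1_mem e hu) _ (gen1_mem e hv)
  pos a v hv hv' hv0 := by
    rw [gen1_bil]
    refine h.pos a _ (gen1_mem e hv) (gen1_mem e hv') ?_
    intro h0
    apply hv0
    funext i
    have := congrFun h0 (e.symm i)
    simpa using this

/-- the Hodge decomposition by projectors -/
structure HDA (w : ℤ) (K : ℕ) (Q : Matrix α α ℝ) (P : ℤ → Matrix α α ℂ) : Prop where
  mul : ∀ a b, P a * P b = if a = b then P a else 0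
  supp : ∀ a : ℤ, (K : ℤ) < |a| → P a = 0
  sum : ∑ a ∈ Finset.Icc (-(K : ℤ)) K, P a = 1
  conj : ∀ a, (P a).map (starRingEnd ℂ) = P (w - a)
  orth : ∀ a b, a + b ≠ w → (P a)ᵀ * cm Q * P b = 0
  posDef : (∑ a ∈ Finset.Icc (-(K : ℤ)) K, (I ^ (2 * a - w)) • ((cm Q)ᵀ * P a)).PosDef

theorem gen1_hda {K : ℕ} (e : α ≃ Fin m) {P : ℤ → Matrix (Fin m) (Fin m) ℂ}
    (h : HD w K (Matrix.reindex e e Q) P) : HDA w K Q (fun a => (P a).submatrix e e) := by
  have hQ : cm Q = (cm (Matrix.reindex e e Q)).submatrix e e := by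
    ext i j
    simp [cm]
  have hsum : ∀ f : ℤ → Matrix (Fin m) (Fin m) ℂ,
      ∑ a ∈ Finset.Icc (-(K : ℤ)) K, (f a).submatrix e e =
        (∑ a ∈ Finset.Icc (-(K : ℤ)) K, f a).submatrix e e := by
    intro f
    ext i j
    simp [Matrix.sum_apply]
  refine ⟨?_, ?_, ?_, ?_, ?_, ?_⟩
  · intro a b
    rw [Matrix.submatrix_mul_equiv, h.mul]
    by_cases hab : a = b
    · rw [if_pos hab, if_pos hab]
    · rw [if_neg hab, if_neg hab]
      rfl
  · intro a ha
    simp only [h.supp a ha]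
    rfl
  · rw [hsum, h.sum, Matrix.submatrix_one_equiv]
  · intro a
    rw [← h.conj a]
    rfl
  · intro a b hab
    rw [hQ, Matrix.transpose_submatrix, Matrix.submatrix_mul_equiv, Matrix.submatrix_mul_equiv,
      h.orth a b hab]
    rfl
  · have h1 : ∑ a ∈ Finset.Icc (-(K : ℤ)) K, (I ^ (2 * a - w)) • ((cm Q)ᵀ * (P a).submatrix e e) =
        (metr w K (Matrix.reindex e e Q) P).submatrix e e := by
      rw [metr, ← hsum]
      refine Finset.sum_congr rfl fun a _ => ?_
      rw [hQ, Matrix.transpose_submatrix, Matrix.submatrix_mul_equiv, Matrix.submatrix_smul]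
      rfl
    rw [h1]
    exact h.posDef.submatrix e.injective

theorem PHS.exists_proj (h : PHS w p Q G) (hs : ∃ s : Equiv.Perm α, ∀ j, p (s j) = w - p j) :
    ∃ K₀ : ℕ, ∀ K : ℕ, K₀ ≤ K → ∃ P : ℤ → Matrix α α ℂ, HDA w K Q P ∧
      ∀ a v, v ∈ Fl p G a ↔ ∀ b, b < a → P b *ᵥ v = 0 := by
  obtain ⟨s, hs⟩ := hs
  set e := Fintype.equivFin α with he
  have h' := h.reindex e
  set s' : Equiv.Perm (Fin (Fintype.card α)) := (e.symm.trans s).trans e with hs'def
  have hs' : ∀ j, (fun i => p (e.symm i)) (s' j) = w - (fun i => p (e.symm i)) j := by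
    intro j
    simp [hs'def, hs]
  refine ⟨Finset.univ.sup (fun j => (p j).natAbs), fun K hK => ?_⟩
  have hK' : ∀ j, |(fun i => p (e.symm i)) j| ≤ K := by
    intro j
    have h1 : (p (e.symm j)).natAbs ≤ Finset.univ.sup (fun j => (p j).natAbs) :=
      Finset.le_sup (f := fun j => (p j).natAbs) (Finset.mem_univ (e.symm j))
    have h2 : (p (e.symm j)).natAbs ≤ K := h1.trans hK
    simp only
    rw [Int.abs_eq_natAbs]
    exact_mod_cast h2
  have hd := h'.hd hs' hK'
  refine ⟨fun a => (PP _ s' (Matrix.reindex e e G) a).submatrix e e, gen1_hda e hd, ?_⟩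
  intro a v
  rw [mem_Fl_reindex e, h'.mem_Fil_iff_PP hs']
  refine forall_congr' fun b => ?_
  refine imp_congr_right fun _ => ?_
  rw [Matrix.submatrix_mulVec_equiv]
  constructor
  · intro h0
    have : v ∘ e.symm = fun i => v (e.symm i) := rfl
    rw [this, h0]
    rfl
  · intro h0
    funext i
    have := congrFun h0 (e.symm i)
    simpa [Function.comp_def] using this

theorem PHS.isUnit_Q (h : PHS w p Q G) (hs : ∃ s : Equiv.Perm α, ∀ j, p (s j) = w - p j) :
    IsUnit Q := by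
  obtain ⟨K, hK⟩ := h.exists_proj hs
  obtain ⟨P, hP, -⟩ := hK K le_rfl
  have h1 := hP.posDef.isUnit
  have h2 : ∑ a ∈ Finset.Icc (-(K : ℤ)) K, (I ^ (2 * a - w)) • ((cm Q)ᵀ * P a) =
      (cm Q)ᵀ * ∑ a ∈ Finset.Icc (-(K : ℤ)) K, (I ^ (2 * a - w)) • P a := by
    rw [Finset.mul_sum]
    refine Finset.sum_congr rfl fun a _ => ?_
    rw [Matrix.mul_smul]
  rw [h2, Matrix.isUnit_iff_isUnit_det, Matrix.det_mul, Matrix.det_transpose] at h1
  have h3 : (cm Q).det = ((Q.det : ℝ) : ℂ) := by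
    exact (Complex.ofRealHom.map_det Q).symm
  rw [h3] at h1
  have h4 : (Q.det : ℂ) ≠ 0 := (isUnit_of_mul_isUnit_left h1).ne_zero
  rw [Matrix.isUnit_iff_isUnit_det]
  exact isUnit_iff_ne_zero.mpr (by exact_mod_cast h4)

end MW38
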