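import Pool.Agent.LibMW38.Gen1
import Pool.Agent.LibUS38.Defs

/-! The uniform bound for general index types. -/

open Matrix Complex MeasureTheory
open UpperHalfPlane hiding I

namespace MW38

open SP38 US38

variable {α : Type} [Fintype α] [DecidableEq α] {p : α → ℤ} {w : ℤ} {m : ℕ}
  {Q : Matrix α α ℝ} {G : ℂ → Matrix α α ℂ} {ν : ℂ → α → ℂ}
  {Δ : Subgroup (Matrix.SpecialLinearGroup (Fin 2) ℝ)}

theorem gen2_exp_zero {A : Type*} [Ring A] [Module ℚ A] {x : A} (h : ¬ IsNilpotent x) :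
    IsNilpotent.exp x = 0 := by
  have h1 : nilpotencyClass x = 0 := by
    by_contra h2
    exact h (isNilpotent_of_pos_nilpotencyClass (Nat.pos_of_ne_zero h2))
  rw [IsNilpotent.exp, h1]
  rfl

theorem gen2_exp {β γ R : Type} [Fintype β] [DecidableEq β] [Fintype γ] [DecidableEq γ]
    [CommRing R] [Module ℚ (Matrix β β R)] [Module ℚ (Matrix γ γ R)] (e : β ≃ γ)
    (A : Matrix β β R) :
    IsNilpotent.exp (Matrix.reindex e e A) = Matrix.reindex e e (IsNilpotent.exp A) := by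
  by_cases h : IsNilpotent A
  · exact (IsNilpotent.map_exp h (Matrix.reindexAlgEquiv R R e)).symm
  · have h' : ¬ IsNilpotent (Matrix.reindex e e A) := by
      rintro ⟨k, hk⟩
      apply h
      refine ⟨k, (Matrix.reindexAlgEquiv R R e).injective ?_⟩
      rw [map_pow, map_zero]
      exact hk
    rw [gen2_exp_zero h, gen2_exp_zero h']
    rfl

theorem gen2_mul {β γ R : Type} [Fintype β] [Fintype γ] [CommRing R] (e : β ≃ γ)
    (A B : Matrix β β R) :
    Matrix.reindex e e A * Matrix.reindex e e B = Matrix.reindex e e (A * B) :=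
  Matrix.submatrix_mul_equiv A B e.symm e.symm e.symm

theorem gen2_isUnit {R : Type} [CommRing R] (e : α ≃ Fin m) {A : Matrix α α R} (h : IsUnit A) :
    IsUnit (Matrix.reindex e e A) := by
  have h1 := h.map (Matrix.reindexAlgEquiv R R e)
  exact h1

theorem gen2_mulVec {β γ R : Type} [Fintype β] [Fintype γ] [CommRing R] (e : β ≃ γ)
    (A : Matrix β β R) (v : γ → R) :
    Matrix.reindex e e A *ᵥ v = fun i => (A *ᵥ (fun j => v (e j))) (e.symm i) :=
  Matrix.submatrix_mulVec_equiv A v e.symm e.symm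

theorem gen2_mem (e : α ≃ Fin m) {H : Matrix α α ℂ} {a : ℤ} (v : Fin m → ℂ) :
    v ∈ Fil (fun i => p (e.symm i)) (Matrix.reindex e e H) a ↔ (fun i => v (e i)) ∈ Fl p H a := by
  have h1 := mem_Fl_reindex (p := p) (G := H) (a := a) e (fun i => v (e i))
  rw [h1]
  simp

theorem gen2_map (e : α ≃ Fin m) {H H' : Matrix α α ℂ} {a : ℤ} {γ : Matrix α α ℝ}
    (h : Fl p H' a = (Fl p H a).map (Matrix.mulVecLin (cm γ))) :
    Fil (fun i => p (e.symm i)) (Matrix.reindex e e H') a =
      (Fil (fun i => p (e.symm i)) (Matrix.reindex e e H) a).map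
        (Matrix.mulVecLin (cm (Matrix.reindex e e γ))) := by
  have hcm : cm (Matrix.reindex e e γ) = Matrix.reindex e e (cm γ) := rfl
  ext v
  rw [gen2_mem, h, Submodule.mem_map, Submodule.mem_map]
  constructor
  · rintro ⟨u, hu, hv⟩
    refine ⟨fun i => u (e.symm i), (mem_Fl_reindex e u).1 hu, ?_⟩
    rw [Matrix.mulVecLin_apply] at hv ⊢
    rw [hcm, gen2_mulVec]
    simp only [Equiv.symm_apply_apply]
    rw [hv]
    simp
  · rintro ⟨u, hu, hv⟩
    refine ⟨fun i => u (e i), (gen2_mem e u).1 hu, ?_⟩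
    rw [Matrix.mulVecLin_apply] at hv ⊢
    rw [hcm, gen2_mulVec] at hv
    rw [← hv]
    simp

theorem gen2_eq (e : α ≃ Fin m) {H H' : Matrix α α ℂ} {a : ℤ}
    (h : Fl p H' a = Fl p H a) :
    Fil (fun i => p (e.symm i)) (Matrix.reindex e e H') a =
      Fil (fun i => p (e.symm i)) (Matrix.reindex e e H) a := by
  ext v
  rw [gen2_mem, h, gen2_mem]

theorem VarA.reindex (h : VarA w p Q G ν) (e : α ≃ Fin m) :
    IsVar w (fun i => p (e.symm i)) (Matrix.reindex e e Q) (fun z => Matrix.reindex e e (G z))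
      (fun z i => ν z (e.symm i)) where
  phs z hz := (h.phs z hz).reindex e
  holG i j := h.holG (e.symm i) (e.symm j)
  holn i := h.holn (e.symm i)
  trG z hz j := (mem_Fl_reindex e _).1 (h.trG z hz (e.symm j))
  trn z hz := (mem_Fl_reindex e _).1 (h.trn z hz)

theorem DescA.reindex (h : DescA p Q G ν Δ) (e : α ≃ Fin m) :
    DescendsR (fun i => p (e.symm i)) (Matrix.reindex e e Q) (fun z => Matrix.reindex e e (G z))
      (fun z i => ν z (e.symm i)) Δ := by
  intro δ hδ
  obtain ⟨γ, b, h1, h2, h3⟩ := h δ hδ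
  refine ⟨Matrix.reindex e e γ, fun i => b (e.symm i), gen2_isUnit e h1, ?_, fun τ => ?_⟩
  · have h4 : (Matrix.reindex e e γ)ᵀ = Matrix.reindex e e γᵀ := rfl
    rw [h4, gen2_mul, gen2_mul, h2]
  · obtain ⟨h5, h6⟩ := h3 τ
    refine ⟨fun a => gen2_map e (h5 a), ?_⟩
    have h7 := (mem_Fl_reindex e _).1 h6
    have h8 : (fun i => ν ((δ • τ : ℍ) : ℂ) (e.symm i)) -
        (cm (Matrix.reindex e e γ) *ᵥ (fun i => ν (τ : ℂ) (e.symm i)) +
          ofR (fun i => b (e.symm i))) =
        fun i => (ν ((δ • τ : ℍ) : ℂ) - (cm γ *ᵥ ν (τ : ℂ) + fun i => (b i : ℂ))) (e.symm i) := by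
      have h9 : cm (Matrix.reindex e e γ) = Matrix.reindex e e (cm γ) := rfl
      rw [h9, gen2_mulVec]
      simp only [Equiv.symm_apply_apply]
      rfl
    rw [h8]
    exact h7

theorem AdmA.reindex {σ : Matrix.SpecialLinearGroup (Fin 2) ℝ} (h : AdmA p Q G ν Δ σ)
    (e : α ≃ Fin m) :
    AdmissibleAt (fun i => p (e.symm i)) (Matrix.reindex e e Q)
      (fun z => Matrix.reindex e e (G z)) (fun z i => ν z (e.symm i)) Δ σ := by
  obtain ⟨t, N, Ψ, β, ε, h1, h2, h3, h4, h5, h6, h7, h8, h9, h10⟩ := h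
  have hE : ∀ (c : ℂ) (v : α → ℂ) (i : Fin m),
      (IsNilpotent.exp (c • cm (Matrix.reindex (e.sumCongr (Equiv.refl Unit))
        (e.sumCongr (Equiv.refl Unit)) N)) *ᵥ Sum.elim (fun i => v (e.symm i)) 1) (Sum.inl i) =
      (IsNilpotent.exp (c • cm N) *ᵥ Sum.elim v 1) (Sum.inl (e.symm i)) := by
    intro c v i
    have e1 : c • cm (Matrix.reindex (e.sumCongr (Equiv.refl Unit))
        (e.sumCongr (Equiv.refl Unit)) N) = Matrix.reindex (e.sumCongr (Equiv.refl Unit))
        (e.sumCongr (Equiv.refl Unit)) (c • cm N) := rfl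
    rw [e1, gen2_exp, gen2_mulVec]
    have e2 : (fun j => Sum.elim (fun i => v (e.symm i)) (1 : Unit → ℂ)
        ((e.sumCongr (Equiv.refl Unit)) j)) = Sum.elim v 1 := by
      funext j
      rcases j with j | j
      · simp
      · rfl
    rw [e2]
    rfl
  refine ⟨t, Matrix.reindex (e.sumCongr (Equiv.refl Unit)) (e.sumCongr (Equiv.refl Unit)) N,
    fun q => Matrix.reindex e e (Ψ q), fun q i => β q (e.symm i), ε, h1, h2, h3, ?_, ?_, ?_,
    fun i j => h7 (e.symm i) (e.symm j), fun i => h8 (e.symm i), fun q hq => gen2_isUnit e (h9 q hq),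
    fun τ hτ => ?_⟩
  · obtain ⟨k, hk⟩ := h4
    refine ⟨k, ?_⟩
    have e1 := congrArg (Matrix.reindexAlgEquiv ℝ ℝ (e.sumCongr (Equiv.refl Unit))) hk
    rw [map_pow, map_zero] at e1
    exact e1
  · intro j
    rcases j with j | j
    · exact h5 (Sum.inl (e.symm j))
    · exact h5 (Sum.inr j)
  · have e1 : hb (Matrix.reindex (e.sumCongr (Equiv.refl Unit)) (e.sumCongr (Equiv.refl Unit)) N) =
        Matrix.reindex e e N.toBlocks₁₁ := rfl
    have e2 : ∀ X : Matrix α α ℝ, (Matrix.reindex e e X)ᵀ = Matrix.reindex e e Xᵀ := fun _ => rfl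
    rw [e1, gen2_exp, e2, gen2_mul, gen2_mul, h6]
  · obtain ⟨h11, h12⟩ := h10 τ hτ
    constructor
    · intro a
      have e1 : ((τ : ℂ) / t) • cm (hb (Matrix.reindex (e.sumCongr (Equiv.refl Unit))
          (e.sumCongr (Equiv.refl Unit)) N)) =
          Matrix.reindex e e (((τ : ℂ) / t) • cm N.toBlocks₁₁) := rfl
      rw [e1, gen2_exp, gen2_mul]
      exact gen2_eq e (h11 a)
    · have h13 := (mem_Fl_reindex e _).1 h12
      refine (congrArg (fun v => v ∈ Fil (fun i => p (e.symm i))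
        (Matrix.reindex e e (G ((σ • τ : ℍ) : ℂ))) 0) ?_).mpr h13
      funext i
      simp only [Pi.sub_apply]
      rw [hE]

end MW38
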