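import Pool.Agent.LibMW38.Gen2
import Pool.Agent.LibUS38.Fin

/-! The uniform bound for general index types. -/

open Matrix Complex MeasureTheory
open UpperHalfPlane hiding I

namespace MW38

open SP38 US38

variable {κ : Type} [Fintype κ] {α : Type} [Fintype α] [DecidableEq α] {p : α → ℤ} {w : ℤ}
  {Q : Matrix α α ℝ} {G : ℂ → Matrix α α ℂ} {ν : ℂ → α → ℂ}
  {Δ : Subgroup (Matrix.SpecialLinearGroup (Fin 2) ℝ)}
  {σ : κ → Matrix.SpecialLinearGroup (Fin 2) ℝ} {h : κ → ℝ} {D : Set ℍ}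

theorem mainA (hc : IsCurve Δ σ h D) (hv : VarA w p Q G ν) (hd : DescA p Q G ν Δ)
    (hs : ∃ s : Equiv.Perm α, ∀ j, p (s j) = w - p j) (hns : ∀ j, p j < -1 ∨ w - p j < -1)
    (ha : ∀ i, AdmA p Q G ν Δ (σ i)) (K : Subfield ℝ) :
    (∃ e : α → ℝ, (∀ i, e i ∈ K) ∧ ∀ τ : ℍ,
      ν (τ : ℂ) - (fun i => (e i : ℂ)) ∈ Fl p (G (τ : ℂ)) 0) ∨
    ∃ Z : Finset ℍ, (Z.card : ℝ) * Real.pi ≤ (∑ j, ((p j : ℝ) - w / 2) ^ 2) * (volume D).toReal ∧
      ∀ τ : ℍ, (∃ e : α → ℝ, (∀ i, e i ∈ K) ∧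
        ν (τ : ℂ) - (fun i => (e i : ℂ)) ∈ Fl p (G (τ : ℂ)) 0) → ∃ δ ∈ Δ, δ • τ ∈ Z := by
  obtain ⟨s, hs⟩ := hs
  set f : α ≃ Fin (Fintype.card α) := Fintype.equivFin α with hf
  have hs' : ∀ j, p (f.symm ((f.symm.trans (s.trans f)) j)) = w - p (f.symm j) := by
    intro j
    simp only [Equiv.trans_apply, Equiv.symm_apply_apply]
    exact hs _
  have hmain := US38.main (s := f.symm.trans (s.trans f)) hc (hv.reindex f) (hd.reindex f) hs'
    (fun j => hns (f.symm j)) (fun i => (ha i).reindex f) K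
  rcases hmain with ⟨e, he, he'⟩ | ⟨Z, hZ, hZ'⟩
  · left
    refine ⟨fun i => e (f i), fun i => he (f i), fun τ => ?_⟩
    have h1 := (gen2_mem f _).1 (he' τ)
    refine (congrArg (fun v => v ∈ Fl p (G (τ : ℂ)) 0) ?_).mpr h1
    funext i
    simp [ofR]
  · right
    refine ⟨Z, ?_, fun τ hτ => hZ' τ ?_⟩
    · refine hZ.trans (le_of_eq ?_)
      congr 1
      exact Equiv.sum_comp f.symm (fun j => ((p j : ℝ) - w / 2) ^ 2)
    · obtain ⟨e, he, he'⟩ := hτ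
      refine ⟨fun i => e (f.symm i), fun i => he (f.symm i), ?_⟩
      have h1 := (mem_Fl_reindex f _).1 he'
      exact h1

end MW38
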