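import Pool.Agent.LibMW38.Gen1
import Pool.Agent.LibMW38.Kr

/-! `Hom` of two polarized pure Hodge structures. -/

open Matrix Complex

namespace MW38

open SP38 US38

variable {I J : Type} [Fintype I] [DecidableEq I] [Fintype J] [DecidableEq J]
  {w₁ w₂ : ℤ} {p₁ : I → ℤ} {p₂ : J → ℤ} {Q₁ : Matrix I I ℝ} {Q₂ : Matrix J J ℝ}
  {G₁ : Matrix I I ℂ} {G₂ : Matrix J J ℂ}

theorem hom1_cm_inv (B : Matrix J J ℝ) : (cm B)⁻¹ = cm B⁻¹ := by
  have h1 : cm B = Complex.ofRealHom.mapMatrix B := rfl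
  have h2 : cm B⁻¹ = Complex.ofRealHom.mapMatrix B⁻¹ := rfl
  rw [h1, h2, Matrix.inv_def, Matrix.inv_def, ← RingHom.map_det, ← RingHom.map_adjugate,
    Ring.inverse_eq_inv', Ring.inverse_eq_inv']
  ext i j
  simp

/-- the bilinear form of `Hom` -/
theorem bl_kr (φ φ' : Matrix I J ℂ) : bl (kr Q₁ Q₂) (vc φ) (vc φ') =
    Matrix.trace (φᵀ * cm Q₁ * φ' * (cm Q₂)⁻¹) := by
  rw [hom1_cm_inv]
  have hL : bl (kr Q₁ Q₂) (vc φ) (vc φ') = ∑ i, ∑ j, ∑ i', ∑ j',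
      φ i j * (Q₁ i i' : ℂ) * φ' i' j' * (Q₂⁻¹ j' j : ℂ) := by
    unfold bl
    rw [Fintype.sum_prod_type]
    refine Finset.sum_congr rfl fun i _ => Finset.sum_congr rfl fun j _ => ?_
    rw [Fintype.sum_prod_type]
    refine Finset.sum_congr rfl fun i' _ => Finset.sum_congr rfl fun j' _ => ?_
    simp only [vc, kr]
    push_cast
    ring
  have hR : Matrix.trace (φᵀ * cm Q₁ * φ' * cm Q₂⁻¹) = ∑ j, ∑ j', ∑ i', ∑ i,
      φ i j * (Q₁ i i' : ℂ) * φ' i' j' * (Q₂⁻¹ j' j : ℂ) := by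
    simp only [Matrix.trace, Matrix.diag_apply, Matrix.mul_apply, Finset.sum_mul,
      Matrix.transpose_apply, cm, Matrix.map_apply]
  rw [hL, hR]
  rw [Finset.sum_comm]
  refine Finset.sum_congr rfl fun j _ => ?_
  have e1 : ∀ i, ∑ i', ∑ j', φ i j * (Q₁ i i' : ℂ) * φ' i' j' * (Q₂⁻¹ j' j : ℂ) =
      ∑ j', ∑ i', φ i j * (Q₁ i i' : ℂ) * φ' i' j' * (Q₂⁻¹ j' j : ℂ) := fun i =>
    Finset.sum_comm
  rw [Finset.sum_congr rfl fun i _ => e1 i, Finset.sum_comm]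
  refine Finset.sum_congr rfl fun j' _ => ?_
  exact Finset.sum_comm

theorem hom1_cm_unit {B : Matrix J J ℝ} (hB : IsUnit B) : IsUnit (cm B) := by
  have h1 : cm B = Complex.ofRealHom.mapMatrix B := rfl
  rw [h1]
  exact hB.map _

/-- the pieces are dual to each other -/
theorem hom1_dual {w : ℤ} {K : ℕ} {Q : Matrix J J ℝ} {P : ℤ → Matrix J J ℂ} (h : HDA w K Q P)
    (c : ℤ) : cm Q * P c = (P (w - c))ᵀ * cm Q := by
  have hz : ∀ a : ℤ, a ∉ Finset.Icc (-(K : ℤ)) K → P a = 0 := by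
    intro a ha
    apply h.supp
    rw [Finset.mem_Icc] at ha
    by_contra hh
    exact ha (abs_le.mp (not_lt.mp hh))
  have e1 : cm Q * P c = (P (w - c))ᵀ * cm Q * P c := by
    have e : (1 : Matrix J J ℂ)ᵀ * cm Q * P c = (P (w - c))ᵀ * cm Q * P c := by
      rw [← h.sum, Matrix.transpose_sum, Finset.sum_mul, Finset.sum_mul]
      by_cases hc : w - c ∈ Finset.Icc (-(K : ℤ)) K
      · refine Finset.sum_eq_single_of_mem _ hc fun b _ hb => ?_
        exact h.orth b c (by omega)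
      · rw [hz _ hc, Matrix.transpose_zero, Matrix.zero_mul, Matrix.zero_mul]
        refine Finset.sum_eq_zero fun b hb => ?_
        apply h.orth
        rintro e
        apply hc
        rw [← e, add_sub_cancel_right]
        exact hb
    rw [Matrix.transpose_one, Matrix.one_mul] at e
    exact e
  have e2 : (P (w - c))ᵀ * cm Q = (P (w - c))ᵀ * cm Q * P c := by
    have e : (P (w - c))ᵀ * cm Q * (1 : Matrix J J ℂ) = (P (w - c))ᵀ * cm Q * P c := by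
      rw [← h.sum, Finset.mul_sum]
      by_cases hc : c ∈ Finset.Icc (-(K : ℤ)) K
      · refine Finset.sum_eq_single_of_mem _ hc fun b _ hb => ?_
        exact h.orth _ _ (by omega)
      · rw [hz _ hc, Matrix.mul_zero]
        refine Finset.sum_eq_zero fun b hb => ?_
        apply h.orth
        intro e
        apply hc
        have : b = c := by omega
        rw [← this]
        exact hb
    rw [Matrix.mul_one] at e
    exact e
  rw [e1, ← e2]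

theorem hom1_mem {w : ℤ} {K : ℕ} {Q : Matrix J J ℝ} {P : ℤ → Matrix J J ℂ} (h : HDA w K Q P)
    {p : J → ℤ} {G : Matrix J J ℂ} (hF : ∀ a v, v ∈ Fl p G a ↔ ∀ b, b < a → P b *ᵥ v = 0) (c : ℤ)
    (i : J) : (fun j => P c j i) ∈ Fl p G c := by
  rw [hF]
  intro b hb
  have e : P b *ᵥ (fun j => P c j i) = fun k => (P b * P c) k i := by
    funext k
    simp only [Matrix.mulVec, dotProduct, Matrix.mul_apply]
  rw [e, h.mul, if_neg hb.ne]
  rfl

/-- first Riemann relation -/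
theorem hom_riem (h1 : PHS w₁ p₁ Q₁ G₁) (h2 : PHS w₂ p₂ Q₂ G₂)
    (hs1 : ∃ s : Equiv.Perm I, ∀ j, p₁ (s j) = w₁ - p₁ j)
    (hs2 : ∃ s : Equiv.Perm J, ∀ j, p₂ (s j) = w₂ - p₂ j) {a b : ℤ} (hab : w₁ - w₂ < a + b)
    {φ φ' : Matrix I J ℂ} (hφ : vc φ ∈ Fl (pE p₁ p₂) (kr G₁ G₂) a)
    (hφ' : vc φ' ∈ Fl (pE p₁ p₂) (kr G₁ G₂) b) :
    bl (kr Q₁ Q₂) (vc φ) (vc φ') = 0 := by
  have _ := hs1
  obtain ⟨K, hK⟩ := h2.exists_proj hs2
  obtain ⟨P, hP, hF⟩ := hK K le_rfl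
  rw [mem_Fl_hom' h1.unit h2.unit] at hφ hφ'
  have hQ2 : IsUnit (cm Q₂).det :=
    (Matrix.isUnit_iff_isUnit_det _).mp (hom1_cm_unit (h2.isUnit_Q hs2))
  have hdual : ∀ c, P c * (cm Q₂)⁻¹ = (cm Q₂)⁻¹ * (P (w₂ - c))ᵀ := by
    intro c
    have e := hom1_dual hP c
    have e3 : P c = (cm Q₂)⁻¹ * ((P (w₂ - c))ᵀ * cm Q₂) := by
      rw [← e, ← Matrix.mul_assoc, Matrix.nonsing_inv_mul _ hQ2, Matrix.one_mul]
    conv_lhs => rw [e3]
    rw [Matrix.mul_assoc, Matrix.mul_assoc, Matrix.mul_nonsing_inv _ hQ2, Matrix.mul_one]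
  have hzero : ∀ c, (φ * P (w₂ - c))ᵀ * cm Q₁ * (φ' * P c) = 0 := by
    intro c
    ext i j
    have e1 : ((φ * P (w₂ - c))ᵀ * cm Q₁ * (φ' * P c)) i j =
        bl Q₁ (φ *ᵥ fun k => P (w₂ - c) k i) (φ' *ᵥ fun k => P c k j) := by
      have f1 : ∀ k, (φ * P (w₂ - c)) k i = (φ *ᵥ fun k => P (w₂ - c) k i) k := fun k => by
        simp only [Matrix.mulVec, dotProduct, Matrix.mul_apply]
      have f2 : ∀ k, (φ' * P c) k j = (φ' *ᵥ fun k => P c k j) k := fun k => by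
        simp only [Matrix.mulVec, dotProduct, Matrix.mul_apply]
      rw [Matrix.mul_apply]
      simp only [Matrix.mul_apply (M := (φ * P (w₂ - c))ᵀ), Matrix.transpose_apply, f1, f2,
        Finset.sum_mul, bl, cm, Matrix.map_apply]
      exact Finset.sum_comm
    rw [e1, Matrix.zero_apply]
    exact h1.riem (w₂ - c + a) (c + b) (by omega) _ (hφ _ _ (hom1_mem hP hF _ _)) _
      (hφ' _ _ (hom1_mem hP hF _ _))
  rw [bl_kr]
  have e0 : φᵀ * cm Q₁ * φ' * (cm Q₂)⁻¹ =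
      ∑ c ∈ Finset.Icc (-(K : ℤ)) K, φᵀ * cm Q₁ * φ' * (P c * P c) * (cm Q₂)⁻¹ := by
    simp only [hP.mul, if_true]
    rw [← Finset.sum_mul, ← Finset.mul_sum, hP.sum, Matrix.mul_one]
  rw [e0, Matrix.trace_sum]
  refine Finset.sum_eq_zero fun c _ => ?_
  have e1 : φᵀ * cm Q₁ * φ' * (P c * P c) * (cm Q₂)⁻¹ =
      (φᵀ * cm Q₁ * φ' * P c * (cm Q₂)⁻¹) * (P (w₂ - c))ᵀ := by
    simp only [Matrix.mul_assoc]
    rw [hdual]
  have e2 : (P (w₂ - c))ᵀ * (φᵀ * cm Q₁ * φ' * P c * (cm Q₂)⁻¹) =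
      (φ * P (w₂ - c))ᵀ * cm Q₁ * (φ' * P c) * (cm Q₂)⁻¹ := by
    rw [Matrix.transpose_mul]
    simp only [Matrix.mul_assoc]
  rw [e1, Matrix.trace_mul_comm, e2, hzero, Matrix.zero_mul, Matrix.trace_zero]

end MW38
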