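import Pool.Agent.LibMW38.Hom1

/-! `Hom` of two polarized pure Hodge structures: positivity. -/

open Matrix Complex
open scoped ComplexOrder

namespace MW38

open SP38 US38

variable {X Y : Type} [Fintype X] [DecidableEq X] [Fintype Y] [DecidableEq Y]
  {w₁ w₂ : ℤ} {p₁ : X → ℤ} {p₂ : Y → ℤ} {Q₁ : Matrix X X ℝ} {Q₂ : Matrix Y Y ℝ}
  {G₁ : Matrix X X ℂ} {G₂ : Matrix Y Y ℂ}

theorem hom2_conj_mul {A B C : Type} [Fintype B] (M : Matrix A B ℂ) (N : Matrix B C ℂ) :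
    (M * N).map (starRingEnd ℂ) = M.map (starRingEnd ℂ) * N.map (starRingEnd ℂ) :=
  Matrix.map_mul

theorem hom2_conj_conj {A B : Type} (M : Matrix A B ℂ) :
    (M.map (starRingEnd ℂ)).map (starRingEnd ℂ) = M := by
  ext i j
  simp

theorem hom2_supp {w : ℤ} {K : ℕ} {Q : Matrix X X ℝ} {P : ℤ → Matrix X X ℂ} (h : HDA w K Q P)
    {a : ℤ} (ha : a ∉ Finset.Icc (-(K : ℤ)) K) : P a = 0 := by
  apply h.supp
  rw [Finset.mem_Icc] at ha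
  by_contra hh
  exact ha (abs_le.mp (not_lt.mp hh))

/-- the low components of an element of `F^c` vanish -/
theorem hom2_low {K : ℕ} {P₁ : ℤ → Matrix X X ℂ} {P₂ : ℤ → Matrix Y Y ℂ}
    (hP2 : HDA w₂ K Q₂ P₂) (h1 : IsUnit G₁) (h2 : IsUnit G₂)
    (hF1 : ∀ a v, v ∈ Fl p₁ G₁ a ↔ ∀ b, b < a → P₁ b *ᵥ v = 0)
    (hF2 : ∀ a v, v ∈ Fl p₂ G₂ a ↔ ∀ b, b < a → P₂ b *ᵥ v = 0) {c : ℤ}
    {φ : Matrix X Y ℂ} (hφ : vc φ ∈ Fl (pE p₁ p₂) (kr G₁ G₂) c) {a b : ℤ} (hb : b < a + c) :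
    P₁ b * φ * P₂ a = 0 := by
  rw [mem_Fl_hom' h1 h2] at hφ
  ext i j
  have e1 : (P₁ b * φ * P₂ a) i j = (P₁ b *ᵥ (φ *ᵥ fun k => P₂ a k j)) i := by
    rw [Matrix.mulVec_mulVec]
    simp only [Matrix.mulVec, dotProduct, Matrix.mul_apply (M := P₁ b * φ)]
  rw [e1, (hF1 _ _).mp (hφ a _ (hom1_mem hP2 hF2 a j)) b hb]
  rfl

/-- an element of type `c` maps `H^a` to `H^(a+c)` -/
theorem hom_type {K : ℕ} {P₁ : ℤ → Matrix X X ℂ} {P₂ : ℤ → Matrix Y Y ℂ} (hP1 : HDA w₁ K Q₁ P₁)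
    (hP2 : HDA w₂ K Q₂ P₂) (h1 : IsUnit G₁) (h2 : IsUnit G₂)
    (hF1 : ∀ a v, v ∈ Fl p₁ G₁ a ↔ ∀ b, b < a → P₁ b *ᵥ v = 0)
    (hF2 : ∀ a v, v ∈ Fl p₂ G₂ a ↔ ∀ b, b < a → P₂ b *ᵥ v = 0) {c : ℤ}
    {φ : Matrix X Y ℂ} (hφ : vc φ ∈ Fl (pE p₁ p₂) (kr G₁ G₂) c)
    (hφ' : cc (vc φ) ∈ Fl (pE p₁ p₂) (kr G₁ G₂) (w₁ - w₂ - c)) (a : ℤ) :
    φ * P₂ a = P₁ (a + c) * φ := by
  have hz : ∀ a b, b ≠ a + c → P₁ b * φ * P₂ a = 0 := by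
    intro a b hb
    rcases lt_or_gt_of_ne hb with hlt | hgt
    · exact hom2_low hP2 h1 h2 hF1 hF2 hφ hlt
    · have e0 : vc (φ.map (starRingEnd ℂ)) ∈ Fl (pE p₁ p₂) (kr G₁ G₂) (w₁ - w₂ - c) := hφ'
      have e1 := hom2_low hP2 h1 h2 hF1 hF2 e0 (a := w₂ - a) (b := w₁ - b) (by omega)
      have e2 : (P₁ b * φ * P₂ a).map (starRingEnd ℂ) = 0 := by
        rw [hom2_conj_mul, hom2_conj_mul, hP1.conj, hP2.conj, e1]
      rw [← hom2_conj_conj (P₁ b * φ * P₂ a), e2]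
      ext i j
      simp
  have e1 : φ * P₂ a = P₁ (a + c) * φ * P₂ a := by
    have e : (1 : Matrix X X ℂ) * φ * P₂ a = P₁ (a + c) * φ * P₂ a := by
      rw [← hP1.sum, Matrix.sum_mul, Matrix.sum_mul]
      by_cases hc : a + c ∈ Finset.Icc (-(K : ℤ)) K
      · exact Finset.sum_eq_single_of_mem _ hc fun b _ hb => hz a b hb
      · rw [hom2_supp hP1 hc, Matrix.zero_mul, Matrix.zero_mul]
        refine Finset.sum_eq_zero fun b hb => hz a b ?_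
        rintro rfl
        exact hc hb
    rw [Matrix.one_mul] at e
    exact e
  have e2 : P₁ (a + c) * φ = P₁ (a + c) * φ * P₂ a := by
    have e : P₁ (a + c) * φ * (1 : Matrix Y Y ℂ) = P₁ (a + c) * φ * P₂ a := by
      rw [← hP2.sum, Matrix.mul_sum]
      by_cases hc : a ∈ Finset.Icc (-(K : ℤ)) K
      · exact Finset.sum_eq_single_of_mem _ hc fun b _ hb => hz b _ (by omega)
      · rw [hom2_supp hP2 hc, Matrix.mul_zero]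
        refine Finset.sum_eq_zero fun b hb => hz b _ ?_
        intro e
        apply hc
        have : b = a := by omega
        rw [← this]
        exact hb
    rw [Matrix.mul_one] at e
    exact e
  rw [e1, ← e2]

theorem hom2_metr_P {w : ℤ} {K : ℕ} {Q : Matrix X X ℝ} {P : ℤ → Matrix X X ℂ} (h : HDA w K Q P)
    (b : ℤ) : (∑ a ∈ Finset.Icc (-(K : ℤ)) K, (I ^ (2 * a - w)) • ((cm Q)ᵀ * P a)) * P b =
      (I ^ (2 * b - w)) • ((cm Q)ᵀ * P b) := by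
  rw [Finset.sum_mul]
  by_cases hb : b ∈ Finset.Icc (-(K : ℤ)) K
  · rw [Finset.sum_eq_single_of_mem b hb]
    · rw [Matrix.smul_mul, Matrix.mul_assoc, h.mul, if_pos rfl]
    · intro a _ hab
      rw [Matrix.smul_mul, Matrix.mul_assoc, h.mul, if_neg hab, Matrix.mul_zero, smul_zero]
  · rw [hom2_supp h hb, Matrix.mul_zero, smul_zero]
    exact Finset.sum_eq_zero fun a _ => Matrix.mul_zero _

theorem hom2_exists_sqrt {M : Matrix X X ℂ} (hM : M.PosDef) :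
    ∃ R : Matrix X X ℂ, IsUnit R ∧ M = Rᴴ * R := by
  open scoped MatrixOrder in
  obtain ⟨R, hR⟩ := CStarAlgebra.nonneg_iff_eq_star_mul_self.mp hM.posSemidef.nonneg
  refine ⟨R, ?_, hR⟩
  have h1 := hM.isUnit
  rw [Matrix.isUnit_iff_isUnit_det] at h1 ⊢
  rw [hR, Matrix.det_mul] at h1
  exact isUnit_of_mul_isUnit_right h1

theorem hom2_trace {M : Matrix X Y ℂ} (hM : M ≠ 0) :
    0 < (Matrix.trace (Mᴴ * M)).re ∧ (Matrix.trace (Mᴴ * M)).im = 0 := by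
  have e : Matrix.trace (Mᴴ * M) = ((∑ j, ∑ i, ‖M i j‖ ^ 2 : ℝ) : ℂ) := by
    rw [Matrix.trace, Complex.ofReal_sum]
    refine Finset.sum_congr rfl fun j _ => ?_
    rw [Matrix.diag_apply, Matrix.mul_apply, Complex.ofReal_sum]
    refine Finset.sum_congr rfl fun i _ => ?_
    rw [Matrix.conjTranspose_apply, ← Complex.normSq_eq_norm_sq, Complex.normSq_eq_conj_mul_self]
    rfl
  rw [e, Complex.ofReal_re, Complex.ofReal_im]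
  refine ⟨?_, rfl⟩
  obtain ⟨i, j, hij⟩ : ∃ i j, M i j ≠ 0 := by
    by_contra hh
    push Not at hh
    apply hM
    ext i j
    exact hh i j
  apply Finset.sum_pos'
  · intro j _
    positivity
  · refine ⟨j, Finset.mem_univ _, Finset.sum_pos' (fun i _ => by positivity)
      ⟨i, Finset.mem_univ _, by positivity⟩⟩

theorem hom_pos (h1 : PHS w₁ p₁ Q₁ G₁) (h2 : PHS w₂ p₂ Q₂ G₂)
    (hs1 : ∃ s : Equiv.Perm X, ∀ j, p₁ (s j) = w₁ - p₁ j)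
    (hs2 : ∃ s : Equiv.Perm Y, ∀ j, p₂ (s j) = w₂ - p₂ j) {c : ℤ}
    {φ : Matrix X Y ℂ} (hφ : vc φ ∈ Fl (pE p₁ p₂) (kr G₁ G₂) c)
    (hφ' : cc (vc φ) ∈ Fl (pE p₁ p₂) (kr G₁ G₂) (w₁ - w₂ - c)) (h0 : φ ≠ 0) :
    0 < (I ^ (2 * c - (w₁ - w₂)) * bl (kr Q₁ Q₂) (vc φ) (cc (vc φ))).re ∧
      (I ^ (2 * c - (w₁ - w₂)) * bl (kr Q₁ Q₂) (vc φ) (cc (vc φ))).im = 0 := by
  obtain ⟨K1, hK1⟩ := h1.exists_proj hs1
  obtain ⟨K2, hK2⟩ := h2.exists_proj hs2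
  obtain ⟨P₁, hP1, hF1⟩ := hK1 (max K1 K2) (le_max_left _ _)
  obtain ⟨P₂, hP2, hF2⟩ := hK2 (max K1 K2) (le_max_right _ _)
  set K := max K1 K2 with hK
  have hty := hom_type hP1 hP2 h1.unit h2.unit hF1 hF2 hφ hφ'
  set M₁ := ∑ a ∈ Finset.Icc (-(K : ℤ)) K, (I ^ (2 * a - w₁)) • ((cm Q₁)ᵀ * P₁ a) with hM1
  set M₂ := ∑ a ∈ Finset.Icc (-(K : ℤ)) K, (I ^ (2 * a - w₂)) • ((cm Q₂)ᵀ * P₂ a) with hM2
  have hp1 : M₁.PosDef := hP1.posDef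
  have hp2 : M₂.PosDef := hP2.posDef
  have hQ2 : IsUnit ((cm Q₂)ᵀ).det := by
    rw [Matrix.det_transpose]
    exact (Matrix.isUnit_iff_isUnit_det _).mp (hom1_cm_unit (h2.isUnit_Q hs2))
  have hkey : M₁ * φ = (I ^ (2 * c - (w₁ - w₂))) • ((cm Q₁)ᵀ * φ * ((cm Q₂)ᵀ)⁻¹) * M₂ := by
    have e : ∀ b, M₁ * φ * P₂ b =
        (I ^ (2 * c - (w₁ - w₂))) • ((cm Q₁)ᵀ * φ * ((cm Q₂)ᵀ)⁻¹) * M₂ * P₂ b := by
      intro b
      have f1 : M₁ * φ * P₂ b = (I ^ (2 * (b + c) - w₁)) • ((cm Q₁)ᵀ * φ * P₂ b) := by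
        rw [Matrix.mul_assoc, hty, ← Matrix.mul_assoc, hM1, hom2_metr_P hP1, Matrix.smul_mul,
          Matrix.mul_assoc, ← hty, ← Matrix.mul_assoc]
      have f2 : (I ^ (2 * c - (w₁ - w₂))) • ((cm Q₁)ᵀ * φ * ((cm Q₂)ᵀ)⁻¹) * M₂ * P₂ b =
          (I ^ (2 * c - (w₁ - w₂))) • (I ^ (2 * b - w₂)) • ((cm Q₁)ᵀ * φ * P₂ b) := by
        rw [Matrix.mul_assoc _ M₂, hM2, hom2_metr_P hP2, Matrix.smul_mul, Matrix.mul_smul,
          Matrix.mul_assoc _ (((cm Q₂)ᵀ)⁻¹), ← Matrix.mul_assoc (((cm Q₂)ᵀ)⁻¹),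
          Matrix.nonsing_inv_mul _ hQ2, Matrix.one_mul]
      rw [f1, f2, smul_smul, ← zpow_add₀ Complex.I_ne_zero]
      congr 2
      ring
    have e1 : M₁ * φ * (∑ b ∈ Finset.Icc (-(K : ℤ)) K, P₂ b) =
        (I ^ (2 * c - (w₁ - w₂))) • ((cm Q₁)ᵀ * φ * ((cm Q₂)ᵀ)⁻¹) * M₂ *
          (∑ b ∈ Finset.Icc (-(K : ℤ)) K, P₂ b) := by
      rw [Matrix.mul_sum, Matrix.mul_sum]
      exact Finset.sum_congr rfl fun b _ => e b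
    rw [hP2.sum, Matrix.mul_one, Matrix.mul_one] at e1
    exact e1
  obtain ⟨R₁, hR1, hMR1⟩ := hom2_exists_sqrt hp1
  obtain ⟨R₂, hR2, hMR2⟩ := hom2_exists_sqrt hp2
  have hR1' : IsUnit R₁.det := (Matrix.isUnit_iff_isUnit_det _).mp hR1
  have hR2' : IsUnit R₂.det := (Matrix.isUnit_iff_isUnit_det _).mp hR2
  have hM2' : IsUnit M₂.det := (Matrix.isUnit_iff_isUnit_det _).mp hp2.isUnit
  have hkey2 : M₁ * φ * M₂⁻¹ = (I ^ (2 * c - (w₁ - w₂))) • ((cm Q₁)ᵀ * φ * ((cm Q₂)ᵀ)⁻¹) := by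
    rw [hkey, Matrix.mul_assoc _ M₂, Matrix.mul_nonsing_inv _ hM2', Matrix.mul_one]
  have hN0 : R₁ * φ * R₂⁻¹ ≠ 0 := by
    intro hN
    apply h0
    have e : φ = R₁⁻¹ * (R₁ * φ * R₂⁻¹) * R₂ := by
      rw [Matrix.mul_assoc (R₁⁻¹), Matrix.mul_assoc (R₁ * φ), Matrix.nonsing_inv_mul _ hR2',
        Matrix.mul_one, ← Matrix.mul_assoc, Matrix.nonsing_inv_mul _ hR1', Matrix.one_mul]
    rw [e, hN, Matrix.mul_zero, Matrix.zero_mul]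
  have hmain : I ^ (2 * c - (w₁ - w₂)) * bl (kr Q₁ Q₂) (vc φ) (cc (vc φ)) =
      Matrix.trace ((R₁ * φ * R₂⁻¹)ᴴ * (R₁ * φ * R₂⁻¹)) := by
    have hcc : cc (vc φ) = vc (φ.map (starRingEnd ℂ)) := rfl
    have g1 : bl (kr Q₁ Q₂) (vc φ) (cc (vc φ)) =
        Matrix.trace (φᴴ * ((cm Q₁)ᵀ * φ * ((cm Q₂)ᵀ)⁻¹)) := by
      rw [hcc, bl_kr, ← Matrix.trace_transpose, Matrix.transpose_mul, Matrix.transpose_mul,
        Matrix.transpose_mul, Matrix.transpose_transpose, Matrix.transpose_nonsing_inv,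
        Matrix.trace_mul_comm]
      have f : (φ.map (starRingEnd ℂ))ᵀ = φᴴ := rfl
      rw [f]
      simp only [Matrix.mul_assoc]
    have g2 : I ^ (2 * c - (w₁ - w₂)) *
        Matrix.trace (φᴴ * ((cm Q₁)ᵀ * φ * ((cm Q₂)ᵀ)⁻¹)) =
        Matrix.trace (φᴴ * (M₁ * φ * M₂⁻¹)) := by
      rw [hkey2, Matrix.mul_smul, Matrix.trace_smul, smul_eq_mul]
    have g3 : Matrix.trace (φᴴ * (M₁ * φ * M₂⁻¹)) =
        Matrix.trace ((R₁ * φ * R₂⁻¹)ᴴ * (R₁ * φ * R₂⁻¹)) := by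
      have hinv : M₂⁻¹ = R₂⁻¹ * (R₂⁻¹)ᴴ := by
        rw [hMR2, Matrix.mul_inv_rev, Matrix.conjTranspose_nonsing_inv]
      rw [hinv, hMR1, Matrix.conjTranspose_mul, Matrix.conjTranspose_mul]
      have f1 : φᴴ * (R₁ᴴ * R₁ * φ * (R₂⁻¹ * (R₂⁻¹)ᴴ)) =
          (φᴴ * R₁ᴴ * (R₁ * φ * R₂⁻¹)) * (R₂⁻¹)ᴴ := by
        simp only [Matrix.mul_assoc]
      rw [f1, Matrix.trace_mul_comm]
      simp only [Matrix.mul_assoc]
    rw [g1, g2, g3]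
  rw [hmain]
  exact hom2_trace hN0

end MW38
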