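import Pool.Agent.LibMW38.Hom2

/-! `Hom` of two polarized pure variations. -/

open Matrix Complex

namespace MW38

open SP38 US38

variable {I J : Type} [Fintype I] [DecidableEq I] [Fintype J] [DecidableEq J]
  {w₁ w₂ : ℤ} {p₁ : I → ℤ} {p₂ : J → ℤ} {Q₁ : Matrix I I ℝ} {Q₂ : Matrix J J ℝ}

theorem hom_phs {G₁ : Matrix I I ℂ} {G₂ : Matrix J J ℂ} (h1 : PHS w₁ p₁ Q₁ G₁)
    (h2 : PHS w₂ p₂ Q₂ G₂) (hs1 : ∃ s : Equiv.Perm I, ∀ j, p₁ (s j) = w₁ - p₁ j)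
    (hs2 : ∃ s : Equiv.Perm J, ∀ j, p₂ (s j) = w₂ - p₂ j) :
    PHS (w₁ - w₂) (pE p₁ p₂) (kr Q₁ Q₂) (kr G₁ G₂) := by
  have hvc : ∀ u : I × J → ℂ, vc (fun i j => u (i, j) : Matrix I J ℂ) = u := fun u => rfl
  refine ⟨isUnit_kr h1.unit h2.unit, ?_, ?_⟩
  · intro a b hab u hu v hv
    rw [← hvc u] at hu ⊢
    rw [← hvc v] at hv ⊢
    exact hom_riem h1 h2 hs1 hs2 hab hu hv
  · intro a v hv hv' h0
    rw [← hvc v] at hv hv' h0 ⊢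
    refine hom_pos h1 h2 hs1 hs2 hv hv' ?_
    intro e
    apply h0
    rw [e]
    rfl

end MW38
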