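import Pool.Agent.LibMW38.LTrf

/-! Descent of the obstruction. -/

open Matrix Complex
open UpperHalfPlane hiding I

namespace MW38

open SP38 US38

variable {ι : Type} [Fintype ι] [DecidableEq ι] {wt p : ι → ℤ} {Q : Matrix ι ι ℝ}
  {Φ : ℂ → Matrix ι ι ℂ} {l : ℤ} {t c : ι → ℝ}
  {Δ : Subgroup (Matrix.SpecialLinearGroup (Fin 2) ℝ)}

theorem lDesc_cm_isUnit {I : Type*} [Fintype I] [DecidableEq I] {A : Matrix I I ℝ}
    (h : IsUnit A) : IsUnit (cm A) := by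
  have := h.map (Complex.ofRealHom.mapMatrix : Matrix I I ℝ →+* Matrix I I ℂ)
  exact this

theorem lDesc_cm_mulVec {α : Type} [Fintype α] (A : Matrix α α ℝ) (v : α → ℝ) (i : α) :
    (cm A *ᵥ tC v) i = (((A *ᵥ v) i : ℝ) : ℂ) := by
  simp [Matrix.mulVec, dotProduct, cm, tC]

/-- monodromy fixes the lift in weights above `l` -/
theorem lDesc_fix {Φ₁ Φ₂ : Matrix ι ι ℂ} (h1 : MHS wt p Q Φ₁) (h2 : MHS wt p Q Φ₂)
    {γ : Matrix ι ι ℝ} (hu : IsUnit γ) (ht : Tri wt γ) (hγc : ∀ i, wt i = 0 → (γ *ᵥ c) i = c i)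
    (hF : ∀ a, Fl p Φ₂ a = (Fl p Φ₁ a).map (Matrix.mulVecLin (cm γ)))
    (hc : ∀ i, wt i ≠ 0 → c i = 0) (h0 : ∀ i, 0 ≤ wt i → t i = c i)
    (ht1 : InF wt p l t Φ₁) (ht2 : InF wt p l t Φ₂) {i : ι} (hi : l < wt i) :
    (γ *ᵥ t) i = t i := by
  refine lift_uniq h2 (inF_transfer h1.unit h1.tri h2.unit h2.tri hu ht hF ht1) ht2 ?_ hi
  intro i hi
  have e1 : (γ *ᵥ t) i = (γ *ᵥ c) i := by
    simp only [Matrix.mulVec, dotProduct]
    refine Finset.sum_congr rfl fun j _ => ?_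
    by_cases hj : wt j < wt i
    · rw [ht i j hj, zero_mul, zero_mul]
    · rw [h0 j (by omega)]
  rw [e1, h0 i hi]
  rcases hi.eq_or_lt with h | h
  · exact hγc i h.symm
  · rw [hc i h.ne']
    simp only [Matrix.mulVec, dotProduct]
    refine Finset.sum_eq_zero fun j _ => ?_
    by_cases hj : wt j = 0
    · rw [ht i j (by omega), zero_mul]
    · rw [hc j hj, mul_zero]

theorem LDesc (h : VMHS wt p Q Φ) (hd : DescL wt p Q Φ c Δ) (hl : l < 0)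
    (hc : ∀ i, wt i ≠ 0 → c i = 0) (h0 : ∀ i, 0 ≤ wt i → t i = c i)
    (ht : ∀ z : ℂ, 0 < z.im → InF wt p l t (Φ z)) :
    DescA (fun i : {i // wt i = l} => p i) (blk wt l l Q) (fun z => blk wt l l (Φ z))
      (fun z => nu wt l t (Φ z)) Δ := by
  intro δ hδ
  obtain ⟨γ, ⟨hu, htr, hQ⟩, hγc, hF⟩ := hd δ hδ
  refine ⟨blk wt l l γ, fun i : {i // wt i = l} => -((γ *ᵥ t) i - t i),
    htr.isUnit_blk hu l, hQ l, fun τ => ?_⟩
  have h1 := h.mhs (τ : ℂ) τ.im_pos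
  have h2 := h.mhs ((δ • τ : ℍ) : ℂ) (δ • τ).im_pos
  have hfix : ∀ i, l < wt i → (γ *ᵥ t) i = t i := fun i hi =>
    lDesc_fix h1 h2 hu htr hγc (hF τ) hc h0 (ht _ τ.im_pos) (ht _ (δ • τ).im_pos) hi
  refine ⟨fun a => ?_, ?_⟩
  · rw [← cm_blk]
    exact Fl_blk_map h1.unit h1.tri h2.unit h2.tri (lDesc_cm_isUnit hu) htr.cm (hF τ) l a
  · have h3 := nu_transfer h1.unit h1.tri h2.unit h2.tri (lDesc_cm_isUnit hu) htr.cm (hF τ)
      (ht _ τ.im_pos) (fun i hi => by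
        rw [lDesc_cm_mulVec, hfix i hi]; rfl)
    convert h3 using 2
    rw [cm_blk, sub_eq_add_neg]
    congr 1
    funext i
    rw [Pi.neg_apply, lDesc_cm_mulVec]
    simp [tC]

end MW38
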