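import Pool.Agent.LibMW38.Defs

/-!
# Lifting Hodge classes of `Gr_0` (MP_eeb1a4_ag)
-/

open Matrix Complex
open UpperHalfPlane hiding I

namespace MW38

open SP38 US38

variable {ι : Type} [Fintype ι] [DecidableEq ι]

/-- a real vector as a complex vector -/
noncomputable def tC (t : ι → ℝ) : ι → ℂ := fun i => (t i : ℂ)

/-- `c` is a real vector of `Gr_0` which is a Hodge class of `Gr_0` at every point -/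
def HodgeGr (wt p : ι → ℤ) (Φ : ℂ → Matrix ι ι ℂ) (c : ι → ℝ) : Prop :=
  (∀ i, wt i ≠ 0 → c i = 0) ∧ ∀ z : ℂ, 0 < z.im →
    (fun i : {i // wt i = 0} => (c i : ℂ)) ∈
      Fl (fun i : {i // wt i = 0} => p i) (blk wt 0 0 (Φ z)) 0

/-- descent as in `Desc`, with monodromy fixing the class `c` of `Gr_0` -/
def DescL (wt p : ι → ℤ) (Q : Matrix ι ι ℝ) (Φ : ℂ → Matrix ι ι ℂ) (c : ι → ℝ)
    (Δ : Subgroup (Matrix.SpecialLinearGroup (Fin 2) ℝ)) : Prop :=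
  ∀ δ ∈ Δ, ∃ γ : Matrix ι ι ℝ, Isom wt Q γ ∧ (∀ i, wt i = 0 → (γ *ᵥ c) i = c i) ∧
    ∀ (τ : ℍ) (a : ℤ),
      Fl p (Φ ((δ • τ : ℍ) : ℂ)) a = (Fl p (Φ (τ : ℂ)) a).map (Matrix.mulVecLin (cm γ))

/-- admissibility as in `Adm`, with local monodromy fixing the class `c` of `Gr_0` -/
def AdmL (wt p : ι → ℤ) (Q : Matrix ι ι ℝ) (Φ : ℂ → Matrix ι ι ℂ) (c : ι → ℝ)
    (Δ : Subgroup (Matrix.SpecialLinearGroup (Fin 2) ℝ))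
    (σ : Matrix.SpecialLinearGroup (Fin 2) ℝ) : Prop :=
  ∃ (h : ℝ) (N : Matrix ι ι ℝ) (Ψ : ℂ → Matrix ι ι ℂ) (ε : ℝ),
    0 < h ∧ σ * trans h * σ⁻¹ ∈ Δ ∧ 0 < ε ∧ IsNilpotent N ∧ Tri wt N ∧
    Isom wt Q (IsNilpotent.exp N) ∧ (∀ i, wt i = 0 → (N *ᵥ c) i = 0) ∧
    (∀ i j, DifferentiableOn ℂ (fun q => Ψ q i j) (Metric.ball 0 ε)) ∧
    (∀ q ∈ Metric.ball (0 : ℂ) ε, IsUnit (Ψ q) ∧ Tri wt (Ψ q)) ∧
    ∀ τ : ℍ, ‖Complex.exp (2 * Real.pi * I * ((τ : ℂ) / h))‖ < ε → ∀ a,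
      Fl p (Φ ((σ • τ : ℍ) : ℂ)) a = Fl p (IsNilpotent.exp (((τ : ℂ) / h) • cm N) *
        Ψ (Complex.exp (2 * Real.pi * I * ((τ : ℂ) / h)))) a

/-- `t` is a Hodge class lifting `c` -/
def LiftBy (wt p : ι → ℤ) (c t : ι → ℝ) (Φ : Matrix ι ι ℂ) : Prop :=
  (∀ i, 0 ≤ wt i → t i = c i) ∧ (fun i => (t i : ℂ)) ∈ Fl p Φ 0

/-- the class `c` lifts to a Hodge class defined over `K` -/
def Lifts (K : Subfield ℝ) (wt p : ι → ℤ) (c : ι → ℝ) (Φ : Matrix ι ι ℂ) : Prop :=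
  ∃ t : ι → ℝ, (∀ i, t i ∈ K) ∧ LiftBy wt p c t Φ

/-! ### auxiliary definitions (not used in the statement) -/

/-- `t` lies in `F^0 + W_l` -/
def InF (wt p : ι → ℤ) (l : ℤ) (t : ι → ℝ) (Φ : Matrix ι ι ℂ) : Prop :=
  ∀ j, l < wt j → p j < 0 → (Φ⁻¹ *ᵥ tC t) j = 0

/-- the obstruction in `Gr_l / F^0` -/
noncomputable def nu (wt : ι → ℤ) (l : ℤ) (t : ι → ℝ) (Φ : Matrix ι ι ℂ) : {i // wt i = l} → ℂ :=
  blk wt l l Φ *ᵥ (fun i => (Φ⁻¹ *ᵥ tC t) i)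

/-- the nilpotent matrix `(φ, s) ↦ (A φ - s n, 0)` -/
def NL {α : Type} (A : Matrix α α ℝ) (n : α → ℝ) : Matrix (α ⊕ Unit) (α ⊕ Unit) ℝ :=
  Matrix.fromBlocks A (fun i _ => -n i) 0 0

end MW38
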