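import Pool.Agent.LibMW38.BlkE
import Pool.Agent.LibMW38.LDefs
import Pool.Agent.LibSP38.Cus2

/-! The logarithm of the monodromy and the lift. -/

open Matrix Complex

namespace MW38

open SP38 US38

variable {ι : Type} [Fintype ι] [DecidableEq ι] {wt : ι → ℤ} {N : Matrix ι ι ℝ} {t : ι → ℝ}
  {l : ℤ}

theorem lNil_cm_mulVec {α : Type*} [Fintype α] (A : Matrix α α ℝ) (v : α → ℝ) (i : α) :
    (cm A *ᵥ fun i => (v i : ℂ)) i = (((A *ᵥ v) i : ℝ) : ℂ) := by
  simp [Matrix.mulVec, dotProduct, cm]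

/-- from the powers of `exp N` to `N` -/
theorem lnil_low (hN : IsNilpotent N) {i : ι}
    (h : ∀ a : ℕ, (IsNilpotent.exp ((a : ℝ) • N) *ᵥ t) i = t i) : (N *ᵥ t) i = 0 := by
  obtain ⟨K, hK⟩ := hN
  obtain ⟨c, hc⟩ := cus2_lagrange (K + 2)
  have hK2 : N ^ (K + 2) = 0 := by rw [pow_add, hK, zero_mul]
  have hexp : ∀ a : ℕ, IsNilpotent.exp ((a : ℝ) • N) =
      ∑ i ∈ Finset.range (K + 2), ((a : ℝ) ^ i / (i.factorial : ℝ)) • N ^ i := by
    intro a
    have h1 : ((a : ℝ) • N) ^ (K + 2) = 0 := by rw [smul_pow, hK2, smul_zero]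
    rw [IsNilpotent.exp_eq_sum h1]
    refine Finset.sum_congr rfl fun i _ => ?_
    rw [smul_pow, div_eq_inv_mul, mul_smul, ← Rat.cast_smul_eq_qsmul ℝ]
    push_cast
    rfl
  have hS : ∑ a ∈ Finset.Icc 1 (K + 2), c a • IsNilpotent.exp ((a : ℝ) • N) =
      (∑ a ∈ Finset.Icc 1 (K + 2), c a) • (1 : Matrix ι ι ℝ) + N := by
    have h1 : ∀ a ∈ Finset.Icc 1 (K + 2), c a • IsNilpotent.exp ((a : ℝ) • N) =
        ∑ i ∈ Finset.range (K + 2), (c a * (a : ℝ) ^ i) • ((i.factorial : ℝ)⁻¹ • N ^ i) := by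
      intro a _
      rw [hexp, Finset.smul_sum]
      refine Finset.sum_congr rfl fun i _ => ?_
      rw [smul_smul, smul_smul]
      congr 1
      ring
    rw [Finset.sum_congr rfl h1, Finset.sum_comm]
    have h2 : ∀ i ∈ Finset.range (K + 2), ∑ a ∈ Finset.Icc 1 (K + 2),
        (c a * (a : ℝ) ^ i) • ((i.factorial : ℝ)⁻¹ • N ^ i) =
        (if i = 0 then (∑ a ∈ Finset.Icc 1 (K + 2), c a) • (1 : Matrix ι ι ℝ) else 0) +
          (if i = 1 then N else 0) := by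
      intro i hi
      rw [← Finset.sum_smul]
      rcases Nat.eq_zero_or_pos i with rfl | hi0
      · simp
      · rw [hc i hi0 (Finset.mem_range.1 hi).le]
        by_cases h1 : i = 1
        · subst h1; simp
        · simp [h1, hi0.ne']
    rw [Finset.sum_congr rfl h2, Finset.sum_add_distrib]
    simp
  have h3 := congrFun (congrArg (fun X : Matrix ι ι ℝ => X *ᵥ t) hS) i
  simp only [Matrix.add_mulVec, Matrix.smul_mulVec, Matrix.one_mulVec, Matrix.sum_mulVec,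
    Finset.sum_apply, Pi.add_apply, Pi.smul_apply, smul_eq_mul, h] at h3
  rw [← Finset.sum_mul] at h3
  linarith

theorem lNil_pow {R : Type*} [CommRing R] {N : Matrix ι ι R} {t : ι → R} (ht : Tri wt N)
    (h : ∀ i, l < wt i → (N *ᵥ t) i = 0) (r : ℕ) (i : ι) (hi : l < wt i) :
    (N ^ (r + 1) *ᵥ t) i = 0 := by
  induction r generalizing i with
  | zero => rw [zero_add, pow_one]; exact h i hi
  | succ r ih =>
    rw [pow_succ', ← Matrix.mulVec_mulVec]
    simp only [Matrix.mulVec, dotProduct] at ih ⊢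
    refine Finset.sum_eq_zero fun j _ => ?_
    by_cases hj : wt j < wt i
    · rw [ht i j hj, zero_mul]
    · rw [ih j (by omega), mul_zero]

omit [DecidableEq ι] in
theorem lNil_sum {R : Type*} [CommRing R] (wt : ι → ℤ) (l : ℤ) (f : ι → R)
    (hf : ∀ j, wt j ≠ l → f j = 0) : ∑ j, f j = ∑ j : {j // wt j = l}, f j := by
  classical
  rw [← Finset.sum_subtype (Finset.univ.filter fun j => wt j = l) (by simp) f]
  refine (Finset.sum_filter_of_ne fun j _ hj => ?_).symm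
  by_contra h
  exact hj (hf j h)

theorem lNil_pow_l {R : Type*} [CommRing R] {N : Matrix ι ι R} {t : ι → R} (ht : Tri wt N)
    (h : ∀ i, l < wt i → (N *ᵥ t) i = 0) (r : ℕ) (i : {i // wt i = l}) :
    (N ^ (r + 1) *ᵥ t) i = (blk wt l l N ^ r *ᵥ fun j : {i // wt i = l} => (N *ᵥ t) j) i := by
  induction r generalizing i with
  | zero => rw [zero_add, pow_one, pow_zero, Matrix.one_mulVec]
  | succ r ih =>
    rw [pow_succ' N (r + 1), ← Matrix.mulVec_mulVec, pow_succ' (blk wt l l N) r,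
      ← Matrix.mulVec_mulVec]
    have h1 : (N *ᵥ (N ^ (r + 1) *ᵥ t)) (i : ι) =
        ∑ j : {j // wt j = l}, N i j * (N ^ (r + 1) *ᵥ t) j := by
      change ∑ j, N i j * (N ^ (r + 1) *ᵥ t) j = _
      refine lNil_sum wt l (fun j => N i j * (N ^ (r + 1) *ᵥ t) j) fun j hj => ?_
      rcases lt_or_gt_of_ne hj with h2 | h2
      · rw [ht i j (by rw [i.2]; exact h2), zero_mul]
      · rw [lNil_pow ht h r j h2, mul_zero]
    rw [h1]
    change _ = ∑ j : {j // wt j = l}, blk wt l l N i j * _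
    exact Finset.sum_congr rfl fun j _ => by rw [ih j]; rfl

/-- the exponential series applied to a vector -/
theorem lNil_exp {α : Type*} [Fintype α] [DecidableEq α] {X : Matrix α α ℂ} {K : ℕ}
    (hX : X ^ K = 0) (ζ : ℂ) (v : α → ℂ) (i : α) : (IsNilpotent.exp (ζ • X) *ᵥ v) i =
      v i + ∑ r ∈ Finset.range K, ζ ^ (r + 1) / ((r + 1).factorial : ℂ) *
        (X ^ (r + 1) *ᵥ v) i := by
  have hX' : X ^ (K + 1) = 0 := by rw [pow_succ, hX, zero_mul]
  rw [cus1_exp_eq X hX' ζ, Matrix.sum_mulVec, Finset.sum_apply, Finset.sum_range_succ', add_comm]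
  simp only [Matrix.smul_mulVec, Pi.smul_apply, smul_eq_mul]
  congr 1
  simp

theorem lNil_cm_zero {α β : Type*} : cm (0 : Matrix α β ℝ) = 0 := by
  ext i j; simp [cm]

theorem lNil_cm_pow_zero {α : Type*} [Fintype α] [DecidableEq α] {X : Matrix α α ℝ} {K : ℕ}
    (hX : X ^ K = 0) : cm X ^ K = 0 := by
  rw [← cus1_cm_pow, hX, lNil_cm_zero]

omit [DecidableEq ι] in
theorem lNil_hyp (h : ∀ i, l < wt i → (N *ᵥ t) i = 0) :
    ∀ i, l < wt i → (cm N *ᵥ tC t) i = 0 := by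
  intro i hi
  unfold tC
  rw [lNil_cm_mulVec, h i hi, Complex.ofReal_zero]

/-- from `N` to `exp (ζ N)` -/
theorem lnil_exp (hN : IsNilpotent N) (ht : Tri wt N) (h : ∀ i, l < wt i → (N *ᵥ t) i = 0)
    (ζ : ℂ) {i : ι} (hi : l < wt i) : (IsNilpotent.exp (ζ • cm N) *ᵥ tC t) i = tC t i := by
  obtain ⟨K, hK⟩ := hN
  rw [lNil_exp (lNil_cm_pow_zero hK)]
  rw [Finset.sum_eq_zero, add_zero]
  intro r _
  rw [lNil_pow ht.cm (lNil_hyp h) r i hi, mul_zero]

theorem lNil_NL_eq {α : Type} (A : Matrix α α ℝ) (n : α → ℝ) :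
    NL A n = Matrix.fromBlocks A (Matrix.of fun i _ => -n i) 0 0 := rfl

theorem lNil_NL_pow {α : Type} [Fintype α] [DecidableEq α] (A : Matrix α α ℝ) (n : α → ℝ)
    (r : ℕ) : NL A n ^ (r + 1) = Matrix.fromBlocks (A ^ (r + 1))
      (Matrix.of fun i _ => -(A ^ r *ᵥ n) i) 0 0 := by
  induction r with
  | zero => rw [zero_add, pow_one, pow_one, pow_zero, Matrix.one_mulVec, lNil_NL_eq]
  | succ r ih =>
    rw [pow_succ', ih, lNil_NL_eq, Matrix.fromBlocks_multiply]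
    congr 1
    · simp [pow_succ']
    · ext i j
      rw [Matrix.mul_zero, add_zero, Matrix.mul_apply, Matrix.of_apply, pow_succ',
        ← Matrix.mulVec_mulVec]
      simp only [Matrix.of_apply, mul_neg, Finset.sum_neg_distrib]
      rfl
    · simp
    · simp

theorem lNil_NL_zero {α : Type} [Fintype α] [DecidableEq α] {A : Matrix α α ℝ} (n : α → ℝ)
    {K : ℕ} (hK : A ^ K = 0) : NL A n ^ (K + 1) = 0 := by
  rw [lNil_NL_pow, pow_succ, hK]
  have : (Matrix.of fun (i : α) (_ : Unit) => -((0 : Matrix α α ℝ) *ᵥ n) i) = 0 := by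
    ext i j; simp
  rw [this, zero_mul, Matrix.fromBlocks_zero]

theorem NL_nil {α : Type} [Fintype α] [DecidableEq α] {A : Matrix α α ℝ} (hA : IsNilpotent A)
    (n : α → ℝ) : IsNilpotent (NL A n) := by
  obtain ⟨K, hK⟩ := hA
  exact ⟨K + 1, lNil_NL_zero n hK⟩

theorem exp_NL (hN : IsNilpotent N) (ht : Tri wt N) (h : ∀ i, l < wt i → (N *ᵥ t) i = 0)
    (ζ : ℂ) (φ : {i // wt i = l} → ℂ) (i : {i // wt i = l}) :
    (IsNilpotent.exp (ζ • cm (NL (blk wt l l N) (fun i => (N *ᵥ t) i))) *ᵥ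
      Sum.elim φ 1) (Sum.inl i) =
    (IsNilpotent.exp (ζ • cm (blk wt l l N)) *ᵥ φ) i -
      ((IsNilpotent.exp (ζ • cm N) *ᵥ tC t) i - tC t i) := by
  obtain ⟨K, hK⟩ := hN
  set A := blk wt l l N with hA
  set n : {i // wt i = l} → ℝ := fun i => (N *ᵥ t) i with hn
  have hA0 : A ^ K = 0 := by rw [hA, blkE_pow ht, hK]; rfl
  have hM0 : NL A n ^ (K + 1) = 0 := lNil_NL_zero n hA0
  have hK1 : N ^ (K + 1) = 0 := by rw [pow_succ, hK, zero_mul]
  have hA1 : A ^ (K + 1) = 0 := by rw [pow_succ, hA0, zero_mul]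
  rw [lNil_exp (lNil_cm_pow_zero hM0), lNil_exp (lNil_cm_pow_zero hA1),
    lNil_exp (lNil_cm_pow_zero hK1), add_sub_cancel_left, add_sub_assoc,
    ← Finset.sum_sub_distrib]
  congr 1
  refine Finset.sum_congr rfl fun r _ => ?_
  rw [← mul_sub]
  congr 1
  have h1 : (cm (NL A n) ^ (r + 1) *ᵥ Sum.elim φ 1) (Sum.inl i) =
      (cm A ^ (r + 1) *ᵥ φ) i - (((A ^ r *ᵥ n) i : ℝ) : ℂ) := by
    rw [← cus1_cm_pow, lNil_NL_pow, ← cus1_cm_pow]
    set F : Matrix ({i // wt i = l} ⊕ Unit) ({i // wt i = l} ⊕ Unit) ℝ :=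
      Matrix.fromBlocks (A ^ (r + 1)) (Matrix.of fun i _ => -(A ^ r *ᵥ n) i) 0 0 with hF
    have h3 : ∀ j : Unit, F (Sum.inl i) (Sum.inr j) = -(A ^ r *ᵥ n) i := fun j => rfl
    have h4 : ∀ j : {i // wt i = l}, F (Sum.inl i) (Sum.inl j) = (A ^ (r + 1)) i j :=
      fun j => rfl
    change ∑ j : {i // wt i = l} ⊕ Unit, ((F (Sum.inl i) j : ℝ) : ℂ) *
      (Sum.elim φ 1 j : ℂ) = _
    rw [Fintype.sum_sum_type]
    simp only [h3, h4, Sum.elim_inl, Sum.elim_inr, Pi.one_apply, Finset.univ_unique,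
      Finset.sum_singleton, mul_one, Complex.ofReal_neg, ← sub_eq_add_neg]
    rfl
  have h2 : (cm N ^ (r + 1) *ᵥ tC t) i = (((A ^ r *ᵥ n) i : ℝ) : ℂ) := by
    rw [← cus1_cm_pow]
    unfold tC
    rw [lNil_cm_mulVec, lNil_pow_l ht h r i]
  rw [h1, h2]

end MW38
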