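import Pool.Agent.LibMW38.AdmL
import Pool.Agent.LibMW38.LDesc
import Pool.Agent.LibMW38.LNil
import Pool.Agent.LibMW38.PsiT

/-! Admissibility of the obstruction. -/

open Matrix Complex
open UpperHalfPlane hiding I

namespace MW38

open SP38 US38

variable {ι : Type} [Fintype ι] [DecidableEq ι] {wt p : ι → ℤ} {Q : Matrix ι ι ℝ}
  {Φ : ℂ → Matrix ι ι ℂ} {l : ℤ} {t c : ι → ℝ}
  {Δ : Subgroup (Matrix.SpecialLinearGroup (Fin 2) ℝ)}
  {σ : Matrix.SpecialLinearGroup (Fin 2) ℝ}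

/-- `exp (a N)` fixes the class `c` in weight `0` -/
theorem lAdm_c {N : Matrix ι ι ℝ} (hN : IsNilpotent N) (ht : Tri wt N)
    (hNc : ∀ i, wt i = 0 → (N *ᵥ c) i = 0) (hc : ∀ i, wt i ≠ 0 → c i = 0) (a : ℕ) {i : ι}
    (hi : wt i = 0) : (IsNilpotent.exp ((a : ℝ) • N) *ᵥ c) i = c i := by
  have h0 : ∀ i, 0 < wt i → (N *ᵥ c) i = 0 := by
    intro i hi
    simp only [Matrix.mulVec, dotProduct]
    refine Finset.sum_eq_zero fun j _ => ?_
    by_cases hj : wt j = 0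
    · rw [ht i j (by omega), zero_mul]
    · rw [hc j hj, mul_zero]
  have hpow : ∀ r : ℕ, (N ^ (r + 1) *ᵥ c) i = 0 := by
    intro r
    have h1 := lNil_pow_l ht h0 r ⟨i, hi⟩
    have h2 : (fun j : {i // wt i = 0} => (N *ᵥ c) j) = 0 := by
      funext j; exact hNc j j.2
    rw [h2, Matrix.mulVec_zero] at h1
    exact h1
  obtain ⟨K, hK⟩ := hN
  have h3 : (cm (IsNilpotent.exp ((a : ℝ) • N)) *ᵥ tC c) i = tC c i := by
    have h1 : cm ((a : ℝ) • N) = (a : ℂ) • cm N := by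
      ext i j
      simp [cm]
    rw [adml_cm_exp (adml_smul_nil ⟨K, hK⟩ a), h1, lNil_exp (lNil_cm_pow_zero hK)]
    rw [Finset.sum_eq_zero, add_zero]
    intro r _
    rw [← cus1_cm_pow, lDesc_cm_mulVec, hpow, Complex.ofReal_zero, mul_zero]
  rw [lDesc_cm_mulVec] at h3
  exact Complex.ofReal_injective h3

/-- the condition `InF` for the canonical extension -/
theorem lAdm_inF {Φ₁ Φ₂ γ : Matrix ι ι ℂ} (hu1 : IsUnit Φ₁) (ht1 : Tri wt Φ₁)
    (hu2 : IsUnit Φ₂) (ht2 : Tri wt Φ₂) (hu : IsUnit γ) (ht : Tri wt γ)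
    (hF : ∀ a, Fl p Φ₂ a = Fl p (γ * Φ₁) a) (hγ : ∀ i, l < wt i → (γ *ᵥ tC t) i = tC t i)
    (h2 : InF wt p l t Φ₂) : InF wt p l t Φ₁ := by
  have hcm1 : cm (1 : Matrix ι ι ℝ) = 1 := by
    ext i j
    simp only [cm, Matrix.map_apply, Matrix.one_apply]
    split_ifs <;> simp
  have h3 : InF wt p l t (γ * Φ₁) := by
    have h4 := inF_transfer (γ := 1) hu2 ht2 (hu.mul hu1) (ht.mul ht1) isUnit_one Tri.one
      (fun a => by
        rw [hcm1, Matrix.mulVecLin_one, Submodule.map_id, hF a]) h2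
    rwa [Matrix.one_mulVec] at h4
  intro j hj hp
  have h4 := h3 j hj hp
  have hdet := (Matrix.isUnit_iff_isUnit_det _).1 hu
  have h5 : (γ * Φ₁)⁻¹ *ᵥ (γ *ᵥ tC t) = Φ₁⁻¹ *ᵥ tC t := by
    rw [Matrix.mul_inv_rev, Matrix.mulVec_mulVec, Matrix.mul_assoc,
      Matrix.nonsing_inv_mul _ hdet, Matrix.mul_one]
  rw [← h5, ← h4]
  have htri : Tri wt (γ * Φ₁)⁻¹ := (ht.mul ht1).inv (hu.mul hu1)
  simp only [Matrix.mulVec, dotProduct] at hγ ⊢
  refine Finset.sum_congr rfl fun k _ => ?_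
  by_cases hk : wt k < wt j
  · rw [htri j k hk, zero_mul, zero_mul]
  · rw [hγ k (by omega)]

theorem LAdm (h : VMHS wt p Q Φ) (ha : AdmL wt p Q Φ c Δ σ) (hl : l < 0)
    (hc : ∀ i, wt i ≠ 0 → c i = 0) (h0 : ∀ i, 0 ≤ wt i → t i = c i)
    (ht : ∀ z : ℂ, 0 < z.im → InF wt p l t (Φ z)) :
    AdmA (fun i : {i // wt i = l} => p i) (blk wt l l Q) (fun z => blk wt l l (Φ z))
      (fun z => nu wt l t (Φ z)) Δ σ := by
  obtain ⟨r, N, Ψ, ε, hr, hσ, hε, hN, hT, ⟨_, _, hQ⟩, hNc, hΨ, hΨu, hF⟩ := ha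
  have hcmN := adml_cm_nil hN
  -- the monodromy logarithm and the lift
  have hlow : ∀ i, l < wt i → (N *ᵥ t) i = 0 := by
    intro i hi
    apply lnil_low hN
    intro a
    obtain ⟨τ₀, hq⟩ := adml_height hr hε
    set τ₁ : ℍ := trans (a * r) • τ₀ with hτ₁
    have hcoe : (τ₁ : ℂ) / r = a + (τ₀ : ℂ) / r := by
      have h1 : (τ₁ : ℂ) = (τ₀ : ℂ) + ((a * r : ℝ) : ℂ) := by
        rw [hτ₁]
        exact glo2_coe_trans _ _
      have hr' : (r : ℂ) ≠ 0 := by exact_mod_cast hr.ne'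
      rw [h1]
      push_cast
      field_simp
      ring
    have hqq : Complex.exp (2 * Real.pi * I * ((τ₁ : ℂ) / r)) =
        Complex.exp (2 * Real.pi * I * ((τ₀ : ℂ) / r)) := by
      rw [hcoe]
      have h1 : 2 * (Real.pi : ℂ) * I * ((a : ℂ) + (τ₀ : ℂ) / r) =
          (a : ℂ) * (2 * Real.pi * I) + 2 * Real.pi * I * ((τ₀ : ℂ) / r) := by ring
      rw [h1, Complex.exp_add, Complex.exp_nat_mul_two_pi_mul_I, one_mul]
    have haN : IsNilpotent ((a : ℝ) • N) := adml_smul_nil hN a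
    have haT : Tri wt ((a : ℝ) • N) := by
      intro i j hij
      rw [Matrix.smul_apply, hT i j hij, smul_zero]
    have hexp : IsNilpotent.exp (((τ₁ : ℂ) / r) • cm N) =
        cm (IsNilpotent.exp ((a : ℝ) • N)) * IsNilpotent.exp (((τ₀ : ℂ) / r) • cm N) := by
      have h1 : cm ((a : ℝ) • N) = (a : ℂ) • cm N := by
        ext i j
        simp [cm]
      rw [adml_cm_exp haN, h1, hcoe, add_smul]
      exact IsNilpotent.exp_add_of_commute
        (((Commute.refl (cm N)).smul_left _).smul_right _)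
        (adml_csmul_nil hcmN _) (adml_csmul_nil hcmN _)
    have hmap : ∀ b, Fl p (Φ ((σ • τ₁ : ℍ) : ℂ)) b =
        (Fl p (Φ ((σ • τ₀ : ℍ) : ℂ)) b).map
          (Matrix.mulVecLin (cm (IsNilpotent.exp ((a : ℝ) • N)))) := by
      intro b
      rw [hF τ₁ (by rw [hqq]; exact hq) b, hF τ₀ hq b, ← Fl_mul, hqq, hexp, Matrix.mul_assoc]
    exact lDesc_fix (h.mhs _ (σ • τ₀).im_pos) (h.mhs _ (σ • τ₁).im_pos)
      (IsNilpotent.isUnit_exp haN) (Tri.exp_real haN haT)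
      (fun i hi => lAdm_c hN hT hNc hc a hi) hmap hc h0 (ht _ (σ • τ₀).im_pos)
      (ht _ (σ • τ₁).im_pos) hi
  refine ⟨r, NL (blk wt l l N) (fun i => (N *ᵥ t) i), fun q => blk wt l l (Ψ q),
    fun q => nu wt l t (Ψ q), ε, hr, hσ, hε, NL_nil (blk_nil hN hT l) _, fun j => ?_, ?_,
    fun i j => hΨ i j, fun i => ?_, fun q hq => (hΨu q hq).2.isUnit_blk (hΨu q hq).1 l,
    fun τ hτ => ?_⟩
  · rcases j with j | j <;> rfl
  · change (IsNilpotent.exp (blk wt l l N))ᵀ * blk wt l l Q * IsNilpotent.exp (blk wt l l N) = _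
    rw [← blk_exp_real hN hT]
    exact hQ l
  · unfold nu
    simp only [Matrix.mulVec, dotProduct]
    refine DifferentiableOn.fun_sum fun b _ => DifferentiableOn.mul (hΨ i b) ?_
    refine DifferentiableOn.fun_sum fun a _ => DifferentiableOn.mul_const ?_ _
    exact psiT_inv (fun a b => hΨ a b) (fun q hq => (hΨu q hq).1) b a
  · set ζ : ℂ := (τ : ℂ) / r with hζ
    set q : ℂ := Complex.exp (2 * Real.pi * I * ζ) with hq
    have hqm : q ∈ Metric.ball (0 : ℂ) ε := by rw [mem_ball_zero_iff]; exact hτ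
    obtain ⟨hΨ1, hΨ2⟩ := hΨu q hqm
    have h2 := h.mhs _ (σ • τ).im_pos
    have hγn : IsNilpotent (ζ • cm N) := adml_csmul_nil hcmN ζ
    have hγt' : Tri wt (ζ • cm N) := by
      intro i j hij
      rw [Matrix.smul_apply, hT.cm i j hij, smul_zero]
    have hγu : IsUnit (IsNilpotent.exp (ζ • cm N)) := IsNilpotent.isUnit_exp hγn
    have hγt : Tri wt (IsNilpotent.exp (ζ • cm N)) := Tri.exp hγn hγt'
    have hmap : ∀ a, Fl p (Φ ((σ • τ : ℍ) : ℂ)) a =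
        (Fl p (Ψ q) a).map (Matrix.mulVecLin (IsNilpotent.exp (ζ • cm N))) := by
      intro a
      rw [hF τ hτ a, ← Fl_mul]
    have hblk : blk wt l l (IsNilpotent.exp (ζ • cm N)) =
        IsNilpotent.exp (ζ • cm (blk wt l l N)) := by
      rw [blk_exp hγn hγt', ← cm_blk]; rfl
    have hfix : ∀ i, l < wt i → (IsNilpotent.exp (ζ • cm N) *ᵥ tC t) i = tC t i :=
      fun i hi => lnil_exp hN hT hlow ζ hi
    refine ⟨fun a => ?_, ?_⟩
    · change _ = Fl _ (IsNilpotent.exp (ζ • cm (blk wt l l N)) * blk wt l l (Ψ q)) a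
      rw [Fl_blk_map hΨ1 hΨ2 h2.unit h2.tri hγu hγt hmap l a, ← Fl_mul, hblk]
    · have hin : InF wt p l t (Ψ q) :=
        lAdm_inF hΨ1 hΨ2 h2.unit h2.tri hγu hγt (fun a => hF τ hτ a) hfix (ht _ (σ • τ).im_pos)
      have h3 := nu_transfer hΨ1 hΨ2 h2.unit h2.tri hγu hγt hmap hin hfix
      convert h3 using 2
      funext i
      rw [exp_NL hN hT hlow ζ (nu wt l t (Ψ q)) i, hblk]
      rfl

end MW38
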