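import Pool.Agent.LibMW38.EVar
import Pool.Agent.LibMW38.LDefs

/-! The variation `Gr_l` with the obstruction. -/

open Matrix Complex
open UpperHalfPlane hiding I

namespace MW38

open SP38 US38

variable {ι : Type} [Fintype ι] [DecidableEq ι] {wt p : ι → ℤ} {Q : Matrix ι ι ℝ}
  {Φ : ℂ → Matrix ι ι ℂ} {l : ℤ} {t : ι → ℝ}

theorem lVar_c (h : VMHS wt p Q Φ) (t : ι → ℝ) (j : ι) :
    DifferentiableOn ℂ (fun z => ((Φ z)⁻¹ *ᵥ tC t) j) {z : ℂ | 0 < z.im} := by
  simp only [Matrix.mulVec, dotProduct]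
  refine DifferentiableOn.fun_sum fun k _ => DifferentiableOn.mul_const ?_ _
  exact psiT_inv (fun a b => h.hol a b) (fun z hz => (h.mhs z hz).unit) j k

/-- the derivative of the coordinates of a constant vector -/
theorem lVar_cd (h : VMHS wt p Q Φ) (t : ι → ℝ) {z : ℂ} (hz : 0 < z.im) {D : ι → ι → ℂ}
    (hD : ∀ j i, deriv (fun z => Φ z i j) z = (Φ z *ᵥ D j) i) (k : ι) :
    deriv (fun z => ((Φ z)⁻¹ *ᵥ tC t) k) z = -∑ j, ((Φ z)⁻¹ *ᵥ tC t) j * D j k := by
  have hopen : IsOpen {z : ℂ | 0 < z.im} := isOpen_lt continuous_const Complex.continuous_im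
  set c : ι → ℂ := (Φ z)⁻¹ *ᵥ tC t with hc
  set cd : ι → ℂ := fun k => deriv (fun z => ((Φ z)⁻¹ *ᵥ tC t) k) z with hcd
  have hd1 : ∀ a b : ι, HasDerivAt (fun z => Φ z a b) (deriv (fun z => Φ z a b) z) z :=
    fun a b => ((h.hol a b).differentiableAt (hopen.mem_nhds hz)).hasDerivAt
  have hd2 : ∀ k : ι, HasDerivAt (fun z => ((Φ z)⁻¹ *ᵥ tC t) k) (cd k) z :=
    fun k => ((lVar_c h t k).differentiableAt (hopen.mem_nhds hz)).hasDerivAt
  have hsum : ∀ i, ∑ j, (deriv (fun z => Φ z i j) z * c j + Φ z i j * cd j) = 0 := by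
    intro i
    have h1 : HasDerivAt (fun w => ∑ j, Φ w i j * ((Φ w)⁻¹ *ᵥ tC t) j)
        (∑ j, (deriv (fun z => Φ z i j) z * c j + Φ z i j * cd j)) z :=
      HasDerivAt.fun_sum fun j _ => (hd1 i j).mul (hd2 j)
    have h3 : (fun w => ∑ j, Φ w i j * ((Φ w)⁻¹ *ᵥ tC t) j) =ᶠ[nhds z] fun _ => tC t i := by
      filter_upwards [hopen.mem_nhds hz] with w hw
      have h4 : (Φ w *ᵥ ((Φ w)⁻¹ *ᵥ tC t)) i = tC t i := by
        rw [Matrix.mulVec_mulVec, Matrix.mul_nonsing_inv _
          ((Matrix.isUnit_iff_isUnit_det _).1 (h.mhs w hw).unit), Matrix.one_mulVec]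
      exact h4
    exact (h1.congr_of_eventuallyEq h3.symm).unique (hasDerivAt_const z _)
  have hvec : Φ z *ᵥ (cd + ∑ j, c j • D j) = 0 := by
    funext i
    have h1 := hsum i
    rw [Finset.sum_add_distrib] at h1
    rw [Matrix.mulVec_add, Matrix.mulVec_sum, Pi.add_apply, Finset.sum_apply, Pi.zero_apply,
      ← h1, add_comm]
    congr 1
    refine Finset.sum_congr rfl fun j _ => ?_
    rw [Matrix.mulVec_smul, Pi.smul_apply, smul_eq_mul, hD j i, mul_comm]
  have hinj : Function.Injective (Φ z).mulVec :=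
    Matrix.mulVec_injective_iff_isUnit.2 (h.mhs z hz).unit
  have h5 : cd + ∑ j, c j • D j = 0 := hinj (by rw [hvec, Matrix.mulVec_zero])
  have h6 := congrFun h5 k
  rw [Pi.add_apply, Finset.sum_apply, Pi.zero_apply] at h6
  have h7 : cd k = -∑ j, (c j • D j) k := eq_neg_of_add_eq_zero_left h6
  exact h7

theorem LVar (h : VMHS wt p Q Φ) (ht : ∀ z : ℂ, 0 < z.im → InF wt p l t (Φ z)) :
    VarA l (fun i : {i // wt i = l} => p i) (blk wt l l Q) (fun z => blk wt l l (Φ z))
      (fun z => nu wt l t (Φ z)) where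
  phs z hz := (h.mhs z hz).gr l
  holG i j := h.hol i j
  holn i := by
    show DifferentiableOn ℂ (fun z => ∑ j : {j // wt j = l}, Φ z i j * ((Φ z)⁻¹ *ᵥ tC t) j) _
    exact DifferentiableOn.fun_sum fun j _ => (h.hol i j).mul (lVar_c h t j)
  trG z hz j := eVar_tr h hz l j
  trn z hz := by
    have hm := h.mhs z hz
    have hopen : IsOpen {z : ℂ | 0 < z.im} := isOpen_lt continuous_const Complex.continuous_im
    choose D hD1 hD2 hD3 using fun j => psiT_c h hz j
    set c : ι → ℂ := (Φ z)⁻¹ *ᵥ tC t with hc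
    rw [mem_Fl_iff_exists]
    refine ⟨fun k : {i // wt i = l} => (∑ j : {j // wt j = l}, c j * D j k) -
      ∑ j, c j * D j k, ?_, ?_⟩
    · intro k hk
      have h1 : ∑ j : {j // wt j = l}, c j * D j k =
          ∑ j, (if wt j = l then c j * D j k else 0) := by
        rw [psiT_sum wt l (fun j => if wt j = l then c j * D j k else 0)
          (fun j hj => by simp [hj])]
        exact Finset.sum_congr rfl fun j _ => by rw [if_pos j.2]
      show (∑ j : {j // wt j = l}, c j * D j k) - ∑ j, c j * D j k = 0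
      rw [h1, ← Finset.sum_sub_distrib]
      refine Finset.sum_eq_zero fun j _ => ?_
      rcases lt_trichotomy (wt j) l with h3 | h3 | h3
      · rw [if_neg h3.ne, hD2 j k (by rw [k.2]; exact h3), mul_zero, sub_zero]
      · rw [if_pos h3, sub_self]
      · rw [if_neg h3.ne']
        by_cases hp : p j < 0
        · have h4 : c j = 0 := ht z hz j h3 hp
          rw [h4, zero_mul, sub_zero]
        · have hk' : p (k : ι) < -1 := hk
          rw [hD1 j k (by omega), mul_zero, sub_zero]
    · funext i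
      have hd1 : ∀ a b : ι, HasDerivAt (fun z => Φ z a b) (deriv (fun z => Φ z a b) z) z :=
        fun a b => ((h.hol a b).differentiableAt (hopen.mem_nhds hz)).hasDerivAt
      have hd2 : ∀ k : ι, HasDerivAt (fun z => ((Φ z)⁻¹ *ᵥ tC t) k)
          (-∑ j, c j * D j k) z := by
        intro k
        have h1 := ((lVar_c h t k).differentiableAt (hopen.mem_nhds hz)).hasDerivAt
        rwa [lVar_cd h t hz hD3 k] at h1
      have h1 : HasDerivAt (fun w => ∑ j : {j // wt j = l}, Φ w i j * ((Φ w)⁻¹ *ᵥ tC t) j)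
          (∑ j : {j // wt j = l}, (deriv (fun z => Φ z i j) z * c j +
            Φ z i j * (-∑ j', c j' * D j' j))) z :=
        HasDerivAt.fun_sum fun j _ => (hd1 i j).mul (hd2 j)
      have h2 : deriv (fun z => nu wt l t (Φ z) i) z =
          ∑ j : {j // wt j = l}, (deriv (fun z => Φ z i j) z * c j +
            Φ z i j * (-∑ j', c j' * D j' j)) := h1.deriv
      show deriv (fun z => nu wt l t (Φ z) i) z = _
      rw [h2, Finset.sum_add_distrib]
      have h3 : ∑ j : {j // wt j = l}, deriv (fun z => Φ z i j) z * c j =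
          ∑ j : {j // wt j = l}, ∑ k : {k // wt k = l}, Φ z i k * (c j * D j k) := by
        refine Finset.sum_congr rfl fun j _ => ?_
        rw [hD3, psiT_blk hm.tri (fun k hk => hD2 j k (by rw [j.2]; exact hk)) i]
        simp only [Matrix.mulVec, dotProduct, Finset.sum_mul]
        refine Finset.sum_congr rfl fun k _ => ?_
        show Φ z i k * D j k * c j = _
        ring
      rw [h3, Finset.sum_comm, ← Finset.sum_add_distrib]
      simp only [Matrix.mulVec, dotProduct]
      refine Finset.sum_congr rfl fun k _ => ?_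
      show _ = Φ z i k * _
      rw [← Finset.mul_sum]
      ring

end MW38
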