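import Pool.Agent.LibMW38.Gen3
import Pool.Agent.LibMW38.LAdm
import Pool.Agent.LibMW38.LVar

/-! The theorem on lifts. -/

open Matrix Complex MeasureTheory
open UpperHalfPlane hiding I

namespace MW38

open SP38 US38

variable {κ : Type} [Fintype κ] {ι : Type} [Fintype ι] [DecidableEq ι] {wt p : ι → ℤ}
  {Q : Matrix ι ι ℝ} {Φ : ℂ → Matrix ι ι ℂ} {c : ι → ℝ}
  {Δ : Subgroup (Matrix.SpecialLinearGroup (Fin 2) ℝ)}
  {σ : κ → Matrix.SpecialLinearGroup (Fin 2) ℝ} {h : κ → ℝ} {D : Set ℍ}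

/-- the conclusion -/
def FewLifts (wt p : ι → ℤ) (Φ : ℂ → Matrix ι ι ℂ) (c : ι → ℝ)
    (Δ : Subgroup (Matrix.SpecialLinearGroup (Fin 2) ℝ)) (D : Set ℍ) (K : Subfield ℝ) : Prop :=
  ∃ Z : Finset ℍ, (∀ τ : ℍ, Lifts K wt p c (Φ (τ : ℂ)) → ∃ δ ∈ Δ, δ • τ ∈ Z) ∧
    (Z.card : ℝ) * (4 * Real.pi) ≤
      (∑ j, if wt j < 0 then (2 * (p j : ℝ) - wt j) ^ 2 else 0) * (volume D).toReal

/-- the bound for `Gr_l` is at most the total bound -/
theorem lmain_bound {l : ℤ} (hl : l < 0) :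
    4 * ∑ j : {i // wt i = l}, ((p j : ℝ) - (l : ℝ) / 2) ^ 2 ≤
      ∑ j, if wt j < 0 then (2 * (p j : ℝ) - wt j) ^ 2 else 0 := by
  set f : ι → ℝ := fun j => if wt j < 0 then (2 * (p j : ℝ) - wt j) ^ 2 else 0 with hf
  have h0 : ∀ y, 0 ≤ f y := by
    intro y
    simp only [hf]
    split_ifs
    · positivity
    · exact le_refl 0
  rw [Finset.mul_sum]
  have h2 : ∀ x : {i // wt i = l}, 4 * ((p x : ℝ) - (l : ℝ) / 2) ^ 2 = f x.1 := by
    rintro ⟨i, hi⟩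
    simp only [hf]
    rw [if_pos (by omega), hi]
    ring
  rw [Finset.sum_congr rfl (fun x _ => h2 x), ← Finset.sum_image (f := f)
    (g := fun x : {i // wt i = l} => x.1) (s := Finset.univ) (fun x _ y _ h => Subtype.ext h)]
  exact Finset.sum_le_sum_of_subset_of_nonneg (Finset.subset_univ _) (fun y _ _ => h0 y)

theorem lmain_step (hc : IsCurve Δ σ h D) (hv : VMHS wt p Q Φ)
    (hs : ∃ s : Equiv.Perm ι, ∀ j, wt (s j) = wt j ∧ p (s j) = wt j - p j)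
    (hns : ∀ j, wt j < 0 → p j < -1 ∨ wt j - p j < -1) (K : Subfield ℝ)
    (hH : HodgeGr wt p Φ c) (hd : DescL wt p Q Φ c Δ) (ha : ∀ i, AdmL wt p Q Φ c Δ (σ i))
    {l : ℤ} (hl : l < 0) {t : ι → ℝ} (htK : ∀ i, t i ∈ K) (h0 : ∀ i, 0 ≤ wt i → t i = c i)
    (ht : ∀ z : ℂ, 0 < z.im → InF wt p l t (Φ z)) :
    FewLifts wt p Φ c Δ D K ∨ ∃ t' : ι → ℝ, (∀ i, t' i ∈ K) ∧ (∀ i, 0 ≤ wt i → t' i = c i) ∧
      ∀ z : ℂ, 0 < z.im → InF wt p (l - 1) t' (Φ z) := by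
  rcases mainA hc (LVar hv ht) (LDesc hv hd hl hH.1 h0 ht) (symm_blk hs l)
    (fun j => by
      have h1 := hns j.1 (by rw [j.2]; exact hl)
      rw [j.2] at h1
      exact h1) (fun i => LAdm hv (ha i) hl hH.1 h0 ht) K with ⟨e, heK, he⟩ | ⟨Z, hZ, hZ'⟩
  · right
    classical
    refine ⟨fun i => if hi : wt i = l then t i - e ⟨i, hi⟩ else t i, fun i => ?_, fun i hi => ?_,
      fun z hz => ?_⟩
    · show (if hi : wt i = l then t i - e ⟨i, hi⟩ else t i) ∈ K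
      split_ifs with hi
      · exact K.sub_mem (htK i) (heK _)
      · exact htK i
    · show (if hi : wt i = l then t i - e ⟨i, hi⟩ else t i) = c i
      rw [dif_neg (by omega)]
      exact h0 i hi
    · refine inF_step (hv.mhs z hz).unit (hv.mhs z hz).tri (ht z hz) (e := e) (he ⟨z, hz⟩)
        (fun i hi => ?_) (fun i => ?_)
      · show (if hi : wt i = l then t i - e ⟨i, hi⟩ else t i) = t i
        rw [dif_neg hi]
      · show (if hi : wt i.1 = l then t i.1 - e ⟨i.1, hi⟩ else t i.1) = t i - e i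
        rw [dif_pos i.2]
  · left
    refine ⟨Z, fun τ hτ => ?_, ?_⟩
    · obtain ⟨t', htK', ht'⟩ := hτ
      refine hZ' τ ⟨fun i => t i - t' i, fun i => K.sub_mem (htK _) (htK' _), ?_⟩
      exact nu_of_lift (hv.mhs _ τ.im_pos) hl (ht _ τ.im_pos) h0 ht'
    · have h1 := lmain_bound (wt := wt) (p := p) hl
      have h2 : 0 ≤ (volume D).toReal := ENNReal.toReal_nonneg
      have h3 := mul_le_mul_of_nonneg_right h1 h2
      linarith

theorem lift_main (hc : IsCurve Δ σ h D) (hv : VMHS wt p Q Φ)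
    (hs : ∃ s : Equiv.Perm ι, ∀ j, wt (s j) = wt j ∧ p (s j) = wt j - p j)
    (hns : ∀ j, wt j < 0 → p j < -1 ∨ wt j - p j < -1) (K : Subfield ℝ) (hcK : ∀ i, c i ∈ K)
    (hH : HodgeGr wt p Φ c) (hd : DescL wt p Q Φ c Δ) (ha : ∀ i, AdmL wt p Q Φ c Δ (σ i)) :
    (∃ t : ι → ℝ, (∀ i, t i ∈ K) ∧ ∀ τ : ℍ, LiftBy wt p c t (Φ (τ : ℂ))) ∨
    ∃ Z : Finset ℍ, (∀ τ : ℍ, Lifts K wt p c (Φ (τ : ℂ)) → ∃ δ ∈ Δ, δ • τ ∈ Z) ∧
      (Z.card : ℝ) * (4 * Real.pi) ≤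
        (∑ j, if wt j < 0 then (2 * (p j : ℝ) - wt j) ^ 2 else 0) * (volume D).toReal := by
  by_cases hF : FewLifts wt p Φ c Δ D K
  · exact Or.inr hF
  left
  obtain ⟨B, hB⟩ : ∃ B : ℕ, ∀ i, |wt i| ≤ B := by
    refine ⟨∑ i, (wt i).natAbs, fun i => ?_⟩
    have h1 : (wt i).natAbs ≤ ∑ i, (wt i).natAbs :=
      Finset.single_le_sum (f := fun i => (wt i).natAbs) (fun _ _ => Nat.zero_le _)
        (Finset.mem_univ i)
    calc |wt i| = ((wt i).natAbs : ℤ) := (Int.natCast_natAbs (wt i)).symm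
      _ ≤ _ := by exact_mod_cast h1
  have ind : ∀ n : ℕ, ∃ t : ι → ℝ, (∀ i, t i ∈ K) ∧ (∀ i, 0 ≤ wt i → t i = c i) ∧
      ∀ z : ℂ, 0 < z.im → InF wt p (-1 - n) t (Φ z) := by
    intro n
    induction n with
    | zero =>
      refine ⟨c, hcK, fun i _ => rfl, fun z hz => ?_⟩
      have h1 := inF_start (hv.mhs z hz).unit (hv.mhs z hz).tri hH.1 (hH.2 z hz)
      simpa using h1
    | succ n ih =>
      obtain ⟨t, htK, h0, ht⟩ := ih
      rcases lmain_step hc hv hs hns K hH hd ha (l := -1 - n) (by omega) htK h0 ht with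
        h | ⟨t', htK', h0', ht'⟩
      · exact absurd h hF
      · refine ⟨t', htK', h0', fun z hz => ?_⟩
        have h1 := ht' z hz
        have h2 : (-1 - ((n + 1 : ℕ) : ℤ)) = -1 - (n : ℤ) - 1 := by push_cast; ring
        rw [h2]
        exact h1
  obtain ⟨t, htK, h0, ht⟩ := ind B
  refine ⟨t, htK, fun τ => ⟨h0, ?_⟩⟩
  refine (inF_iff_mem (hv.mhs _ τ.im_pos).unit (fun i => ?_)).1 (ht _ τ.im_pos)
  have := (abs_le.1 (hB i)).1
  omega

end MW38
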