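import Pool.Agent.LibMW38.Alg
import Pool.Agent.LibMW38.Blk
import Pool.Agent.LibMW38.LDefs

/-! Coordinates, uniqueness of lifts. -/

open Matrix Complex

namespace MW38

open SP38 US38

variable {ι : Type} [Fintype ι] [DecidableEq ι] {wt p : ι → ℤ} {Q : Matrix ι ι ℝ} {l : ℤ}
  {t t' c : ι → ℝ} {Φ : Matrix ι ι ℂ}

private theorem LRig_sum (k : ℤ) (f : ι → ℂ) (hf : ∀ i, wt i ≠ k → f i = 0) :
    ∑ i, f i = ∑ i : {i // wt i = k}, f i := by
  have h1 : ∑ i : {i // wt i = k}, f i = ∑ i ∈ Finset.univ.filter (fun i => wt i = k), f i := by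
    symm
    exact Finset.sum_subtype _ (by simp) f
  rw [h1, Finset.sum_filter_of_ne]
  intro x _ hx
  by_contra hne
  exact hx (hf x hne)

/-- the block of the product with a vector supported in weights at most `k` -/
private theorem LRig_blk {A : Matrix ι ι ℂ} (hA : Tri wt A) {k : ℤ} {v : ι → ℂ}
    (hv : ∀ i, k < wt i → v i = 0) (j : ι) (hj : wt j = k) :
    (A *ᵥ v) j = (blk wt k k A *ᵥ fun i : {i // wt i = k} => v i) ⟨j, hj⟩ := by
  rw [Matrix.mulVec, dotProduct, Matrix.mulVec, dotProduct, LRig_sum (wt := wt) k]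
  · rfl
  · intro i hi
    rcases lt_or_gt_of_ne hi with h | h
    · rw [hA j i (by omega), zero_mul]
    · rw [hv i h, mul_zero]

private theorem LRig_high {A : Matrix ι ι ℂ} (hA : Tri wt A) {k : ℤ} {v : ι → ℂ}
    (hv : ∀ i, k < wt i → v i = 0) (j : ι) (hj : k < wt j) : (A *ᵥ v) j = 0 := by
  rw [Matrix.mulVec, dotProduct]
  refine Finset.sum_eq_zero fun i _ => ?_
  rcases lt_or_ge (wt i) (wt j) with h | h
  · rw [hA j i h, zero_mul]
  · rw [hv i (by omega), mul_zero]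

private theorem LRig_inv {α : Type} [Fintype α] [DecidableEq α] {G : Matrix α α ℂ}
    (hG : IsUnit G) (v : α → ℂ) : G⁻¹ *ᵥ (G *ᵥ v) = v := by
  rw [Matrix.mulVec_mulVec, Matrix.nonsing_inv_mul G ((Matrix.isUnit_iff_isUnit_det G).mp hG),
    Matrix.one_mulVec]

theorem inF_iff_mem (hu : IsUnit Φ) (hl : ∀ i, l < wt i) :
    InF wt p l t Φ ↔ (fun i => (t i : ℂ)) ∈ Fl p Φ 0 := by
  rw [mem_Fl_iff hu]
  constructor
  · intro h j hj
    exact h j (hl j) hj
  · intro h j _ hj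
    exact h j hj

/-- members of `F^0` lie in `F^0 + W_l` -/
theorem inF_of_mem (hu : IsUnit Φ) (h : (fun i => (t i : ℂ)) ∈ Fl p Φ 0) (l : ℤ) :
    InF wt p l t Φ := by
  rw [mem_Fl_iff hu] at h
  intro j _ hj
  exact h j hj

/-- the start of the induction -/
theorem inF_start (hu : IsUnit Φ) (ht : Tri wt Φ) (hc : ∀ i, wt i ≠ 0 → c i = 0)
    (hF : (fun i : {i // wt i = 0} => (c i : ℂ)) ∈
      Fl (fun i : {i // wt i = 0} => p i) (blk wt 0 0 Φ) 0) : InF wt p (-1) c Φ := by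
  have hA := ht.inv hu
  have hv : ∀ i, (0 : ℤ) < wt i → tC c i = 0 := by
    intro i hi
    rw [tC, hc i (by omega), ofReal_zero]
  rw [mem_Fl_iff (ht.isUnit_blk hu 0)] at hF
  intro j hj hp
  by_cases hj0 : wt j = 0
  · rw [LRig_blk hA hv j hj0, ht.blk_inv hu]
    exact hF ⟨j, hj0⟩ hp
  · exact LRig_high hA hv j (by omega)

/-- uniqueness of lifts modulo `W_l` -/
theorem lift_uniq (h : MHS wt p Q Φ) (h1 : InF wt p l t Φ) (h2 : InF wt p l t' Φ)
    (h0 : ∀ i, 0 ≤ wt i → t i = t' i) {i : ι} (hi : l < wt i) : t i = t' i := by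
  by_contra hne
  set S := Finset.univ.filter (fun i : ι => l < wt i ∧ t i ≠ t' i) with hS
  have hSne : S.Nonempty := ⟨i, Finset.mem_filter.2 ⟨Finset.mem_univ _, hi, hne⟩⟩
  obtain ⟨j, hj, hmax⟩ := S.exists_max_image wt hSne
  rw [hS, Finset.mem_filter] at hj
  obtain ⟨-, hlj, hjne⟩ := hj
  have hk0 : wt j < 0 := by
    by_contra hcon
    exact hjne (h0 j (by omega))
  have hA := h.tri.inv h.unit
  have hv : ∀ i, wt j < wt i → (tC t - tC t') i = 0 := by
    intro i hi'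
    have : t i = t' i := by
      by_contra hcon
      have := hmax i (Finset.mem_filter.2 ⟨Finset.mem_univ _, by omega, hcon⟩)
      omega
    simp [tC, this]
  have hmem : (fun i : {i // wt i = wt j} => (tC t - tC t') i) ∈
      Fl (fun i : {i // wt i = wt j} => p i) (blk wt (wt j) (wt j) Φ) 0 := by
    rw [mem_Fl_iff (h.tri.isUnit_blk h.unit (wt j))]
    intro x hx
    rw [← h.tri.blk_inv h.unit, ← LRig_blk hA hv x.1 x.2, Matrix.mulVec_sub, Pi.sub_apply,
      h1 x.1 (by rw [x.2]; exact hlj) hx, h2 x.1 (by rw [x.2]; exact hlj) hx, sub_zero]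
  have hz := (h.gr (wt j)).rigid hk0 (v := fun i : {i // wt i = wt j} => (tC t - tC t') i)
    (by
      funext x
      simp [cc, tC]) hmem
  have := congrFun hz ⟨j, rfl⟩
  simp only [Pi.sub_apply, Pi.zero_apply, tC] at this
  apply hjne
  have h3 : ((t j - t' j : ℝ) : ℂ) = 0 := by
    push_cast
    exact this
  exact sub_eq_zero.1 (ofReal_eq_zero.1 h3)

/-- the induction step in coordinates -/
theorem inF_step (hu : IsUnit Φ) (ht : Tri wt Φ) (h1 : InF wt p l t Φ)
    {e : {i // wt i = l} → ℝ} (he : nu wt l t Φ - (fun i => (e i : ℂ)) ∈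
      Fl (fun i : {i // wt i = l} => p i) (blk wt l l Φ) 0)
    (ht' : ∀ i, wt i ≠ l → t' i = t i) (ht'' : ∀ i : {i // wt i = l}, t' i = t i - e i) :
    InF wt p (l - 1) t' Φ := by
  have hA := ht.inv hu
  have hv : ∀ i, l < wt i → (tC t - tC t') i = 0 := by
    intro i hi
    simp [tC, ht' i (by omega)]
  rw [mem_Fl_iff (ht.isUnit_blk hu l)] at he
  intro j hj hp
  have h2 : (Φ⁻¹ *ᵥ tC t') j = (Φ⁻¹ *ᵥ tC t) j - (Φ⁻¹ *ᵥ (tC t - tC t')) j := by
    rw [Matrix.mulVec_sub, Pi.sub_apply]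
    ring
  rw [h2]
  by_cases hjl : wt j = l
  · rw [LRig_blk hA hv j hjl, ht.blk_inv hu]
    have h3 := he ⟨j, hjl⟩ hp
    rw [Matrix.mulVec_sub, Pi.sub_apply, nu, LRig_inv (ht.isUnit_blk hu l)] at h3
    have h4 : (fun i : {i // wt i = l} => (tC t - tC t') i) = fun i => (e i : ℂ) := by
      funext x
      simp only [Pi.sub_apply, tC]
      rw [ht'' x]
      push_cast
      ring
    rw [h4]
    exact h3
  · rw [LRig_high hA hv j (by omega), h1 j (by omega) hp, sub_zero]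

/-- a lift at a point gives a point of the class -/
theorem nu_of_lift (h : MHS wt p Q Φ) (hl : l < 0) (h1 : InF wt p l t Φ)
    (h0 : ∀ i, 0 ≤ wt i → t i = c i) (h2 : LiftBy wt p c t' Φ) :
    nu wt l t Φ - (fun i : {i // wt i = l} => ((t i - t' i : ℝ) : ℂ)) ∈
      Fl (fun i : {i // wt i = l} => p i) (blk wt l l Φ) 0 := by
  obtain ⟨h3, h4⟩ := h2
  have hA := h.tri.inv h.unit
  have h5 := inF_of_mem (wt := wt) h.unit h4 l
  have hv : ∀ i, l < wt i → (tC t - tC t') i = 0 := by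
    intro i hi
    have := lift_uniq h h1 h5 (fun i hi => (h0 i hi).trans (h3 i hi).symm) hi
    simp [tC, this]
  rw [mem_Fl_iff (h.tri.isUnit_blk h.unit l)]
  intro x hx
  have h6 : (fun i : {i // wt i = l} => ((t i - t' i : ℝ) : ℂ)) =
      fun i : {i // wt i = l} => (tC t - tC t') i := by
    funext y
    simp only [Pi.sub_apply, tC]
    push_cast
    rfl
  rw [h6, Matrix.mulVec_sub, Pi.sub_apply, nu, LRig_inv (h.tri.isUnit_blk h.unit l),
    ← h.tri.blk_inv h.unit, ← LRig_blk hA hv x.1 x.2, Matrix.mulVec_sub, Pi.sub_apply]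
  rw [mem_Fl_iff h.unit] at h4
  have h7 : (Φ⁻¹ *ᵥ tC t') x.1 = 0 := h4 x.1 hx
  rw [h7]
  ring

end MW38
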