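import Pool.Agent.LibMW38.LRig
import Pool.Agent.LibMW38.Trf

/-! Transformation of the obstruction. -/

open Matrix Complex

namespace MW38

open SP38 US38

variable {ι : Type} [Fintype ι] [DecidableEq ι] {wt p : ι → ℤ} {l : ℤ} {t : ι → ℝ}
  {Φ₁ Φ₂ γ : Matrix ι ι ℂ}

/-- rows of weight `l` of a triangular matrix -/
theorem ltrf_mulVec {A : Matrix ι ι ℂ} (hA : Tri wt A) (v : ι → ℂ) (i : {i // wt i = l}) :
    (A *ᵥ v) i = (blk wt l l A *ᵥ (fun j : {j // wt j = l} => v j)) i +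
      ∑ j ∈ Finset.univ.filter (fun j => l < wt j), A i j * v j := by
  rw [Matrix.mulVec, dotProduct,
    ← Finset.sum_filter_add_sum_filter_not Finset.univ (fun j => wt j = l)]
  congr 1
  · rw [Matrix.mulVec, dotProduct]
    exact Finset.sum_subtype _ (by simp) fun x => A i x * v x
  · symm
    refine Finset.sum_subset ?_ ?_
    · intro j hj
      simp only [Finset.mem_filter, Finset.mem_univ, true_and] at hj ⊢
      omega
    · intro j hj hj'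
      simp only [Finset.mem_filter, Finset.mem_univ, true_and] at hj hj'
      have h1 : wt j < wt i := by
        have := i.2
        omega
      rw [hA i j h1, zero_mul]

theorem nu_transfer (hu1 : IsUnit Φ₁) (ht1 : Tri wt Φ₁) (hu2 : IsUnit Φ₂) (ht2 : Tri wt Φ₂)
    (hu : IsUnit γ) (ht : Tri wt γ)
    (hF : ∀ a, Fl p Φ₂ a = (Fl p Φ₁ a).map (Matrix.mulVecLin γ)) (h1 : InF wt p l t Φ₁)
    (hγ : ∀ i, l < wt i → (γ *ᵥ tC t) i = tC t i) :
    nu wt l t Φ₂ - (blk wt l l γ *ᵥ nu wt l t Φ₁ -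
      fun i : {i // wt i = l} => ((γ *ᵥ tC t) i - tC t i)) ∈
      Fl (fun i : {i // wt i = l} => p i) (blk wt l l Φ₂) 0 := by
  obtain ⟨C, hC, htC, h2, h3⟩ := trf_exists_C hu1 ht1 hu2 ht2 hu ht hF
  have hd1 := (Matrix.isUnit_iff_isUnit_det _).1 hu1
  have hd2 := (Matrix.isUnit_iff_isUnit_det _).1 hu2
  set c₁ : ι → ℂ := Φ₁⁻¹ *ᵥ tC t with hc₁
  set d : ι → ℂ := γ *ᵥ tC t - tC t with hd
  have e1 : γ *ᵥ tC t = Φ₂ *ᵥ (C *ᵥ c₁) := by
    have e0 : Φ₁ *ᵥ c₁ = tC t := by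
      rw [hc₁, Matrix.mulVec_mulVec, Matrix.mul_nonsing_inv _ hd1, Matrix.one_mulVec]
    rw [Matrix.mulVec_mulVec, ← h2, ← Matrix.mulVec_mulVec, e0]
  have e2 : Φ₂⁻¹ *ᵥ tC t = C *ᵥ c₁ - Φ₂⁻¹ *ᵥ d := by
    have : tC t = γ *ᵥ tC t - d := by rw [hd]; abel
    conv_lhs => rw [this, Matrix.mulVec_sub, e1, Matrix.mulVec_mulVec,
      Matrix.nonsing_inv_mul _ hd2, Matrix.one_mulVec]
  -- the remainder
  set r : {i // wt i = l} → ℂ :=
    fun i => ∑ j ∈ Finset.univ.filter (fun j => l < wt j), C i j * c₁ j with hr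
  have e3 : (fun i : {i // wt i = l} => (C *ᵥ c₁) i) =
      blk wt l l C *ᵥ (fun j : {j // wt j = l} => c₁ j) + r := by
    funext i
    rw [ltrf_mulVec htC c₁ i, Pi.add_apply]
  have e4 : (fun i : {i // wt i = l} => (Φ₂⁻¹ *ᵥ d) i) =
      (blk wt l l Φ₂)⁻¹ *ᵥ (fun j : {j // wt j = l} => d j) := by
    funext i
    rw [ltrf_mulVec (ht2.inv hu2) d i, ← ht2.blk_inv hu2]
    rw [Finset.sum_eq_zero, add_zero]
    intro j hj
    simp only [Finset.mem_filter, Finset.mem_univ, true_and] at hj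
    have : d j = 0 := by rw [hd, Pi.sub_apply, hγ j hj, sub_self]
    rw [this, mul_zero]
  have e5 : (fun i : {i // wt i = l} => (Φ₂⁻¹ *ᵥ tC t) i) =
      blk wt l l C *ᵥ (fun j : {j // wt j = l} => c₁ j) + r -
        (blk wt l l Φ₂)⁻¹ *ᵥ (fun j : {j // wt j = l} => d j) := by
    rw [← e3, ← e4, e2]
    rfl
  have hdb := (Matrix.isUnit_iff_isUnit_det _).1 (ht2.isUnit_blk hu2 l)
  have e6 : blk wt l l Φ₂ * blk wt l l C = blk wt l l γ * blk wt l l Φ₁ := by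
    rw [← blk_mul_diag ht2 htC, ← h2, blk_mul_diag ht ht1]
  rw [mem_Fl_iff_exists]
  refine ⟨r, ?_, ?_⟩
  · intro i hi
    rw [hr]
    refine Finset.sum_eq_zero fun j hj => ?_
    simp only [Finset.mem_filter, Finset.mem_univ, true_and] at hj
    by_cases hpj : p j < 0
    · rw [hc₁, h1 j hj hpj, mul_zero]
    · rw [h3 i j (by omega), zero_mul]
  · rw [nu, e5, Matrix.mulVec_sub, Matrix.mulVec_add, Matrix.mulVec_mulVec, e6,
      Matrix.mulVec_mulVec, Matrix.mul_nonsing_inv _ hdb, Matrix.one_mulVec, nu,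
      Matrix.mulVec_mulVec]
    funext i
    simp only [Pi.sub_apply, Pi.add_apply, hd]
    ring

/-- transport of the condition -/
theorem inF_transfer (hu1 : IsUnit Φ₁) (ht1 : Tri wt Φ₁) (hu2 : IsUnit Φ₂) (ht2 : Tri wt Φ₂)
    {γ : Matrix ι ι ℝ} (hu : IsUnit γ) (ht : Tri wt γ)
    (hF : ∀ a, Fl p Φ₂ a = (Fl p Φ₁ a).map (Matrix.mulVecLin (cm γ))) (h1 : InF wt p l t Φ₁) :
    InF wt p l (γ *ᵥ t) Φ₂ := by
  have hdet : (cm γ).det = ((γ.det : ℝ) : ℂ) := (Complex.ofRealHom.map_det γ).symm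
  have hu' : IsUnit (cm γ) := by
    rw [Matrix.isUnit_iff_isUnit_det, hdet, isUnit_iff_ne_zero]
    have := ((Matrix.isUnit_iff_isUnit_det _).1 hu).ne_zero
    exact_mod_cast this
  obtain ⟨C, hC, htC, h2, h3⟩ := trf_exists_C hu1 ht1 hu2 ht2 hu' ht.cm hF
  have hd1 := (Matrix.isUnit_iff_isUnit_det _).1 hu1
  have hd2 := (Matrix.isUnit_iff_isUnit_det _).1 hu2
  have e0 : tC (γ *ᵥ t) = cm γ *ᵥ tC t := by
    funext i
    simp [tC, cm, Matrix.mulVec, dotProduct]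
  have e1 : Φ₂⁻¹ *ᵥ tC (γ *ᵥ t) = C *ᵥ (Φ₁⁻¹ *ᵥ tC t) := by
    have e2 : cm γ *ᵥ tC t = (cm γ * Φ₁) *ᵥ (Φ₁⁻¹ *ᵥ tC t) := by
      have e3 : Φ₁ *ᵥ (Φ₁⁻¹ *ᵥ tC t) = tC t := by
        rw [Matrix.mulVec_mulVec, Matrix.mul_nonsing_inv _ hd1, Matrix.one_mulVec]
      rw [← Matrix.mulVec_mulVec, e3]
    rw [e0, e2, h2, ← Matrix.mulVec_mulVec, Matrix.mulVec_mulVec _ Φ₂⁻¹ Φ₂,
      Matrix.nonsing_inv_mul _ hd2, Matrix.one_mulVec]
  intro j hj hpj
  rw [e1, Matrix.mulVec, dotProduct]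
  refine Finset.sum_eq_zero fun i _ => ?_
  by_cases hw : wt i < wt j
  · rw [htC j i hw, zero_mul]
  · by_cases hp : p j < p i
    · rw [h3 j i hp, zero_mul]
    · rw [h1 i (by omega) (by omega), mul_zero]

end MW38
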