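import Pool.Agent.LibMW38.Rig

/-! The induction step. -/

open Matrix Complex MeasureTheory
open UpperHalfPlane hiding I

namespace MW38

open SP38 US38

variable {ι : Type} [Fintype ι] [DecidableEq ι] {wt p : ι → ℤ} {Q : Matrix ι ι ℝ}
  {Φ : ℂ → Matrix ι ι ℂ} {g : Matrix ι ι ℝ} {k l : ℤ}

/-- types of `Hom` -/
theorem E_symm (hs : ∃ s : Equiv.Perm ι, ∀ j, wt (s j) = wt j ∧ p (s j) = wt j - p j) (k l : ℤ) :
    ∃ s : Equiv.Perm ({i // wt i = k} × {j // wt j = l}), ∀ x,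
      pE (fun i : {i // wt i = k} => p i) (fun i : {i // wt i = l} => p i) (s x) =
      (k - l) - pE (fun i : {i // wt i = k} => p i) (fun i : {i // wt i = l} => p i) x := by
  obtain ⟨s, hs1⟩ := symm_blk hs k
  obtain ⟨t, ht1⟩ := symm_blk hs l
  refine ⟨Equiv.prodCongr s t, fun x => ?_⟩
  simp only [pE, Equiv.prodCongr_apply, Prod.map_fst, Prod.map_snd]
  rw [hs1, ht1]
  ring

/-- the bound for `Hom (Gr_l, Gr_k)` is at most the total bound -/
theorem E_bound (hkl : k < l) :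
    4 * ∑ x, ((pE (fun i : {i // wt i = k} => p i) (fun i : {i // wt i = l} => p i) x : ℝ) -
      ((k - l : ℤ) : ℝ) / 2) ^ 2 ≤
    ∑ i, ∑ j, if wt i < wt j then
      ((2 * (p i : ℝ) - wt i) - (2 * (p j : ℝ) - wt j)) ^ 2 else 0 := by
  set f : ι × ι → ℝ := fun y => if wt y.1 < wt y.2 then
      ((2 * (p y.1 : ℝ) - wt y.1) - (2 * (p y.2 : ℝ) - wt y.2)) ^ 2 else 0 with hf
  have h0 : ∀ y, 0 ≤ f y := by
    intro y
    simp only [hf]
    split_ifs
    · positivity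
    · exact le_refl 0
  have h1 : (∑ i, ∑ j, if wt i < wt j then
      ((2 * (p i : ℝ) - wt i) - (2 * (p j : ℝ) - wt j)) ^ 2 else 0) = ∑ y : ι × ι, f y := by
    rw [Fintype.sum_prod_type]
  rw [h1, Finset.mul_sum]
  let emb : ({i // wt i = k} × {j // wt j = l}) → ι × ι := fun x => (x.1.1, x.2.1)
  have hemb : Function.Injective emb := by
    rintro ⟨⟨a, ha⟩, ⟨b, hb⟩⟩ ⟨⟨a', ha'⟩, ⟨b', hb'⟩⟩ h
    simp only [emb, Prod.mk.injEq] at h
    obtain ⟨h1, h2⟩ := h
    subst h1 h2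
    rfl
  have h2 : ∀ x : {i // wt i = k} × {j // wt j = l},
      4 * ((pE (fun i : {i // wt i = k} => p i) (fun i : {i // wt i = l} => p i) x : ℝ) -
      ((k - l : ℤ) : ℝ) / 2) ^ 2 = f (emb x) := by
    rintro ⟨⟨i, hi⟩, ⟨j, hj⟩⟩
    simp only [hf, emb, pE]
    rw [if_pos (by omega), hi, hj]
    push_cast
    ring
  rw [Finset.sum_congr rfl (fun x _ => h2 x), ← Finset.sum_image (f := f) (g := emb)
    (s := Finset.univ) (fun x _ y _ h => hemb h)]
  exact Finset.sum_le_sum_of_subset_of_nonneg (Finset.subset_univ _) (fun y _ _ => h0 y)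

end MW38
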