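import Pool.Agent.LibMW38.Col
import Pool.Agent.LibMW38.Rig
import Pool.Agent.LibMW38.Trf

/-! The induction step. -/

open Matrix Complex MeasureTheory
open UpperHalfPlane hiding I

namespace MW38

open SP38 US38

variable {ι : Type} [Fintype ι] [DecidableEq ι] {wt p : ι → ℤ} {Q : Matrix ι ι ℝ}
  {Φ : ℂ → Matrix ι ι ℂ} {g : Matrix ι ι ℝ} {k l : ℤ}

theorem stepB_top {D Φ : Matrix ι ι ℂ} (hD : ∀ i j, wt j < l → D i j = 0) (ht : Tri wt Φ)
    (k : ℤ) : blk wt k l (D * Φ) = blk wt k l D * blk wt l l Φ := by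
  ext i b
  have h1 : ∑ j ∈ Finset.univ.filter (fun j => wt j = l), D i j * Φ j b =
      ∑ j : {j // wt j = l}, D i j * Φ j b :=
    Finset.sum_subtype (Finset.univ.filter (fun j => wt j = l)) (by simp)
      (fun j => D i j * Φ j b)
  have h2 : ∑ j ∈ Finset.univ.filter (fun j => wt j = l), D i j * Φ j b =
      ∑ j, D i j * Φ j b := by
    apply Finset.sum_subset (Finset.filter_subset _ _)
    intro j _ hj
    rcases lt_trichotomy (wt j) l with h | h | h
    · rw [hD i j h, zero_mul]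
    · exact absurd (Finset.mem_filter.2 ⟨Finset.mem_univ j, h⟩) hj
    · have hb : wt (b : ι) < wt j := by rw [b.2]; exact h
      rw [ht j b hb, mul_zero]
  show (D * Φ) i b = (blk wt k l D * blk wt l l Φ) i b
  rw [Matrix.mul_apply, Matrix.mul_apply, ← h2, h1]
  rfl

theorem stepB_low {A B Φ : Matrix ι ι ℂ} (hD : ∀ i j, wt j < l → A i j = B i j) (ht : Tri wt Φ)
    (k m : ℤ) (hm : m < l) : blk wt k m (A * Φ) = blk wt k m (B * Φ) := by
  ext i b
  show (A * Φ) i b = (B * Φ) i b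
  rw [Matrix.mul_apply, Matrix.mul_apply]
  apply Finset.sum_congr rfl
  intro j _
  by_cases h : wt j < l
  · rw [hD i j h]
  · have hb : wt (b : ι) < wt j := by rw [b.2]; omega
    rw [ht j b hb, mul_zero, mul_zero]

theorem stepB_psi_mul {Φ : Matrix ι ι ℂ} (hu : IsUnit Φ) (ht : Tri wt Φ) (g : Matrix ι ι ℝ)
    (k l : ℤ) : psi wt k l g Φ * blk wt l l Φ = blk wt k l (cm g * Φ) := by
  have h1 := ht.isUnit_blk hu l
  rw [psi, Matrix.mul_assoc, Matrix.nonsing_inv_mul _ ((Matrix.isUnit_iff_isUnit_det _).1 h1),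
    Matrix.mul_one]

/-- a `K`-split structure has `K`-split classes -/
theorem isSplit_psi {Φ : Matrix ι ι ℂ} (h : MHS wt p Q Φ)
    (hs : ∃ s : Equiv.Perm ι, ∀ j, wt (s j) = wt j ∧ p (s j) = wt j - p j)
    {K : Subfield ℝ} (hg : Uni wt g) (hgK : ∀ i j, g i j ∈ K) (hkl : k < l)
    (hc : ∀ k m, k < m → m < l → ColF wt p k m (cm g * Φ) Φ) (hS : IsSplit K wt p Φ) :
    ∃ e : {i // wt i = k} × {j // wt j = l} → ℝ, (∀ i, e i ∈ K) ∧
      vc (psi wt k l g Φ) - (fun i => (e i : ℂ)) ∈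
        Fl (pE (fun i : {i // wt i = k} => p i) (fun i : {i // wt i = l} => p i))
          (kr (blk wt k k Φ) (blk wt l l Φ)) 0 := by
  obtain ⟨gx, hgxK, hgx, hsp⟩ := hS
  rw [splitBy_iff h.unit h.tri hgx] at hsp
  have hun : ∀ i j, wt j < l → g i j = gx i j := fun i j hj =>
    uniq h hs hg hgx hc (fun k m hkm _ => hsp k m hkm) hj
  refine ⟨fun x => g x.1 x.2 - gx x.1 x.2, fun x => K.sub_mem (hgK _ _) (hgxK _ _), ?_⟩
  have h0 : vc (psi wt k l g Φ) - (fun i : {i // wt i = k} × {j // wt j = l} =>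
      ((g i.1 i.2 - gx i.1 i.2 : ℝ) : ℂ)) =
      vc (psi wt k l g Φ - blk wt k l (cm g - cm gx)) := by
    funext x
    simp [vc, blk, cm]
  rw [h0, mem_Fl_hom (h.tri.isUnit_blk h.unit k) (h.tri.isUnit_blk h.unit l)]
  intro b
  have h1 : (psi wt k l g Φ - blk wt k l (cm g - cm gx)) * blk wt l l Φ =
      blk wt k l (cm gx * Φ) := by
    rw [Matrix.sub_mul, stepB_psi_mul h.unit h.tri, ← stepB_top _ h.tri k]
    · rw [Matrix.sub_mul]
      ext i j
      simp [blk]
    · intro i j hj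
      simp [cm, hun i j hj]
  rw [h1, add_zero]
  exact hsp k l hkl b

/-- change of the splitting in the columns of weight `l` -/
theorem step_up {K : Subfield ℝ} (hg : Uni wt g) (hgK : ∀ i j, g i j ∈ K) (l : ℤ)
    (E : ∀ k : ℤ, {i // wt i = k} × {j // wt j = l} → ℝ) (hE : ∀ k x, E k x ∈ K) :
    ∃ g' : Matrix ι ι ℝ, Uni wt g' ∧ (∀ i j, g' i j ∈ K) ∧ ∀ Φ : Matrix ι ι ℂ, IsUnit Φ →
      Tri wt Φ → (∀ k m, k < m → m < l → ColF wt p k m (cm g * Φ) Φ) →
      (∀ k, k < l → vc (psi wt k l g Φ) - (fun i => (E k i : ℂ)) ∈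
        Fl (pE (fun i : {i // wt i = k} => p i) (fun i : {i // wt i = l} => p i))
          (kr (blk wt k k Φ) (blk wt l l Φ)) 0) →
      ∀ k m, k < m → m < l + 1 → ColF wt p k m (cm g' * Φ) Φ := by
  let g' : Matrix ι ι ℝ := fun i j => if h : wt j = l ∧ wt i < l then
    g i j - E (wt i) (⟨i, rfl⟩, ⟨j, h.1⟩) else g i j
  have hlow : ∀ i j, wt j < l → g' i j = g i j := by
    intro i j hj
    show (if h : wt j = l ∧ wt i < l then
      g i j - E (wt i) (⟨i, rfl⟩, ⟨j, h.1⟩) else g i j) = g i j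
    rw [dif_neg (by omega)]
  refine ⟨g', ?_, ?_, ?_⟩
  · intro i j hij
    show (if h : wt j = l ∧ wt i < l then
      g i j - E (wt i) (⟨i, rfl⟩, ⟨j, h.1⟩) else g i j) = _
    rw [dif_neg (by omega)]
    exact hg i j hij
  · intro i j
    show (if h : wt j = l ∧ wt i < l then
      g i j - E (wt i) (⟨i, rfl⟩, ⟨j, h.1⟩) else g i j) ∈ K
    split_ifs with h
    · exact K.sub_mem (hgK _ _) (hE _ _)
    · exact hgK _ _
  · intro Φ hu ht hc hpsi k m hkm hm
    rcases lt_or_eq_of_le (show m ≤ l by omega) with hml | hml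
    · intro b
      rw [stepB_low (A := cm g') (B := cm g) (l := l) (fun i j hj => by simp [cm, hlow i j hj])
        ht k m hml]
      exact hc k m hkm hml b
    · subst hml
      intro b
      have h1 := hpsi k hkm
      have h0 : vc (psi wt k m g Φ) - (fun i : {i // wt i = k} × {j // wt j = m} =>
          ((E k i : ℝ) : ℂ)) = vc (psi wt k m g Φ + blk wt k m (cm g' - cm g)) := by
        funext x
        obtain ⟨⟨i, hi⟩, ⟨j, hj⟩⟩ := x
        subst hi
        have h2 : g' i j = g i j - E (wt i) (⟨i, rfl⟩, ⟨j, hj⟩) := by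
          show (if h : wt j = m ∧ wt i < m then
            g i j - E (wt i) (⟨i, rfl⟩, ⟨j, h.1⟩) else g i j) = _
          rw [dif_pos ⟨hj, hkm⟩]
        simp [vc, blk, cm, h2, sub_eq_add_neg]
      rw [h0, mem_Fl_hom (ht.isUnit_blk hu k) (ht.isUnit_blk hu m)] at h1
      have h3 : (psi wt k m g Φ + blk wt k m (cm g' - cm g)) * blk wt m m Φ =
          blk wt k m (cm g' * Φ) := by
        rw [Matrix.add_mul, stepB_psi_mul hu ht, ← stepB_top _ ht k]
        · rw [Matrix.sub_mul]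
          ext i j
          simp [blk]
        · intro i j hj
          simp [cm, hlow i j hj]
      have h4 := h1 b
      rw [h3, add_zero] at h4
      exact h4

end MW38
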