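import Pool.Agent.LibMW38.EAdm
import Pool.Agent.LibMW38.EDesc
import Pool.Agent.LibMW38.EVar
import Pool.Agent.LibMW38.Gen3
import Pool.Agent.LibMW38.StepA
import Pool.Agent.LibMW38.StepB

/-! The theorem. -/

open Matrix Complex MeasureTheory
open UpperHalfPlane hiding I

namespace MW38

open SP38 US38

variable {κ : Type} [Fintype κ] {ι : Type} [Fintype ι] [DecidableEq ι] {wt p : ι → ℤ}
  {Q : Matrix ι ι ℝ} {Φ : ℂ → Matrix ι ι ℂ}
  {Δ : Subgroup (Matrix.SpecialLinearGroup (Fin 2) ℝ)}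
  {σ : κ → Matrix.SpecialLinearGroup (Fin 2) ℝ} {h : κ → ℝ} {D : Set ℍ}

/-- the conclusion -/
def Fewsplit (wt p : ι → ℤ) (Φ : ℂ → Matrix ι ι ℂ)
    (Δ : Subgroup (Matrix.SpecialLinearGroup (Fin 2) ℝ)) (D : Set ℍ) (K : Subfield ℝ) : Prop :=
  ∃ Z : Finset ℍ, (∀ τ : ℍ, IsSplit K wt p (Φ (τ : ℂ)) → ∃ δ ∈ Δ, δ • τ ∈ Z) ∧
    (Z.card : ℝ) * (4 * Real.pi) ≤ (∑ i, ∑ j, if wt i < wt j then
      ((2 * (p i : ℝ) - wt i) - (2 * (p j : ℝ) - wt j)) ^ 2 else 0) * (volume D).toReal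

theorem step (hc : IsCurve Δ σ h D) (hv : VMHS wt p Q Φ) (hd : Desc wt p Q Φ Δ)
    (hs : ∃ s : Equiv.Perm ι, ∀ j, wt (s j) = wt j ∧ p (s j) = wt j - p j)
    (hns : ∀ i j, wt i < wt j → p i - p j < -1 ∨ (wt i - wt j) - (p i - p j) < -1)
    (ha : ∀ i, Adm wt p Q Φ Δ (σ i)) (K : Subfield ℝ) {l : ℤ} {g : Matrix ι ι ℝ}
    (hg : Uni wt g) (hgK : ∀ i j, g i j ∈ K)
    (hcol : ∀ z : ℂ, 0 < z.im → ∀ k m, k < m → m < l → ColF wt p k m (cm g * Φ z) (Φ z)) :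
    Fewsplit wt p Φ Δ D K ∨ ∃ g' : Matrix ι ι ℝ, Uni wt g' ∧ (∀ i j, g' i j ∈ K) ∧
      ∀ z : ℂ, 0 < z.im → ∀ k m, k < m → m < l + 1 → ColF wt p k m (cm g' * Φ z) (Φ z) := by
  have key : ∀ k : ℤ, k < l → (∃ e : {i // wt i = k} × {j // wt j = l} → ℝ, (∀ i, e i ∈ K) ∧
      ∀ τ : ℍ, vc (psi wt k l g (Φ (τ : ℂ))) - (fun i => (e i : ℂ)) ∈
        Fl (pE (fun i : {i // wt i = k} => p i) (fun i : {i // wt i = l} => p i))
          (kr (blk wt k k (Φ (τ : ℂ))) (blk wt l l (Φ (τ : ℂ)))) 0) ∨ Fewsplit wt p Φ Δ D K := by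
    intro k hkl
    have hc1 : ∀ z : ℂ, 0 < z.im → ∀ m, k < m → m < l → ColF wt p k m (cm g * Φ z) (Φ z) :=
      fun z hz m hm hm' => hcol z hz k m hm hm'
    have hns' : ∀ x : {i // wt i = k} × {j // wt j = l},
        pE (fun i : {i // wt i = k} => p i) (fun i : {i // wt i = l} => p i) x < -1 ∨
        (k - l) - pE (fun i : {i // wt i = k} => p i) (fun i : {i // wt i = l} => p i) x < -1 := by
      rintro ⟨⟨i, hi⟩, ⟨j, hj⟩⟩
      have := hns i j (by omega)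
      simp only [pE]
      omega
    rcases mainA hc (EVar hv hs hg hkl hc1) (EDesc hv hd hs hg hkl hcol) (E_symm hs k l) hns'
      (fun i => EAdm hv (ha i) hs hg hkl hcol) K with h | ⟨Z, hZ, hZ'⟩
    · exact Or.inl h
    · refine Or.inr ⟨Z, fun τ hτ => hZ' τ ?_, ?_⟩
      · exact isSplit_psi (hv.mhs _ τ.im_pos) hs hg hgK hkl
          (fun k m hkm hm => hcol _ τ.im_pos k m hkm hm) hτ
      · have h1 := E_bound (p := p) (wt := wt) hkl
        have h2 : 0 ≤ (volume D).toReal := ENNReal.toReal_nonneg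
        have h3 := mul_le_mul_of_nonneg_right h1 h2
        linarith
  by_cases hF : Fewsplit wt p Φ Δ D K
  · exact Or.inl hF
  right
  have key' : ∀ k : ℤ, ∃ e : {i // wt i = k} × {j // wt j = l} → ℝ, (∀ i, e i ∈ K) ∧
      (k < l → ∀ τ : ℍ, vc (psi wt k l g (Φ (τ : ℂ))) - (fun i => (e i : ℂ)) ∈
        Fl (pE (fun i : {i // wt i = k} => p i) (fun i : {i // wt i = l} => p i))
          (kr (blk wt k k (Φ (τ : ℂ))) (blk wt l l (Φ (τ : ℂ)))) 0) := by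
    intro k
    by_cases hkl : k < l
    · rcases key k hkl with ⟨e, he, he'⟩ | h
      · exact ⟨e, he, fun _ => he'⟩
      · exact absurd h hF
    · exact ⟨fun _ => 0, fun _ => K.zero_mem, fun h => absurd h hkl⟩
  choose E hE hE' using key'
  obtain ⟨g', hg', hgK', hstep⟩ := step_up (p := p) hg hgK l E hE
  refine ⟨g', hg', hgK', fun z hz => hstep (Φ z) (hv.mhs z hz).unit (hv.mhs z hz).tri
    (fun k m hkm hm => hcol z hz k m hkm hm) (fun k hkl => ?_)⟩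
  exact hE' k hkl ⟨z, hz⟩

theorem main (hc : IsCurve Δ σ h D) (hv : VMHS wt p Q Φ) (hd : Desc wt p Q Φ Δ)
    (hs : ∃ s : Equiv.Perm ι, ∀ j, wt (s j) = wt j ∧ p (s j) = wt j - p j)
    (hns : ∀ i j, wt i < wt j → p i - p j < -1 ∨ (wt i - wt j) - (p i - p j) < -1)
    (ha : ∀ i, Adm wt p Q Φ Δ (σ i)) (K : Subfield ℝ) :
    (∃ g : Matrix ι ι ℝ, (∀ i j, g i j ∈ K) ∧ Uni wt g ∧
      ∀ τ : ℍ, SplitBy wt p g (Φ (τ : ℂ))) ∨ Fewsplit wt p Φ Δ D K := by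
  by_cases hF : Fewsplit wt p Φ Δ D K
  · exact Or.inr hF
  left
  -- a bound for the weights
  obtain ⟨B, hB⟩ : ∃ B : ℕ, ∀ i, |wt i| ≤ B := by
    refine ⟨∑ i, (wt i).natAbs, fun i => ?_⟩
    have h1 : (wt i).natAbs ≤ ∑ i, (wt i).natAbs :=
      Finset.single_le_sum (f := fun i => (wt i).natAbs) (fun _ _ => Nat.zero_le _)
        (Finset.mem_univ i)
    calc |wt i| = ((wt i).natAbs : ℤ) := (Int.natCast_natAbs (wt i)).symm
      _ ≤ _ := by exact_mod_cast h1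
  have ind : ∀ n : ℕ, ∃ g : Matrix ι ι ℝ, Uni wt g ∧ (∀ i j, g i j ∈ K) ∧
      ∀ z : ℂ, 0 < z.im → ∀ k m, k < m → m < -(B : ℤ) + n →
        ColF wt p k m (cm g * Φ z) (Φ z) := by
    intro n
    induction n with
    | zero =>
      refine ⟨1, fun i j _ => by rw [Matrix.one_apply], fun i j => ?_, ?_⟩
      · rw [Matrix.one_apply]
        split_ifs
        · exact K.one_mem
        · exact K.zero_mem
      · rintro z hz k m hkm hm ⟨b, hb⟩
        exfalso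
        have h1 := (abs_le.1 (hB b)).1
        simp only [Nat.cast_zero] at hm
        omega
    | succ n ih =>
      obtain ⟨g, hg, hgK, hcol⟩ := ih
      rcases step hc hv hd hs hns ha K hg hgK hcol with h | ⟨g', hg', hgK', hcol'⟩
      · exact absurd h hF
      · refine ⟨g', hg', hgK', fun z hz k m hkm hm => hcol' z hz k m hkm ?_⟩
        push_cast at hm
        omega
  obtain ⟨g, hg, hgK, hcol⟩ := ind (2 * B + 1)
  refine ⟨g, hgK, hg, fun τ => ?_⟩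
  rw [splitBy_iff (hv.mhs _ τ.im_pos).unit (hv.mhs _ τ.im_pos).tri hg]
  intro k l hkl
  by_cases hl : l < -(B : ℤ) + (2 * B + 1 : ℕ)
  · exact hcol _ τ.im_pos k l hkl hl
  · rintro ⟨b, hb⟩
    exfalso
    have h1 := (abs_le.1 (hB b)).2
    push_cast at hl
    omega

end MW38
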